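import Pool.Agent.LE.StmtsI

/-!
# FTB: the Fourier transform on the torus
-/

set_option autoImplicit false
set_option linter.unusedSectionVars false

open MeasureTheory ProbabilityTheory

open scoped ENNReal BigOperators NNReal

noncomputable section

namespace Pool.Agent.LE.IR.H54

open Pool.Agent.BED Pool.Agent.LE.IR

variable {d M : ℕ} [NeZero M]

theorem ec_norm (p y : Tor d M) : ‖ec p y‖ = 1 := by
  unfold ec
  rw [norm_prod]
  refine Finset.prod_eq_one fun i _ => ?_
  rw [ZMod.stdAddChar_apply]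
  exact Circle.norm_coe _

theorem ec_add (p y z : Tor d M) : ec p (y + z) = ec p y * ec p z := by
  unfold ec
  rw [← Finset.prod_mul_distrib]
  refine Finset.prod_congr rfl fun i _ => ?_
  rw [Pi.add_apply, mul_add, AddChar.map_add_eq_mul]

theorem ec_comm (p y : Tor d M) : ec p y = ec y p := by
  unfold ec
  exact Finset.prod_congr rfl fun i _ => by rw [mul_comm]

theorem ec_add_left (p q y : Tor d M) : ec (p + q) y = ec p y * ec q y := by
  rw [ec_comm, ec_add, ec_comm y p, ec_comm y q]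

theorem ec_zero (p : Tor d M) : ec p 0 = 1 := by
  unfold ec
  simp

theorem ec_neg (p y : Tor d M) : ec p (-y) = (starRingEnd ℂ) (ec p y) := by
  have h1 : ec p (-y) * ec p y = 1 := by rw [← ec_add, neg_add_cancel, ec_zero]
  have h2 : (starRingEnd ℂ) (ec p y) * ec p y = 1 := by
    rw [mul_comm, Complex.mul_conj, Complex.normSq_eq_norm_sq, ec_norm]; norm_num
  have h3 : ec p y ≠ 0 := by
    intro h
    rw [h, mul_zero] at h1
    exact zero_ne_one h1
  exact mul_right_cancel₀ h3 (h1.trans h2.symm)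

theorem ec_neg_left (p y : Tor d M) : ec (-p) y = (starRingEnd ℂ) (ec p y) := by
  rw [ec_comm, ec_neg, ec_comm]

theorem ec_sub (p y z : Tor d M) : ec p (y - z) = ec p y * (starRingEnd ℂ) (ec p z) := by
  rw [sub_eq_add_neg, ec_add, ec_neg]

theorem sum_ec (p : Tor d M) : ∑ y, ec p y = if p = 0 then (M : ℂ) ^ d else 0 := by
  unfold ec
  have h1 : ∑ y : Tor d M, ∏ i, ZMod.stdAddChar (p i * y i) =
      ∏ i, ∑ t : ZMod M, ZMod.stdAddChar (p i * t) := by
    rw [Finset.prod_univ_sum]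
    simp [Fintype.piFinset_univ]
  rw [h1]
  have h2 : ∀ i, ∑ t : ZMod M, ZMod.stdAddChar (p i * t) = if p i = 0 then (M : ℂ) else 0 := by
    intro i
    have := AddChar.sum_mulShift (p i) (ZMod.isPrimitive_stdAddChar M)
    rw [ZMod.card] at this
    have h3 : ∑ t : ZMod M, ZMod.stdAddChar (p i * t) = ∑ t : ZMod M, ZMod.stdAddChar (t * p i) :=
      Finset.sum_congr rfl fun t _ => by rw [mul_comm]
    rw [h3, this]
    split_ifs <;> simp
  simp only [h2]
  by_cases hp : p = 0
  · rw [if_pos hp]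
    subst hp
    simp
  · rw [if_neg hp]
    have : ∃ i, p i ≠ 0 := by
      by_contra hcon
      exact hp (funext fun i => by_contra fun h => hcon ⟨i, h⟩)
    obtain ⟨i, hi⟩ := this
    exact Finset.prod_eq_zero (Finset.mem_univ i) (if_neg hi)

theorem sum_ec_right (y : Tor d M) : ∑ p, ec p y = if y = 0 then (M : ℂ) ^ d else 0 := by
  rw [← sum_ec y]
  exact Finset.sum_congr rfl fun p _ => ec_comm p y

theorem Mne : (M : ℂ) ^ d ≠ 0 := pow_ne_zero _ (by exact_mod_cast NeZero.ne M)

theorem inversion (f : Tor d M → ℂ) (x : Tor d M) : f x = (∑ p, ec p x * ft f p) / (M : ℂ) ^ d := by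
  rw [eq_div_iff Mne]
  unfold ft
  have h1 : ∑ p, ec p x * ∑ y, (starRingEnd ℂ) (ec p y) * f y =
      ∑ y, f y * ∑ p, ec p (x - y) := by
    simp only [Finset.mul_sum]
    rw [Finset.sum_comm]
    refine Finset.sum_congr rfl fun y _ => Finset.sum_congr rfl fun p _ => ?_
    rw [ec_sub]; ring
  rw [h1]
  simp only [sum_ec_right]
  rw [Finset.sum_eq_single x]
  · simp
  · intro y _ hy
    rw [if_neg (sub_ne_zero.2 (Ne.symm hy)), mul_zero]
  · intro h
    exact absurd (Finset.mem_univ x) h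

theorem parseval2 (f g : Tor d M → ℂ) : ∑ x, (starRingEnd ℂ) (g x) * f x =
    (∑ p, (starRingEnd ℂ) (ft g p) * ft f p) / (M : ℂ) ^ d := by
  rw [eq_div_iff Mne, Finset.sum_mul]
  have h1 : ∀ x, (starRingEnd ℂ) (g x) * f x * (M : ℂ) ^ d =
      ∑ p, (starRingEnd ℂ) (g x) * (ec p x * ft f p) := by
    intro x
    have h := inversion f x
    rw [← Finset.mul_sum, mul_assoc]
    congr 1
    rw [h, div_mul_cancel₀ _ Mne]
  rw [Finset.sum_congr rfl fun x _ => h1 x, Finset.sum_comm]
  refine Finset.sum_congr rfl fun p _ => ?_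
  unfold ft
  rw [map_sum, Finset.sum_mul]
  refine Finset.sum_congr rfl fun x _ => ?_
  rw [map_mul, Complex.conj_conj]
  ring

theorem parseval1 (f : Tor d M → ℂ) : ∑ x, ‖f x‖ ^ 2 = pm fun p => ‖ft f p‖ ^ 2 := by
  have h := parseval2 f f
  have h1 : ∀ z : ℂ, (starRingEnd ℂ) z * z = ((‖z‖ ^ 2 : ℝ) : ℂ) := by
    intro z
    rw [mul_comm, Complex.mul_conj, Complex.normSq_eq_norm_sq]
  simp only [h1] at h
  unfold pm
  have h2 : ((∑ x, ‖f x‖ ^ 2 : ℝ) : ℂ) = (((∑ p, ‖ft f p‖ ^ 2) / (M : ℝ) ^ d : ℝ) : ℂ) := by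
    push_cast
    push_cast at h
    exact h
  exact_mod_cast h2

theorem surj (F : Tor d M → ℂ) : ∃ f : Tor d M → ℂ, ∀ p, ft f p = F p := by
  refine ⟨fun x => (∑ p, ec p x * F p) / (M : ℂ) ^ d, fun q => ?_⟩
  unfold ft
  have h1 : ∑ y, (starRingEnd ℂ) (ec q y) * ((∑ p, ec p y * F p) / (M : ℂ) ^ d) =
      (∑ p, F p * ∑ y, ec (p - q) y) / (M : ℂ) ^ d := by
    rw [Finset.sum_div]
    simp only [Finset.mul_sum, Finset.sum_div]
    rw [Finset.sum_comm]
    refine Finset.sum_congr rfl fun p _ => Finset.sum_congr rfl fun y _ => ?_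
    rw [sub_eq_add_neg, ec_add_left, ec_neg_left]; ring
  rw [h1]
  simp only [sum_ec]
  rw [Finset.sum_eq_single q]
  · rw [sub_self, if_pos rfl, mul_div_assoc, div_self Mne, mul_one]
  · intro p _ hp
    rw [if_neg (sub_ne_zero.2 hp), mul_zero]
  · intro h
    exact absurd (Finset.mem_univ q) h

theorem ft_shift (f : Tor d M → ℂ) (e p : Tor d M) :
    ft (fun x => f (x + e)) p = ec p e * ft f p := by
  unfold ft
  have h := Equiv.sum_comp (Equiv.addRight e) (fun y => (starRingEnd ℂ) (ec p (y - e)) * f y)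
  simp only [Equiv.coe_addRight, add_sub_cancel_right] at h
  rw [h, Finset.mul_sum]
  refine Finset.sum_congr rfl fun y _ => ?_
  rw [ec_sub, map_mul, Complex.conj_conj]; ring

theorem ft_shift' (f : Tor d M → ℂ) (e p : Tor d M) :
    ft (fun x => f (x - e)) p = (starRingEnd ℂ) (ec p e) * ft f p := by
  have := ft_shift f (-e) p
  simp only [← sub_eq_add_neg] at this
  rw [this, ec_neg]

theorem ft_add (f g : Tor d M → ℂ) (p : Tor d M) :
    ft (fun x => f x + g x) p = ft f p + ft g p := by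
  unfold ft
  simp only [mul_add, Finset.sum_add_distrib]

theorem ft_sub (f g : Tor d M → ℂ) (p : Tor d M) :
    ft (fun x => f x - g x) p = ft f p - ft g p := by
  unfold ft
  simp only [mul_sub, Finset.sum_sub_distrib]

theorem ft_smul (c : ℂ) (f : Tor d M → ℂ) (p : Tor d M) :
    ft (fun x => c * f x) p = c * ft f p := by
  unfold ft
  rw [Finset.mul_sum]
  exact Finset.sum_congr rfl fun x _ => by ring

theorem ft_sum {ι : Type*} (s : Finset ι) (f : ι → Tor d M → ℂ) (p : Tor d M) :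
    ft (fun x => ∑ i ∈ s, f i x) p = ∑ i ∈ s, ft (f i) p := by
  unfold ft
  simp only [Finset.mul_sum]
  rw [Finset.sum_comm]

/-- the real part of the character at the unit vector -/
theorem ec_ev (p : Tor d M) (i : Fin d) : ec p (ev i) = ZMod.stdAddChar (p i) := by
  unfold ec ev
  rw [Finset.prod_eq_single i]
  · simp
  · intro j _ hj
    rw [Pi.single_eq_of_ne hj, mul_zero, AddChar.map_zero_eq_one]
  · intro h
    exact absurd (Finset.mem_univ i) h

theorem std_re (a : ZMod M) :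
    (ZMod.stdAddChar a : ℂ).re = Real.cos (2 * Real.pi * (a.valMinAbs : ℝ) / M) := by
  have h1 : (ZMod.stdAddChar a : ℂ) = ZMod.stdAddChar ((a.valMinAbs : ℤ) : ZMod M) := by
    rw [ZMod.coe_valMinAbs]
  rw [h1, ZMod.stdAddChar_coe]
  have h2 : 2 * (Real.pi : ℂ) * Complex.I * (a.valMinAbs : ℂ) / M =
      ((2 * Real.pi * (a.valMinAbs : ℝ) / M : ℝ) : ℂ) * Complex.I := by
    push_cast; ring
  rw [h2, Complex.exp_ofReal_mul_I_re]

theorem ds_eq (p : Tor d M) : (ds p : ℂ) =
    ∑ i, (2 - ec p (ev i) - (starRingEnd ℂ) (ec p (ev i))) := by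
  unfold ds
  push_cast
  refine Finset.sum_congr rfl fun i _ => ?_
  have h1 : ec p (ev i) + (starRingEnd ℂ) (ec p (ev i)) =
      ((2 * Real.cos (2 * Real.pi * ((p i).valMinAbs : ℝ) / M) : ℝ) : ℂ) := by
    rw [Complex.add_conj, ec_ev, std_re]
  push_cast at h1
  linear_combination h1

theorem ft_lap (f : Tor d M → ℂ) (p : Tor d M) :
    ft (fun x => ∑ i : Fin d, (2 * f x - f (x + ev i) - f (x - ev i))) p =
      (ds p : ℂ) * ft f p := by
  rw [ft_sum Finset.univ (fun (i : Fin d) x => 2 * f x - f (x + ev i) - f (x - ev i)), ds_eq,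
    Finset.sum_mul]
  refine Finset.sum_congr rfl fun i _ => ?_
  rw [ft_sub, ft_sub, ft_smul, ft_shift, ft_shift']
  ring

theorem pm_add (F G : Tor d M → ℝ) : pm (fun p => F p + G p) = pm F + pm G := by
  unfold pm
  rw [Finset.sum_add_distrib, add_div]

theorem energy_eq (f : Tor d M → ℂ) : ∑ x, ∑ i : Fin d, ‖f (x + ev i) - f x‖ ^ 2 =
    pm fun p => ds p * ‖ft f p‖ ^ 2 := by
  rw [Finset.sum_comm]
  have h1 : ∀ i : Fin d, ∑ x, ‖f (x + ev i) - f x‖ ^ 2 =
      pm fun p => 2 * (1 - Real.cos (2 * Real.pi * ((p i).valMinAbs : ℝ) / M)) *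
        ‖ft f p‖ ^ 2 := by
    intro i
    rw [parseval1 (fun x => f (x + ev i) - f x)]
    unfold pm
    congr 1
    refine Finset.sum_congr rfl fun p _ => ?_
    beta_reduce
    rw [ft_sub (fun x => f (x + ev i)) f, ft_shift]
    have h2 : ec p (ev i) * ft f p - ft f p = (ec p (ev i) - 1) * ft f p := by ring
    rw [h2, norm_mul, mul_pow]
    congr 1
    rw [← Complex.normSq_eq_norm_sq, Complex.normSq_apply]
    have h3 : (ec p (ev i)).re ^ 2 + (ec p (ev i)).im ^ 2 = 1 := by
      have := ec_norm p (ev i)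
      rw [← sq_eq_sq₀ (norm_nonneg _) zero_le_one, ← Complex.normSq_eq_norm_sq,
        Complex.normSq_apply] at this
      nlinarith
    have h4 : (ec p (ev i)).re = Real.cos (2 * Real.pi * ((p i).valMinAbs : ℝ) / M) := by
      rw [ec_ev, std_re]
    rw [← h4]
    simp only [Complex.sub_re, Complex.sub_im, Complex.one_re, Complex.one_im]
    nlinarith
  simp only [h1]
  unfold pm ds
  rw [← Finset.sum_div, Finset.sum_comm]
  congr 1
  refine Finset.sum_congr rfl fun p _ => ?_
  beta_reduce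
  rw [Finset.sum_mul]

theorem low_neg (J : ℕ) (p : Tor d M) : -p ∈ low d M J ↔ p ∈ low d M J := by
  unfold low
  simp only [Finset.mem_filter, Finset.mem_univ, true_and, Pi.neg_apply,
    ZMod.natAbs_valMinAbs_neg]

theorem dk_eq (J : ℕ) (y : Tor d M) : (dk J y : ℂ) = (∑ p ∈ low d M J, ec p y) / (M : ℂ) ^ d := by
  unfold dk
  push_cast
  congr 1
  have h1 : ∑ p ∈ low d M J, ec p y = ∑ p ∈ low d M J, (starRingEnd ℂ) (ec p y) := by
    refine Finset.sum_bij' (fun p _ => -p) (fun p _ => -p) ?_ ?_ ?_ ?_ ?_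
    · intro p hp
      exact (low_neg J p).2 hp
    · intro p hp
      exact (low_neg J p).2 hp
    · intro p _
      exact neg_neg p
    · intro p _
      exact neg_neg p
    · intro p _
      rw [← ec_neg_left, neg_neg]
  have h2 : ∀ z : ℂ, (z.re : ℂ) = (z + (starRingEnd ℂ) z) / 2 := by
    intro z
    rw [Complex.add_conj]
    push_cast
    ring
  simp only [h2]
  rw [← Finset.sum_div, Finset.sum_add_distrib, ← h1]
  ring

theorem ft_lpf (J : ℕ) (f : Tor d M → ℝ) (p : Tor d M) :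
    ft (fun x => (lpf J f x : ℂ)) p =
      if p ∈ low d M J then ft (fun x => (f x : ℂ)) p else 0 := by
  have h1 : ∀ x, ((lpf J f x : ℝ) : ℂ) =
      (∑ q ∈ low d M J, ec q x * ft (fun x => (f x : ℂ)) q) / (M : ℂ) ^ d := by
    intro x
    unfold lpf ft
    push_cast
    simp only [dk_eq, Finset.mul_sum]
    rw [Finset.sum_comm, Finset.sum_div]
    refine Finset.sum_congr rfl fun y _ => ?_
    rw [div_mul_eq_mul_div, Finset.sum_mul]
    congr 1
    refine Finset.sum_congr rfl fun q _ => ?_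
    rw [ec_sub]; ring
  simp only [h1]
  obtain ⟨g, hg⟩ := surj (fun q => if q ∈ low d M J then ft (fun x => (f x : ℂ)) q else 0)
  have h2 : ∀ x, g x = (∑ q ∈ low d M J, ec q x * ft (fun x => (f x : ℂ)) q) / (M : ℂ) ^ d := by
    intro x
    rw [inversion g x]
    congr 1
    simp only [hg, mul_ite, mul_zero]
    rw [Finset.sum_ite_mem, Finset.univ_inter]
  rw [← hg p]
  congr 1
  funext x
  exact (h2 x).symm

theorem ds_nonneg (p : Tor d M) : 0 ≤ ds p := by
  unfold ds
  exact Finset.sum_nonneg fun i _ => by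
    have := Real.cos_le_one (2 * Real.pi * ((p i).valMinAbs : ℝ) / M)
    linarith

/-- the free matrix is positive definite -/
theorem AM0_posDef {h : ℝ} (hh : 0 < h) : (AM (2 * d + h) (0 : Tor d M → ℝ)).PosDef := by
  refine AM_posDef_of_super (g := fun _ => 1) (fun _ => one_pos) fun x => ?_
  rw [AM_mulVec]
  simp only [Pi.zero_apply, sub_zero, mul_one, Finset.sum_const, Finset.card_univ,
    Fintype.card_fin, nsmul_eq_mul]
  linarith

theorem gv_eq {h : ℝ} (hh : 0 < h) (V : Tor d M → ℝ) (x : Tor d M) :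
    (2 * d + h) * gv h V x - ∑ i : Fin d, (gv h V (x + ev i) + gv h V (x - ev i)) = V x := by
  have h1 := mulVec_inv (AM0_posDef (d := d) (M := M) hh) V
  have h2 : (AM (2 * d + h) (0 : Tor d M → ℝ))⁻¹.mulVec V = gv h V := by
    funext y
    rfl
  rw [h2] at h1
  have h3 := congrFun h1 x
  rw [AM_mulVec] at h3
  simpa using h3

theorem ft_gv (h : ℝ) (V : Tor d M → ℝ) (p : Tor d M) (hh : 0 < h) :
    ft (fun x => (gv h V x : ℂ)) p = ft (fun x => (V x : ℂ)) p / ((ds p + h : ℝ) : ℂ) := by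
  have hne : ((ds p + h : ℝ) : ℂ) ≠ 0 := by
    have := ds_nonneg p
    exact_mod_cast (by linarith : ds p + h ≠ 0) |> fun h => h
  rw [eq_div_iff hne]
  have h1 := ft_lap (fun x => (gv h V x : ℂ)) p
  have h2 : ft (fun x => (∑ i : Fin d, (2 * (gv h V x : ℂ) - gv h V (x + ev i) -
      gv h V (x - ev i))) + (h : ℂ) * gv h V x) p = ft (fun x => (V x : ℂ)) p := by
    congr 1
    funext x
    have h3 := gv_eq hh V x
    have h4 : (∑ i : Fin d, (2 * (gv h V x : ℂ) - gv h V (x + ev i) -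
        gv h V (x - ev i))) = 2 * d * (gv h V x : ℂ) -
          ∑ i : Fin d, ((gv h V (x + ev i) : ℂ) + gv h V (x - ev i)) := by
      simp only [sub_sub]
      rw [Finset.sum_sub_distrib]
      simp only [Finset.sum_const, Finset.card_univ, Fintype.card_fin, nsmul_eq_mul]
      ring
    rw [h4, ← h3]
    push_cast
    ring
  rw [ft_add, ft_smul, h1] at h2
  rw [← h2]
  push_cast
  ring

theorem ftb : FtbStmt := by
  intro d M _
  exact ⟨ec_norm, ec_add, ec_add_left, fun p y => ⟨ec_neg_left p y, ec_neg p y⟩, parseval2,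
    parseval1, inversion, surj, ft_lap, energy_eq, ft_lpf, ft_gv⟩

end Pool.Agent.LE.IR.H54
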