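import Pool.Agent.LE.StmtsJ
import Pool.Agent.Helper54_BED.Flat
import Pool.Agent.Helper15_BED.Sum

/-!
# CPE, part a: numbers
-/

set_option autoImplicit false

open MeasureTheory ProbabilityTheory Function Filter

open scoped ENNReal BigOperators Topology NNReal

noncomputable section

namespace Pool.Agent.LE.IR.H54

open Pool.Agent.Anderson hiding box mem_box card_box
open Pool.Agent.Loc Pool.Agent.Mob Pool.Agent.Helper54.Bal
  Pool.Agent.Helper96.EXP Pool.Agent.BED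
open Pool.Agent.LE.MN Pool.Agent.LE.CL

/-- the power `lam^{(d-4)/2}` -/
theorem pw_le {d : ℕ} {t lam : ℝ} (hd : 3 ≤ d) (ht : 100 ≤ t) (h1 : 50 / t ≤ lam)
    (h2 : lam ≤ 100 / t) : lam ^ (((d : ℝ) - 4) / 2) ≤ growth d t := by
  have ht0 : 0 < t := by linarith
  have hl0 : 0 < lam := lt_of_lt_of_le (by positivity) h1
  have hl1 : lam ≤ 1 := h2.trans (by rw [div_le_one ht0]; exact ht)
  by_cases h4 : 4 ≤ d
  · have h4' : (4 : ℝ) ≤ d := by exact_mod_cast h4
    exact (Real.rpow_le_one hl0.le hl1 (by linarith)).trans (one_le_growth d (by linarith))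
  · have h3 : d = 3 := by omega
    subst h3
    have h5 : 1 / t ≤ lam := by
      refine le_trans ?_ h1
      gcongr
      norm_num
    have h6 : 1 / lam ≤ t := by
      rw [div_le_iff₀ hl0]
      rw [div_le_iff₀ ht0] at h5
      linarith
    unfold growth
    rw [if_pos rfl]
    have h7 : lam ^ ((((3 : ℕ) : ℝ) - 4) / 2) = Real.sqrt (1 / lam) := by
      rw [Real.sqrt_eq_rpow, one_div, Real.inv_rpow hl0.le, ← Real.rpow_neg hl0.le]
      congr 1
      norm_num
    rw [h7]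
    exact Real.sqrt_le_sqrt h6

theorem pw_mul {d : ℕ} {lam : ℝ} (h : 0 < lam) :
    lam ^ (((d : ℝ) - 2) / 2) = lam ^ (((d : ℝ) - 4) / 2) * lam := by
  nth_rw 3 [← Real.rpow_one lam]
  rw [← Real.rpow_add h]
  congr 1
  ring

theorem pw_mul2 {d : ℕ} {lam : ℝ} (h : 0 < lam) :
    lam ^ ((d : ℝ) / 2) = lam ^ (((d : ℝ) - 4) / 2) * lam ^ 2 := by
  rw [← Real.rpow_natCast, ← Real.rpow_add h]
  congr 1
  push_cast
  ring

/-- small number of steps -/
theorem exists_ns {c lam : ℝ} (hc : 0 < c) (hc1 : c ≤ 1) (hl : 0 < lam)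
    (hl2 : lam ≤ c ^ 2 / 4) :
    ∃ n : ℕ, 1 ≤ n ∧ (n : ℝ) ≤ 1 / lam ∧ lam * (n * (1 + Real.log n)) ≤ c ∧
      1 / (n : ℝ) ≤ 2 / c * lam * (1 + Real.log (1 / lam)) := by
  have hl1 : lam ≤ 1 := by nlinarith
  have hL0 : 0 ≤ Real.log (1 / lam) := Real.log_nonneg (by rw [le_div_iff₀ hl]; linarith)
  set D : ℝ := 1 + Real.log (1 / lam) with hD
  have hD1 : 1 ≤ D := by linarith
  have hs0 : 0 < Real.sqrt lam := Real.sqrt_pos.2 hl
  have hss : Real.sqrt lam * Real.sqrt lam = lam := Real.mul_self_sqrt hl.le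
  have hsc : Real.sqrt lam ≤ c / 2 := by
    rw [Real.sqrt_le_left (by positivity)]
    calc lam ≤ c ^ 2 / 4 := hl2
      _ = (c / 2) ^ 2 := by ring
  have h1 : Real.log (1 / lam) ≤ 2 * (1 / Real.sqrt lam - 1) := by
    have h2 : (1 / lam : ℝ) = (1 / Real.sqrt lam) ^ 2 := by
      rw [div_pow, one_pow, sq, hss]
    rw [h2, Real.log_pow]
    have h3 := Real.log_le_sub_one_of_pos (show 0 < 1 / Real.sqrt lam by positivity)
    push_cast
    linarith
  have h2 : lam * D ≤ c := by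
    have h3 : lam * D ≤ lam * (2 * (1 / Real.sqrt lam)) := by
      refine mul_le_mul_of_nonneg_left ?_ hl.le
      linarith
    refine h3.trans ?_
    have h4 : lam * (2 * (1 / Real.sqrt lam)) = 2 * Real.sqrt lam := by
      have : lam * (2 * (1 / Real.sqrt lam)) = 2 * (lam / Real.sqrt lam) := by ring
      rw [this]
      congr 1
      rw [div_eq_iff hs0.ne', hss]
    rw [h4]
    linarith
  set x : ℝ := c / (lam * D) with hx
  have hlD : 0 < lam * D := by positivity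
  have hx1 : 1 ≤ x := by
    rw [hx, le_div_iff₀ hlD]
    linarith
  have hf1 : (⌊x⌋₊ : ℝ) ≤ x := Nat.floor_le (by linarith)
  have hf2 : x / 2 ≤ (⌊x⌋₊ : ℝ) := by
    have h3 : x < ⌊x⌋₊ + 1 := Nat.lt_floor_add_one _
    have h4 : 1 ≤ ⌊x⌋₊ := by
      rw [Nat.one_le_floor_iff]
      exact hx1
    have h5 : (1 : ℝ) ≤ (⌊x⌋₊ : ℝ) := by exact_mod_cast h4
    linarith
  have hn1 : 1 ≤ ⌊x⌋₊ := by
    rw [Nat.one_le_floor_iff]
    exact hx1
  have hn1' : (1 : ℝ) ≤ (⌊x⌋₊ : ℝ) := by exact_mod_cast hn1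
  have hxl : x ≤ 1 / lam := by
    rw [hx, div_le_div_iff₀ hlD hl]
    nlinarith
  refine ⟨⌊x⌋₊, hn1, hf1.trans hxl, ?_, ?_⟩
  · have h3 : Real.log (⌊x⌋₊ : ℝ) ≤ Real.log (1 / lam) :=
      Real.log_le_log (by linarith) (hf1.trans hxl)
    calc lam * ((⌊x⌋₊ : ℝ) * (1 + Real.log (⌊x⌋₊ : ℝ))) ≤ lam * (x * D) := by
          gcongr
          linarith
      _ = c := by
          rw [hx]
          field_simp
  · have h3 : 1 / (⌊x⌋₊ : ℝ) ≤ 1 / (x / 2) := by
      gcongr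
    refine h3.trans (le_of_eq ?_)
    rw [hx]
    field_simp

/-- the lowest momenta -/
theorem card_low_le (d M J : ℕ) [NeZero M] : (low d M J).card ≤ (2 * J + 1) ^ d := by
  classical
  set S : Finset (ZMod M) := Finset.univ.filter fun a => a.valMinAbs.natAbs ≤ J with hS
  have h1 : low d M J = Fintype.piFinset fun _ : Fin d => S := by
    ext p
    simp [low, hS]
  have h2 : S.card ≤ 2 * J + 1 := by
    have h3 : S ⊆ (Finset.Icc (-(J : ℤ)) J).image fun n : ℤ => (n : ZMod M) := by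
      intro a ha
      rw [hS, Finset.mem_filter] at ha
      rw [Finset.mem_image]
      refine ⟨a.valMinAbs, ?_, ZMod.coe_valMinAbs a⟩
      rw [Finset.mem_Icc]
      have := ha.2
      omega
    refine (Finset.card_le_card h3).trans (Finset.card_image_le.trans (le_of_eq ?_))
    rw [Int.card_Icc]
    omega
  rw [h1, Fintype.card_piFinset, Finset.prod_const, Finset.card_univ, Fintype.card_fin]
  exact Nat.pow_le_pow_left h2 d

theorem ds_low {d M J : ℕ} [NeZero M] {lam : ℝ} (hJ : (J : ℝ) ^ 2 ≤ lam * (M : ℝ) ^ 2)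
    {p : Tor d M} (hp : p ∈ low d M J) : ds p ≤ 40 * d * lam := by
  have hM0 : 0 < (M : ℝ) := by exact_mod_cast Nat.pos_of_ne_zero (NeZero.ne M)
  have h1 : ∀ i : Fin d, 2 * (1 - Real.cos (2 * Real.pi * ((p i).valMinAbs : ℝ) / M)) ≤
      40 * lam := by
    intro i
    have h2 : (p i).valMinAbs.natAbs ≤ J := by
      have := Finset.mem_filter.1 hp
      exact this.2 i
    have h3 : ((p i).valMinAbs : ℝ) ^ 2 ≤ (J : ℝ) ^ 2 := by
      have h4 : ((p i).valMinAbs.natAbs : ℝ) ≤ J := by exact_mod_cast h2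
      have h5 : (((p i).valMinAbs.natAbs : ℕ) : ℝ) = |((p i).valMinAbs : ℝ)| := by
        rw [Nat.cast_natAbs, Int.cast_abs]
      rw [h5] at h4
      rw [← sq_abs]
      gcongr
    have h6 := Real.one_sub_sq_div_two_le_cos (x := 2 * Real.pi * ((p i).valMinAbs : ℝ) / M)
    have h7 : (2 * Real.pi * ((p i).valMinAbs : ℝ) / M) ^ 2 =
        4 * Real.pi ^ 2 * (((p i).valMinAbs : ℝ) ^ 2 / (M : ℝ) ^ 2) := by
      field_simp
      ring
    have h8 : ((p i).valMinAbs : ℝ) ^ 2 / (M : ℝ) ^ 2 ≤ lam := by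
      rw [div_le_iff₀ (by positivity)]
      exact h3.trans hJ
    have hlam : 0 ≤ lam := le_trans (by positivity) h8
    have h9 : 4 * Real.pi ^ 2 ≤ 40 := by
      have := Real.pi_lt_d4
      have h0 := Real.pi_pos
      nlinarith
    have h10 : (2 * Real.pi * ((p i).valMinAbs : ℝ) / M) ^ 2 ≤ 40 * lam := by
      rw [h7]
      have h11 : (0 : ℝ) ≤ ((p i).valMinAbs : ℝ) ^ 2 / (M : ℝ) ^ 2 := by positivity
      calc 4 * Real.pi ^ 2 * (((p i).valMinAbs : ℝ) ^ 2 / (M : ℝ) ^ 2)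
          ≤ 40 * (((p i).valMinAbs : ℝ) ^ 2 / (M : ℝ) ^ 2) := by gcongr
        _ ≤ 40 * lam := by gcongr
    linarith
  unfold ds
  calc ∑ i, 2 * (1 - Real.cos (2 * Real.pi * ((p i).valMinAbs : ℝ) / M))
      ≤ ∑ _i : Fin d, 40 * lam := Finset.sum_le_sum fun i _ => h1 i
    _ = 40 * d * lam := by
        rw [Finset.sum_const, Finset.card_univ, Fintype.card_fin, nsmul_eq_mul]
        ring

theorem pm_low_le {d M J : ℕ} [NeZero M] {lam l η B : ℝ} (hη : 0 < η)
    (hJ : (J : ℝ) ^ 2 ≤ lam * (M : ℝ) ^ 2)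
    (h : pm (fun p : Tor d M => if ds p ≤ 40 * d * lam then (mt l η p)⁻¹ else 0) ≤ B) :
    pm (fun p : Tor d M => if p ∈ low d M J then (mt l η p)⁻¹ else 0) ≤ B := by
  refine le_trans ?_ h
  unfold pm
  refine div_le_div_of_nonneg_right (Finset.sum_le_sum fun p _ => ?_) (by positivity)
  have h0 : 0 ≤ (mt l η p)⁻¹ := by
    unfold mt
    positivity
  by_cases hp : p ∈ low d M J
  · rw [if_pos hp, if_pos (ds_low hJ hp)]
  · rw [if_neg hp]
    split_ifs <;> simp [h0]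

/-- the density of the lowest momenta -/
theorem dens_low {d M J : ℕ} [NeZero M] {lam : ℝ} (hl : 0 < lam)
    (hJ : (J : ℝ) ≤ Real.sqrt lam * M) (h1 : 1 ≤ Real.sqrt lam * M) :
    ((low d M (2 * J)).card : ℝ) / (M : ℝ) ^ d ≤
      5 ^ d * (lam ^ (((d : ℝ) - 4) / 2) * lam ^ 2) := by
  have hM0 : 0 < (M : ℝ) := by exact_mod_cast Nat.pos_of_ne_zero (NeZero.ne M)
  have h2 : ((low d M (2 * J)).card : ℝ) ≤ (5 * (Real.sqrt lam * M)) ^ d := by
    have h3 : ((low d M (2 * J)).card : ℝ) ≤ ((2 * (2 * J) + 1 : ℕ) : ℝ) ^ d := by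
      exact_mod_cast card_low_le d M (2 * J)
    refine h3.trans ?_
    gcongr
    push_cast
    linarith
  rw [div_le_iff₀ (by positivity)]
  refine h2.trans (le_of_eq ?_)
  rw [← pw_mul2 hl, mul_pow, mul_pow, Real.sqrt_eq_rpow, ← Real.rpow_natCast (lam ^ (1 / 2 : ℝ)),
    ← Real.rpow_mul hl.le]
  rw [show (1 / 2 : ℝ) * (d : ℝ) = (d : ℝ) / 2 by ring]
  ring

end Pool.Agent.LE.IR.H54
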