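import Pool.Agent.LE.StmtsJ
import Pool.Agent.Helper54_LIR.CPEa
import Pool.Agent.Helper86_LSC.EDP

/-!
# CPE, part b: the events
-/

set_option autoImplicit false

open MeasureTheory ProbabilityTheory Function Filter

open scoped ENNReal BigOperators Topology NNReal

noncomputable section

namespace Pool.Agent.LE.IR.H54

open Pool.Agent.Anderson hiding box mem_box card_box
open Pool.Agent.Loc Pool.Agent.Mob Pool.Agent.Helper54.Bal
  Pool.Agent.Helper96.EXP Pool.Agent.BED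
open Pool.Agent.LE.MN Pool.Agent.LE.CL

theorem law_le {d M : ℕ} [NeZero M] {σ : ℝ} (hσ : σ ≠ 0) {v : ℝ≥0} (hv : (v : ℝ) = σ ^ 2)
    (b : Site d) (P : (Tor d M → ℝ) → Prop) {q : ℝ≥0∞} (hP : gau d M v {V | ¬ P V} ≤ q) :
    PP d (gl σ) {V | ¬ P (fun x : Tor d M => V (b + rep x))} ≤ q := by
  set f : (Site d → ℝ) → (Tor d M → ℝ) := fun V x => V (b + rep x) with hf
  have hfm : Measurable f := measurable_pi_lambda _ fun x => measurable_pi_apply _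
  have h1 : {V : Site d → ℝ | ¬ P (fun x : Tor d M => V (b + rep x))} = f ⁻¹' {U | ¬ P U} := rfl
  rw [h1]
  refine (Measure.le_map_apply hfm.aemeasurable _).trans ?_
  have h4 := H73.lawT d M (Site d → ℝ) (PP d (gl σ)) (H86.xi σ b) (H86.measurable_xi σ b)
    (H86.map_xi hσ b) (H86.indep_xi b) σ v hv
  have h5 : (fun (V : Site d → ℝ) (x : Tor d M) => σ * H86.xi σ b (rep x) V) = f := by
    funext V x
    simp only [H86.xi, hf]
    field_simp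
  rw [h5] at h4
  rw [h4]
  exact hP

/-- three events on the torus -/
theorem gau3 {d M : ℕ} [NeZero M] {v : ℝ≥0} (P₁ P₂ P₃ : (Tor d M → ℝ) → Prop) {q₁ q₂ q₃ : ℝ}
    (h₁ : 0 ≤ q₁) (h₂ : 0 ≤ q₂) (h₃ : 0 ≤ q₃)
    (H₁ : gau d M v {V | ¬ P₁ V} ≤ ENNReal.ofReal q₁)
    (H₂ : gau d M v {V | ¬ P₂ V} ≤ ENNReal.ofReal q₂)
    (H₃ : gau d M v {V | ¬ P₃ V} ≤ ENNReal.ofReal q₃) :
    gau d M v {V | ¬ (P₁ V ∧ P₂ V ∧ P₃ V)} ≤ ENNReal.ofReal (q₁ + q₂ + q₃) := by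
  have hsub : {V | ¬ (P₁ V ∧ P₂ V ∧ P₃ V)} ⊆ ({V | ¬ P₁ V} ∪ {V | ¬ P₂ V}) ∪ {V | ¬ P₃ V} := by
    intro V hV
    by_contra hcon
    simp only [Set.mem_union, not_or, Set.mem_ofPred_eq, not_not] at hcon
    exact hV ⟨hcon.1.1, hcon.1.2, hcon.2⟩
  refine (measure_mono hsub).trans ((measure_union_le _ _).trans ?_)
  rw [ENNReal.ofReal_add (by positivity) h₃, ENNReal.ofReal_add h₁ h₂]
  exact add_le_add ((measure_union_le _ _).trans (add_le_add H₁ H₂)) H₃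

/-- the bad events -/
theorem badE {d M : ℕ} [NeZero M] {σ : ℝ} (hσ : σ ≠ 0) {v : ℝ≥0} (hv : (v : ℝ) = σ ^ 2)
    (E a q : ℝ) (N R : ℕ) (b : Site d)
    (P : (Tor d M → ℝ) → Prop) (hq : 0 ≤ q) (hP : gau d M v {V | ¬ P V} ≤ ENNReal.ofReal q) :
    PP d (gl σ) {V | ¬ ((RM V (box 0 N) E).det ≠ 0 ∧
      (∀ x ∈ box b (R + 1), ∀ y ∈ box b (R + 1), |gr V (box 0 N) E x y| ≤ Real.exp a) ∧
        P (fun x : Tor d M => V (b + rep x)))} ≤
      ENNReal.ofReal ((2 * R + 3 : ℝ) ^ (2 * d) * (6 * (1 / |σ|) / Real.exp a) + q) := by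
  have hν := bddDens_gl hσ
  have hs : 0 < |σ| := abs_pos.2 hσ
  have hP' := law_le hσ hv b P hP
  set S := box b (R + 1) with hS
  have hcard : (S.card : ℝ) = (2 * R + 3 : ℝ) ^ d := by
    rw [hS, card_box]
    push_cast
    ring_nf
  have hsub : {V : Site d → ℝ | ¬ ((RM V (box 0 N) E).det ≠ 0 ∧
      (∀ x ∈ S, ∀ y ∈ S, |gr V (box 0 N) E x y| ≤ Real.exp a) ∧
        P (fun x : Tor d M => V (b + rep x)))} ⊆
      {V | (RM V (box 0 N) E).det = 0} ∪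
        ((⋃ x ∈ S, ⋃ y ∈ S, {V | Real.exp a < |gr V (box 0 N) E x y|}) ∪
          {V | ¬ P (fun x : Tor d M => V (b + rep x))}) := by
    intro V hV
    by_contra hcon
    simp only [Set.mem_union, not_or, Set.mem_iUnion, Set.mem_ofPred_eq, not_exists, not_not,
      exists_prop] at hcon
    obtain ⟨h1, h3, h4⟩ := hcon
    apply hV
    exact ⟨h1, fun x hx y hy => not_lt.1 fun h => h3 x ⟨hx, y, hy, h⟩, h4⟩
  have p1 : PP d (gl σ) {V | (RM V (box 0 N) E).det = 0} = 0 := Pool.Agent.LE.H54.PP_det hν _ _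
  have p3 : PP d (gl σ) (⋃ x ∈ S, ⋃ y ∈ S, {V | Real.exp a < |gr V (box 0 N) E x y|}) ≤
      ENNReal.ofReal ((2 * R + 3 : ℝ) ^ (2 * d) * (6 * (1 / |σ|) / Real.exp a)) := by
    refine (measure_biUnion_finset_le _ _).trans ?_
    refine (Finset.sum_le_sum fun x _ => (measure_biUnion_finset_le _ _).trans
      (Finset.sum_le_sum fun y _ => Pool.Agent.LE.H54.PP_weak hν _ E x y (Real.exp_pos a))).trans
        (le_of_eq ?_)
    rw [Finset.sum_const, Finset.sum_const, nsmul_eq_mul, nsmul_eq_mul,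
      ← ENNReal.ofReal_natCast, ← ENNReal.ofReal_mul (Nat.cast_nonneg _),
      ← ENNReal.ofReal_mul (Nat.cast_nonneg _), hcard]
    congr 1
    ring
  refine (measure_mono hsub).trans ((measure_union_le _ _).trans ?_)
  rw [p1, zero_add]
  refine (measure_union_le _ _).trans ?_
  rw [ENNReal.ofReal_add (by positivity) hq]
  exact add_le_add p3 hP'

theorem exp_rpow {L a : ℝ} : Real.exp L ^ a = Real.exp (a * L) := by
  rw [← Real.exp_mul]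
  congr 1
  ring

/-- the application of `FloStmt` -/
theorem flo_app {d : ℕ} {C : ℝ} (hC : 1 ≤ C)
    (hflo : ∀ (M J : ℕ) [NeZero M] (v : ℝ≥0) (z μ ε p r q : ℝ),
    0 < μ → 0 < ε → ε ≤ 1 / 50 → 0 < v → 0 ≤ p → 0 < r → r ≤ ε →
    gau d M v {V | ¬ FlatE ε z μ V} ≤ ENNReal.ofReal p →
    q = p + 2 * (M : ℝ) ^ d *
      Real.exp (-(r ^ 2 / (C * v * ε ^ 2 * μ ^ 2 * ((low d M J).card / (M : ℝ) ^ d)))) →
    q ≤ 1 / 4 → 4 * v * μ ^ 2 < ε ^ 2 * (M : ℝ) ^ d →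
      ∃ w : ℝ, |w - 1| ≤ 3 * ε ∧
        gau d M v {V | ¬ ∀ x, |lpf J (fun y => om z μ V y - w - gv (1 / μ) V y) x| ≤ r} ≤
          ENNReal.ofReal q)
    (M J : ℕ) [NeZero M] (v : ℝ≥0) (z μ ε p L m K₀ A₀ : ℝ) (hμ : 0 < μ) (hε : 0 < ε)
    (hε1 : ε ≤ 1 / 50) (hv : 0 < v) (hp : 0 ≤ p) (hL : 0 < L) (hm : m = d * K₀ + A₀ + 2)
    (hM : (M : ℝ) ≤ 2 * Real.exp (K₀ * L)) (hL2 : (2 : ℝ) ^ (d + 3) ≤ Real.exp (2 * L))
    (hA : 5 ≤ Real.exp (A₀ * L)) (hm0 : 0 < m)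
    (hpA : p ≤ Real.exp (-(A₀ * L)))
    (hprob : gau d M v {V | ¬ FlatE ε z μ V} ≤ ENNReal.ofReal p)
    (hr : m * L * (C * v * μ ^ 2 * ((low d M J).card / (M : ℝ) ^ d)) ≤ 1)
    (hv2 : 4 * v * μ ^ 2 < ε ^ 2 * (M : ℝ) ^ d) :
      ∃ w r : ℝ, |w - 1| ≤ 3 * ε ∧ 0 ≤ r ∧
        r ^ 2 = m * L * (C * v * ε ^ 2 * μ ^ 2 * ((low d M J).card / (M : ℝ) ^ d)) ∧
        gau d M v {V | ¬ ∀ x, |lpf J (fun y => om z μ V y - w - gv (1 / μ) V y) x| ≤ r} ≤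
          ENNReal.ofReal (p + Real.exp (-(A₀ * L)) / 4) := by
  have hM0 : 0 < (M : ℝ) := by exact_mod_cast Nat.pos_of_ne_zero (NeZero.ne M)
  have hv' : 0 < (v : ℝ) := by exact_mod_cast hv
  have hcard : 0 < ((low d M J).card : ℝ) := by
    have h1 : (0 : Tor d M) ∈ low d M J := by
      simp [low]
    exact_mod_cast Finset.card_pos.2 ⟨0, h1⟩
  set D : ℝ := (low d M J).card / (M : ℝ) ^ d with hD
  have hD0 : 0 < D := by positivity
  set W : ℝ := C * v * ε ^ 2 * μ ^ 2 * D with hW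
  have hC0 : 0 < C := by linarith
  have hW0 : 0 < W := by positivity
  set r : ℝ := Real.sqrt (m * L * W) with hr'
  have hr2 : r ^ 2 = m * L * W := Real.sq_sqrt (by positivity)
  have hr0 : 0 < r := Real.sqrt_pos.2 (by positivity)
  have hrε : r ≤ ε := by
    rw [hr', Real.sqrt_le_left hε.le]
    calc m * L * W = (m * L * (C * v * μ ^ 2 * D)) * ε ^ 2 := by rw [hW]; ring
      _ ≤ 1 * ε ^ 2 := by gcongr
      _ = ε ^ 2 := one_mul _
  have hq : 2 * (M : ℝ) ^ d * Real.exp (-(r ^ 2 / W)) ≤ Real.exp (-(A₀ * L)) / 4 := by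
    have h1 : r ^ 2 / W = m * L := by
      rw [hr2]
      field_simp
    rw [h1]
    have h2 : (M : ℝ) ^ d ≤ 2 ^ d * Real.exp (d * (K₀ * L)) := by
      calc (M : ℝ) ^ d ≤ (2 * Real.exp (K₀ * L)) ^ d := by gcongr
        _ = 2 ^ d * Real.exp (d * (K₀ * L)) := by rw [mul_pow, ← Real.exp_nat_mul]
    have h3 : Real.exp (d * (K₀ * L)) * Real.exp (-(m * L)) =
        Real.exp (-(A₀ * L)) * Real.exp (-(2 * L)) := by
      rw [← Real.exp_add, ← Real.exp_add, hm]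
      congr 1
      ring
    have h4 : (2 : ℝ) ^ (d + 3) * Real.exp (-(2 * L)) ≤ 1 := by
      rw [Real.exp_neg]
      rw [mul_inv_le_iff₀ (Real.exp_pos _)]
      linarith
    calc 2 * (M : ℝ) ^ d * Real.exp (-(m * L))
        ≤ 2 * (2 ^ d * Real.exp (d * (K₀ * L))) * Real.exp (-(m * L)) := by gcongr
      _ = 2 * 2 ^ d * (Real.exp (d * (K₀ * L)) * Real.exp (-(m * L))) := by ring
      _ = (2 ^ (d + 3) * Real.exp (-(2 * L))) * Real.exp (-(A₀ * L)) / 4 := by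
          rw [h3]
          ring
      _ ≤ 1 * Real.exp (-(A₀ * L)) / 4 := by gcongr
      _ = Real.exp (-(A₀ * L)) / 4 := by ring
  have hA' : Real.exp (-(A₀ * L)) ≤ 1 / 5 := by
    rw [Real.exp_neg, ← one_div]
    gcongr
  obtain ⟨w, hw, hw2⟩ := hflo M J v z μ ε p r
    (p + 2 * (M : ℝ) ^ d * Real.exp (-(r ^ 2 / W))) hμ hε hε1 hv hp hr0 hrε hprob rfl
    (by linarith) hv2
  exact ⟨w, r, hw, hr0.le, hr2, hw2.trans (ENNReal.ofReal_le_ofReal (by linarith))⟩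

/-- the application of `KhlStmt` -/
theorem khl_num {d : ℕ} {M J k : ℕ} {L m K₀ A₀ X r : ℝ}
    (hm : m = d * K₀ + A₀ + 2) (hM : (M : ℝ) ≤ 2 * Real.exp (K₀ * L))
    (hL2 : (2 : ℝ) ^ (d + 4) * 3 ^ d ≤ Real.exp (2 * L)) (hr : r ^ 2 = 2 * (m * L))
    (hk : m * L ≤ k) (hX : 0 ≤ X) (hX1 : X ≤ Real.exp (-1)) (hJ : (J : ℝ) ≤ M)
    (hM1 : (1 : ℝ) ≤ M) :
    2 * (M : ℝ) ^ d * Real.exp (-(r ^ 2 / 2)) + (2 * (J : ℝ) + 1) ^ d * X ^ k ≤
      Real.exp (-(A₀ * L)) / 4 := by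
  have h0 : r ^ 2 / 2 = m * L := by
    rw [hr]
    ring
  rw [h0]
  have h2 : (M : ℝ) ^ d ≤ 2 ^ d * Real.exp (d * (K₀ * L)) := by
    calc (M : ℝ) ^ d ≤ (2 * Real.exp (K₀ * L)) ^ d := by gcongr
      _ = 2 ^ d * Real.exp (d * (K₀ * L)) := by rw [mul_pow, ← Real.exp_nat_mul]
  have h3 : Real.exp (d * (K₀ * L)) * Real.exp (-(m * L)) =
      Real.exp (-(A₀ * L)) * Real.exp (-(2 * L)) := by
    rw [← Real.exp_add, ← Real.exp_add, hm]
    congr 1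
    ring
  have h4 : (2 : ℝ) ^ (d + 4) * 3 ^ d * Real.exp (-(2 * L)) ≤ 1 := by
    rw [Real.exp_neg]
    rw [mul_inv_le_iff₀ (Real.exp_pos _)]
    linarith
  have h5 : X ^ k ≤ Real.exp (-(m * L)) := by
    calc X ^ k ≤ (Real.exp (-1)) ^ k := by gcongr
      _ = Real.exp (-(k : ℝ)) := by
          rw [← Real.exp_nat_mul]
          congr 1
          ring
      _ ≤ Real.exp (-(m * L)) := Real.exp_le_exp.2 (by linarith)
  have h6 : (2 * (J : ℝ) + 1) ^ d ≤ 3 ^ d * (M : ℝ) ^ d := by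
    rw [← mul_pow]
    gcongr
    linarith
  have h7 : (1 : ℝ) ≤ 3 ^ d := one_le_pow₀ (by norm_num)
  have h8 : 0 < Real.exp (-(m * L)) := Real.exp_pos _
  have h9 : (0 : ℝ) ≤ (M : ℝ) ^ d := by positivity
  calc 2 * (M : ℝ) ^ d * Real.exp (-(m * L)) + (2 * (J : ℝ) + 1) ^ d * X ^ k
      ≤ 2 * (M : ℝ) ^ d * Real.exp (-(m * L)) + (3 ^ d * (M : ℝ) ^ d) * Real.exp (-(m * L)) := by
        gcongr
    _ ≤ 4 * 3 ^ d * (M : ℝ) ^ d * Real.exp (-(m * L)) := by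
        have h10 : 0 ≤ (M : ℝ) ^ d * Real.exp (-(m * L)) := by positivity
        nlinarith
    _ ≤ 4 * 3 ^ d * (2 ^ d * Real.exp (d * (K₀ * L))) * Real.exp (-(m * L)) := by gcongr
    _ = 4 * 3 ^ d * 2 ^ d * (Real.exp (d * (K₀ * L)) * Real.exp (-(m * L))) := by ring
    _ = (2 ^ (d + 4) * 3 ^ d * Real.exp (-(2 * L))) * Real.exp (-(A₀ * L)) / 4 := by
        rw [h3]
        ring
    _ ≤ 1 * Real.exp (-(A₀ * L)) / 4 := by gcongr
    _ = Real.exp (-(A₀ * L)) / 4 := by ring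

end Pool.Agent.LE.IR.H54
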