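import Pool.Agent.Helper54_LIR.CPEg

/-!
# CPE: the probability of the clusters between the effective band edge and the bulk
-/

set_option autoImplicit false

open MeasureTheory ProbabilityTheory Function Filter

open scoped ENNReal BigOperators Topology NNReal

noncomputable section

namespace Pool.Agent.LE.IR.H54

open Pool.Agent.Anderson hiding box mem_box card_box
open Pool.Agent.Loc Pool.Agent.Mob Pool.Agent.Helper54.Bal
  Pool.Agent.Helper96.EXP Pool.Agent.BED
open Pool.Agent.LE.MN Pool.Agent.LE.CL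

/-- CPE -/
theorem cpe (flo : FloStmt) (khl : KhlStmt) (ffb : FfbStmt) (sms : SmsStmt) (tse : TseStmt)
    (cle : CleStmt) : CpeStmt := by
  intro d hd
  have hd1 : 1 ≤ d := by omega
  have hd' : (3 : ℝ) ≤ d := by exact_mod_cast hd
  obtain ⟨CF, hCF, hflo⟩ := flo d hd1
  obtain ⟨CK, hCK, hkhl⟩ := khl d hd1
  obtain ⟨CB, hCB, hffb⟩ := ffb d hd1
  obtain ⟨CS, hCS, hsms⟩ := sms d hd
  obtain ⟨AT, cT, CT, k, hAT, hcT, hCT, htse⟩ := tse d hd
  obtain ⟨c₁, cE, c₂, CE, hc₁, hc₁1, hcE, hcE1, hc₂, hCE, hcle⟩ := cle d AT hd hAT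
  have hk0 : (0 : ℝ) ≤ k := Nat.cast_nonneg k
  have hK₀60 : 60 + 8 * (k : ℝ) ≤ 8 * k + 20 * d := by linarith
  obtain ⟨K₀, hK₀⟩ : ∃ K₀ : ℝ, K₀ = 8 * k + 20 * d := ⟨_, rfl⟩
  rw [← hK₀] at hK₀60
  refine ⟨K₀, by linarith, fun A₀ Kε hA₀ hKε => ?_⟩
  have hcE1' : cE ≤ 1 := by linarith
  obtain ⟨m, ct, Q, K₃, a₀, C₁, c₃, K, hcst⟩ := exists_cst (A₀ := A₀) (Kε := Kε) (K₀ := K₀) hd'
    hCF hCK hCB hCS hAT hcT hCT hc₁ hcE hcE1' hc₂ hCE hA₀ hKε (by linarith)
  refine ⟨1 / 4, K, by norm_num, le_rfl, by linarith [hcst.hK100], ?_⟩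
  intro M' v σ t z μ ε₀ p lam L hσ hσc hv ht hL hz hμ1 hμ2 hl1 hl2 hε₀ hε₀2 hstar hM1 hM2 hflat
    hp hpA
  have hn := numB hcst hd (by linarith) hcE hcT hσ hσc ht hL hμ1 hμ2 hl1 hl2 hε₀2 hstar hM1 hM2
    hp hpA
  obtain ⟨G, hG⟩ : ∃ G : ℝ, G = growth d t := ⟨_, rfl⟩
  obtain ⟨P, hP⟩ : ∃ P : ℝ, P = lam ^ (((d : ℝ) - 4) / 2) := ⟨_, rfl⟩
  rw [← hG, ← hP] at hn
  clear hstar hM1 hM2 hpA hε₀2 hL hμ1 hμ2 hl1 hl2 ht
  have hL1 := hn.hL1
  have hL0 : 0 < L := by linarith only [hL1]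
  have hG1 := hn.hG1
  have hG0 : 0 < G := by linarith only [hG1]
  have hX0 := hn.hX0
  have hK100 := hcst.hK100
  have hK0 : 0 ≤ K := by linarith only [hK100]
  have hl0 := hn.hl0
  have hlam1 := hn.hlam1
  have hμ0 := hn.hμ0
  have hμl2 := hn.hμl2
  have hKe := hn.hKe
  have hM0 := hn.hM0
  have ht0 : 0 < t := by linarith only [hn.ht100]
  have hσ2 : 0 < σ ^ 2 := by positivity
  have hne : NeZero M' := ⟨by
    rintro rfl
    norm_num at hM0⟩
  have k11 := hcst.k11
  have heL : 576 ≤ Real.exp L := by linarith only [k11, hKe, hCE, hCS]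
  have hex : ∀ {a : ℝ}, a ≤ 60 → Real.exp (a * L) ≤ M' := fun ha =>
    le_trans (Real.exp_le_exp.2 (by gcongr)) hn.hMe
  have he3 : Real.exp (3 * L) = Real.exp L * Real.exp (2 * L) := by
    rw [← Real.exp_add]
    congr 1
    ring
  have hct0 := hcst.hct0
  have hK₃1 := hcst.hK₃1
  have hK₃0 : 0 < K₃ := by linarith only [hK₃1]
  -- the flatness
  obtain ⟨ε, hε⟩ : ∃ ε : ℝ, ε = Real.sqrt (Kε * L * (σ ^ 2 * G)) := ⟨_, rfl⟩
  have hε2 : ε ^ 2 = Kε * L * (σ ^ 2 * G) := by
    rw [hε]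
    exact Real.sq_sqrt (by positivity)
  have hε0 : 0 < ε := by
    rw [hε]
    exact Real.sqrt_pos.2 (by positivity)
  have hεε : ε₀ ≤ ε := by
    refine le_of_sq_le_sq ?_ hε0.le
    rw [hε2]
    exact hn.hε₀2
  have hεcE : ε ≤ cE := by
    refine le_of_sq_le_sq ?_ hcE.le
    rw [hε2]
    have h1 := absorb (j := 1) hcst.k2 hX0.le hL1 (by omega) hK0 hn.hS1
    calc Kε * L * (σ ^ 2 * G) = (Kε / cE ^ 2 * (σ ^ 2 * G) * L ^ 1) * cE ^ 2 := by
          field_simp
      _ ≤ 1 * cE ^ 2 := by gcongr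
      _ = cE ^ 2 := one_mul _
  have hflat' : gau d M' v {V | ¬ FlatE ε z μ V} ≤ ENNReal.ofReal p := by
    refine le_trans (measure_mono ?_) (hflat hne)
    intro V hV hV2
    refine hV ⟨hV2.1, hV2.2.1, fun x => (hV2.2.2 x).trans ?_⟩
    gcongr
  -- the cut of the momenta
  obtain ⟨hsM, Js, hJs1, hJs2, hJs3, hJsM⟩ := exists_cut hn.ht100 hl0 hlam1 hn.hl1 hn.hte
    (hex (by norm_num)) hM0
  -- the resolution
  obtain ⟨η, hη⟩ : ∃ η : ℝ, η = K₃ * (σ ^ 2 * G) * lam * L ^ (d + 4) := ⟨_, rfl⟩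
  have hinv := inv_eta (η := η) hη hσ (by linarith only [hn.ht100]) hn.hexp hn.hl1 hL1 hG1 hK₃1
  obtain ⟨hη0, hηcE, hηl2, hη1⟩ := eta_bounds hη hK₃0 hX0 hl0 hlam1 hL1 hcE hcE1' hcst.k4 hK0
    hn.hS1
  obtain ⟨hlogη, hlogη0⟩ := log_eta hη0 hη1 hinv
  have hlogη3 : 1 + Real.log (1 / η) ≤ 3 * L := by linarith only [hlogη, hL1]
  obtain ⟨τ, hτ⟩ : ∃ τ : ℝ, τ = Real.sqrt (ct / L ^ d) := ⟨_, rfl⟩
  have hτ2 : τ ^ 2 = ct / L ^ d := by
    rw [hτ]
    exact Real.sq_sqrt (by positivity)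
  have hτ0 : 0 < τ := by
    rw [hτ]
    exact Real.sqrt_pos.2 (by positivity)
  have hτ1 : τ ≤ 1 := by
    rw [hτ]
    refine Real.sqrt_le_one.2 ?_
    rw [div_le_one (by positivity)]
    exact hcst.hct1.trans (one_le_pow₀ hL1)
  have hCBε : CB * ε ≤ τ := by
    refine le_of_sq_le_sq ?_ hτ0.le
    rw [mul_pow, hε2, hτ2, le_div_iff₀ (by positivity)]
    have h1 := absorb (j := d + 1) hcst.k3 hX0.le hL1 (by omega) hK0 hn.hS1
    calc CB ^ 2 * (Kε * L * (σ ^ 2 * G)) * L ^ d =
          (CB ^ 2 * Kε / ct * (σ ^ 2 * G) * L ^ (d + 1)) * ct := by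
          field_simp
          ring
      _ ≤ 1 * ct := by gcongr
      _ = ct := one_mul _
  obtain ⟨w, r, hw, hr0, hr2, hev⟩ := ev_prob hcst hd hCF hCK hCS hCE hA₀ hKε hcE hcE1 hflo hkhl
    hsms hσ hv hn hP hJs1 hsM hJs3 hJsM hflat' hε0 hεcE hε2 hη hη0 hηl2 hη1 hinv hτ0 hτ2
  have hw10 : |w - 1| ≤ 1 / 10 := by linarith only [hw, hεcE, hcE1]
  obtain ⟨l, hl⟩ : ∃ l : ℝ, l = lam - 1 / (μ * w) := ⟨_, rfl⟩
  obtain ⟨hw1, hw2, hl_le, hl_ge⟩ := l_bounds hl0 hμ0 hn.hμl2 hw10 hl
  have hlpos : 0 < l := by linarith only [hl0, hl_ge]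
  specialize hev l hl
  -- the scales
  obtain ⟨R₁, J, R, hR, hR₁1, hJ1, hR1, hR₁l, hJu, hRu, h2J⟩ :=
    scales hd hcst.hC₁1 hL1 hη0 hη1 hinv (hcst.k9.trans hKe)
  have hR0 : (0 : ℝ) ≤ R := Nat.cast_nonneg _
  have hR1' : (1 : ℝ) ≤ R := by exact_mod_cast hR1
  have hlogR : Real.log R ≤ 4 * L := by
    calc Real.log R ≤ Real.log (Real.exp (4 * L)) :=
          Real.log_le_log (by linarith only [hR1']) (by linarith only [hR1', hRu])
      _ = 4 * L := Real.log_exp _
  have hlogR0 : 0 ≤ Real.log R := Real.log_nonneg hR1'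
  -- the number of the steps
  obtain ⟨ns, hns1, hns2, hns3, hns4⟩ := exists_ns hcE hcE1' hl0 hn.hlcE
  have hns0 : (0 : ℝ) < ns := by exact_mod_cast hns1
  obtain ⟨hnst, hlogil, hlogns⟩ := log_ns hn.ht100 hl0 hn.hl1 hn.hlogt hns1 hns2
  have hns4' : 1 / (ns : ℝ) ≤ 2 / cE * lam * L := by
    refine hns4.trans ?_
    gcongr
  -- the number of the sites
  obtain ⟨n, hn1, hn2, hn3, hn4⟩ := c_n (d := d) (K₃ := K₃) (K := K) (X := σ ^ 2 * G)
    (lam := lam) (L := L) (η := η) (c₃ := c₃) (l := l) (e := Real.exp (2 * L)) hη hd1 hK₃1 hX0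
    hcst.hc₃0 hcst.hc₃1 hl0 hlam1 hl_ge hl_le hL1 hcst.k8
    (absorb (j := d + 4) hcst.k8 hX0.le hL1 (by omega) hK0 hn.hS1) hinv
    (Real.one_le_exp (by linarith only [hL0]))
  have ha₀0 := hcst.ha₀0
  have hc₃0 := hcst.hc₃0
  rw [hn.hexp]
  refine ⟨n, R + 2, J, 7 * CE * L, by nlinarith only [hCE, hL1], ?_, by omega, ?_, hJ1, ?_, hn1,
    ?_, ?_, ?_⟩
  · have := hcst.k15
    gcongr
  · rw [exp_rpow]
    push_cast
    calc (R : ℝ) + 2 ≤ 2 * R + 7 := by linarith only [hR0]
      _ ≤ Real.exp (4 * L) := hRu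
      _ ≤ Real.exp (K₀ * L) := by
        refine Real.exp_le_exp.2 ?_
        gcongr
        linarith only [hK₀60, hk0]
  · refine hJu.trans ?_
    have := hcst.k16
    gcongr
  · refine hn3.trans (le_of_eq ?_)
    rw [← Real.exp_nat_mul, ← Real.exp_nat_mul]
    congr 1
    push_cast
    ring
  · rw [← hG]
    refine le_trans (le_of_eq ?_) hn4
    congr 1
    ring
  · intro N b hbox
    have hA0 : 0 < Real.exp (-(A₀ * L)) := Real.exp_pos _
    have hb := badE hσ hv (z - lam) (a₀ * L) _ N R b _ (by positivity) hev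
    refine (measure_mono ?_).trans (hb.trans (ENNReal.ofReal_le_ofReal ?_))
    · intro V hV
      rw [Set.mem_ofPred_eq] at hV ⊢
      rintro ⟨g1, g2, g3, g4, g5⟩
      apply hV
      have hform : FBd (om z μ fun x : Tor d M' => V (b + rep x)) (1 / μ) lam w l η τ := by
        refine hffb M' Js _ (gv (1 / μ) fun x : Tor d M' => V (b + rep x)) w ε r (1 / μ) lam l η
          τ hε0 hCBε hτ1 hw ?_ (by positivity) ?_ hlam1 ?_ hJs2 hJs3 hη0 ?_ hr0 g4 g5 ?_ ?_
        · intro x
          have h1 := g3.2.2 x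
          unfold om
          rw [div_sub_one hμ0.ne', abs_div, abs_of_pos hμ0, div_le_iff₀ hμ0]
          exact h1
        · rw [mul_one_div, div_le_iff₀ hμ0]
          linarith only [hμl2]
        · rw [hl, div_div]
        · linarith only [hηl2, hl0]
        · rw [hε2, hτ2]
          exact c_f1 hη hX0.le hl0 hL1 hct0 hcst.r1 hK₃0.le
        · exact c_f2 hη hG0.le hl0 hL1 hct0 (by linarith only [hCB]) hr0 hτ0.le hτ2 hr2 hK₃1
            hcst.r2 hcst.hQ0.le
      have hc₁T : c₁ / η ≤ Real.exp (2 * L) := by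
        refine le_trans ?_ hinv
        gcongr
      have hq1 : CT ≤ c₁ / η * l := by
        -- `CT ≤ T l`
        have h1 := absorb (j := d + 4) hcst.k7 hX0.le hL1 (by omega) hK0 hn.hS1
        have h2 : CT * η ≤ c₁ * l := by
          calc CT * η = (2 * CT * K₃ / c₁ * (σ ^ 2 * G) * L ^ (d + 4)) * (c₁ * (lam / 2)) := by
                rw [hη]
                field_simp
            _ ≤ 1 * (c₁ * (lam / 2)) := by gcongr
            _ ≤ c₁ * l := by
                rw [one_mul]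
                gcongr
        calc CT = CT * η / η := by field_simp
          _ ≤ c₁ * l / η := by gcongr
          _ = c₁ / η * l := by ring
      have hq2 : CT * (c₁ / η * (((2 * R : ℕ) : ℝ) + 1)) ^ k ≤ M' := by
        have h1 : c₁ / η * (((2 * R : ℕ) : ℝ) + 1) ≤ Real.exp (6 * L) := by
          calc c₁ / η * (((2 * R : ℕ) : ℝ) + 1) ≤ Real.exp (2 * L) * Real.exp (4 * L) := by
                gcongr
                push_cast
                linarith only [hRu]
            _ = Real.exp (6 * L) := by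
                rw [← Real.exp_add]
                ring_nf
        have h0 : 0 ≤ c₁ / η * (((2 * R : ℕ) : ℝ) + 1) := by positivity
        have h2 := hcst.k10
        calc CT * (c₁ / η * (((2 * R : ℕ) : ℝ) + 1)) ^ k ≤ Real.exp L * (Real.exp (6 * L)) ^ k := by
              gcongr
              linarith only [h2, hKe]
          _ = Real.exp (L + k * (6 * L)) := by rw [← Real.exp_nat_mul, ← Real.exp_add]
          _ ≤ Real.exp (K₀ * L) := by
              refine Real.exp_le_exp.2 ?_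
              have h3 : L + k * (6 * L) = (1 + 6 * k) * L := by ring
              rw [h3]
              refine mul_le_mul_of_nonneg_right ?_ hL0.le
              linarith only [hK₀60, hk0]
          _ ≤ M' := hn.hM1
      obtain ⟨T', q, hT1, hT2, htst⟩ := htse M' (2 * R) l (c₁ / η) hlpos
        (hl_le.trans hn.hlcT) hq1 hq2
      · have hTpos : 0 < T' := lt_of_lt_of_le (by positivity) hT1
        have hcl := hcle M' ns N R R₁ J V b z μ ε lam w l η τ (7 * CE * L) (a₀ * L) T'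
          (AT / (Real.sqrt T' ^ (d + 1) * Real.sqrt l)) q hz hμ0 (by linarith only [hμl2]) hε0
          hεcE hw10 hl
          g3 hform hns1 ?_ hns3 hη0 hηcE ?_ ?_ ?_ hτ0.le ?_ ?_ hT1 hT2 ?_ htst ?_ hbox
          (by rw [hR]) h2J (by positivity) ?_ ?_ g1 g2
        · have h1 := c_size (d := d) (l := l) (η := η) (c₁ := c₁) (c₂ := c₂) (A := AT)
            (T := T') hlpos hη0 hc₁ hc₂ (by linarith only [hAT]) hT1 rfl
          have h2 : (n : ℝ) ≤ (rch V (box 0 N) (z - lam) (7 * CE * L) b R J).card := by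
            refine hn2.trans (le_trans ?_ (h1.trans hcl))
            have := hcst.hc₃2
            gcongr
          have h3 : n ≤ (rch V (box 0 N) (z - lam) (7 * CE * L) b R J).card := by
            exact_mod_cast h2
          exact h3.trans (Finset.card_le_card (rch_mono_rad (by omega) J))
        · have h1 : (ns : ℝ) + 1 ≤ (M' : ℝ) ^ 2 := by
            have h2 : Real.exp (2 * L) ≤ M' := hex (by norm_num)
            have h3 : (M' : ℝ) ≤ (M' : ℝ) ^ 2 := le_self_pow₀ hM0 (by norm_num)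
            have h4 : Real.exp L + 1 ≤ Real.exp (2 * L) := by
              rw [two_mul, Real.exp_add]
              nlinarith only [heL]
            linarith only [h2, h3, h4, hnst, hn.hte]
          exact_mod_cast h1
        · have h1 := absorb (j := d + 5) hcst.k4 hX0.le hL1 (by omega) hK0 hn.hS1
          calc η * (1 + Real.log (1 / η)) * ns ≤ η * (3 * L) * (1 / lam) := by gcongr
            _ = (3 * K₃ / cE * (σ ^ 2 * G) * L ^ (d + 5)) * cE := by
              rw [hη]
              field_simp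
              ring
            _ ≤ 1 * cE := by gcongr
            _ = cE := one_mul _
        · exact c_i hη hK₃0.le hX0.le hcE hl0 hl_ge hL0.le hns4'
            (absorb hcst.k5 hX0.le hL1 (by omega) hK0 hn.hS1)
        · refine c_j hη hd hK₃0.le hG0.le (by linarith only [hCE]) hl0 hl_ge hL1
            (by rw [hG]; exact growth_mono hns0 hnst) (by linarith only [hlogns, hL1]) ?_
          rw [← hP]
          refine le_trans ?_ hn.hstar
          have h1 : L ^ (d + 5) ≤ L ^ (2 * d + 10) := pow_le_pow_right₀ hL1 (by omega)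
          have h2 := hcst.k6
          gcongr
        · exact c_t hd hcE hcE1' hl0 hl_ge hL1 hns1 hns4' hlogη3 (by linarith only [hlogη0]) hτ2
            hcst.hct
        · calc CE / η = CE * (1 / η) := by ring
            _ ≤ Real.exp L * Real.exp (2 * L) := by
                gcongr
                linarith only [k11, hKe, hCS]
            _ = Real.exp (3 * L) := he3.symm
            _ ≤ M' := hex (by norm_num)
        · positivity
        · have h1 : (2 * R + 7 : ℝ) ≤ M' := hRu.trans (hex (by norm_num))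
          have h2 : ((2 * R + 5 : ℕ) : ℝ) ≤ (M' : ℝ) := by
            push_cast
            linarith only [h1]
          exact_mod_cast h2
        · refine le_trans ?_ hR₁l
          rw [hcst.hC₁]
          calc CE * (a₀ * L + Real.log (1 / η) + Real.log R) ≤
                CE * (a₀ * L + 2 * L + 4 * L) := by gcongr
            _ = CE * (a₀ + 6) * L := by ring
        · calc CE * (1 + Real.log (1 / η) + Real.log R) ≤ CE * (L + 2 * L + 4 * L) := by gcongr
            _ = 7 * CE * L := by ring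
    · have h2 := gr_prob (d := d) (R := R) (σ := σ) (A₀ := A₀) (L := L) (a₀ := a₀) hL1 hn.hse
        (by linarith only [heL]) hcst.ha₀ hRu
      have e1 : (|σ| / t) ^ A₀ = Real.exp (-(A₀ * L)) := by
        have e2 : |σ| / t = Real.exp (-L) := by
          rw [Real.exp_neg, ← hn.hexp, inv_div]
        rw [e2, exp_rpow]
        congr 1
        ring
      rw [e1]
      have hpA := hn.hpA
      linarith only [h2, hpA, hA0]

end Pool.Agent.LE.IR.H54
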