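import Pool.Agent.Helper54_LSC.All
import Pool.Agent.Helper54_LIR.FTB
import Pool.Agent.Helper54_LIR.CPE
import Pool.Agent.Helper64_LIR.NCK
import Pool.Agent.Helper49_LIR.KHL
import Pool.Agent.Helper49_LIR.FFB
import Pool.Agent.Helper62_LE.LFL
import Pool.Agent.Helper27_LIR.FLO
import Pool.Agent.Helper55_LIR.DST
import Pool.Agent.Helper95_LIR.SMS
import Pool.Agent.Helper95_LIR.CVB
import Pool.Agent.Helper19_LIR.HKE
import Pool.Agent.Helper76_LIR.FMO
import Pool.Agent.Helper6_LIR.SRC
import Pool.Agent.Helper24_LIR.HSE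
import Pool.Agent.Helper32_LIR.BLE
import Pool.Agent.Helper32_LIR.TSE
import Pool.Agent.Helper53_LIR.KBE
import Pool.Agent.Helper56_LIR.CLE
import Pool.Agent.Helper65_LSJ.FLQ
import Pool.Agent.Helper3_LIR.PIE
import Pool.Agent.Helper46_LIR.PAE

/-!
# The Lyapunov exponent between the effective band edge and the bulk: assembly
-/

set_option autoImplicit false

open MeasureTheory ProbabilityTheory

noncomputable section

namespace Pool.Agent.LE.IR.H54

open Pool.Agent.Anderson Pool.Agent.Loc Pool.Agent.Helper54.Bal Pool.Agent.Mob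
  Pool.Agent.BED Pool.Agent.LE.CL

theorem khlT : KhlStmt := H49.khl H64.nck

theorem floT : FloStmt := H27.flo H62.lfl

theorem ffbT : FfbStmt := H49.ffb ftb

theorem smsT : SmsStmt := H95.sms H55.dst

theorem srcT : SrcStmt := H6.src H19.hke (H76.fmo H95.cvb)

theorem tseT : TseStmt := H32.tse H53.kbe H55.dst smsT

theorem pieOf (pae : PaeStmt) : PieStmt :=
  H3.pie (cpe floT khlT ffbT smsT tseT
    (H56.cle (H32.ble H17.laq (H24.hse ftb) pae) srcT smsT)) CL.H54.crgT

/-- the bound between the effective band edge and the bulk -/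
theorem pieT : PieStmt := pieOf (H46.pae ftb)

theorem flqT : FlqStmt := Pool.Agent.LE.H65J.flq

end Pool.Agent.LE.IR.H54
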