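import Pool.Agent.Helper54_LIR.CPEb

/-!
# CPE, part c: inequalities
-/

set_option autoImplicit false

open MeasureTheory ProbabilityTheory Function Filter

open scoped ENNReal BigOperators Topology NNReal

noncomputable section

namespace Pool.Agent.LE.IR.H54

open Pool.Agent.Anderson hiding box mem_box card_box
open Pool.Agent.Loc Pool.Agent.Mob Pool.Agent.Helper54.Bal
  Pool.Agent.Helper96.EXP Pool.Agent.BED
open Pool.Agent.LE.MN Pool.Agent.LE.CL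

theorem absorb {C K X L : ℝ} {j m : ℕ} (hC : C ≤ K) (hX : 0 ≤ X) (hL : 1 ≤ L) (hj : j ≤ m)
    (hK : 0 ≤ K) (h : K * X * L ^ m ≤ 1) : C * X * L ^ j ≤ 1 := by
  have h1 : L ^ j ≤ L ^ m := pow_le_pow_right₀ hL hj
  have h2 : 0 ≤ L ^ j := by positivity
  calc C * X * L ^ j ≤ K * X * L ^ j := by gcongr
    _ ≤ K * X * L ^ m := by gcongr
    _ ≤ 1 := h

theorem growth_mono {d : ℕ} {s t : ℝ} (hs : 0 < s) (h : s ≤ t) : growth d s ≤ growth d t := by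
  unfold growth
  split_ifs with h3 h4
  · exact Real.sqrt_le_sqrt h
  · have := Real.log_le_log hs h
    linarith
  · exact le_rfl

theorem pw_half {d : ℕ} {l lam : ℝ} (hl : 0 < lam) (h : lam / 2 ≤ l) (hd : 3 ≤ d) :
    lam ^ (((d : ℝ) - 4) / 2) * lam / 2 ^ d ≤ l ^ (((d : ℝ) - 2) / 2) := by
  have hd' : (3 : ℝ) ≤ d := by exact_mod_cast hd
  rw [← pw_mul hl]
  have h1 : (lam / 2) ^ (((d : ℝ) - 2) / 2) ≤ l ^ (((d : ℝ) - 2) / 2) :=
    Real.rpow_le_rpow (by positivity) h (by linarith)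
  refine le_trans ?_ h1
  rw [Real.div_rpow hl.le (by norm_num)]
  have h2 : (2 : ℝ) ^ (((d : ℝ) - 2) / 2) ≤ 2 ^ d := by
    rw [← Real.rpow_natCast]
    exact Real.rpow_le_rpow_of_exponent_le (by norm_num) (by linarith)
  have h3 : 0 < (2 : ℝ) ^ (((d : ℝ) - 2) / 2) := by positivity
  gcongr

theorem n_inv {lam L c : ℝ} {n : ℕ} {l : ℝ} (hc : 0 < c) (hl : 0 < lam) (hl2 : lam / 2 ≤ l)
    (hL : 0 ≤ L) (hn : 1 / (n : ℝ) ≤ 2 / c * lam * L) : 1 / ((n : ℝ) * l) ≤ 4 / c * L := by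
  have hl0 : 0 < l := by linarith
  calc 1 / ((n : ℝ) * l) = 1 / (n : ℝ) * (1 / l) := by
        rw [one_div_mul_one_div]
    _ ≤ (2 / c * lam * L) * (1 / (lam / 2)) := by gcongr
    _ = 4 / c * L := by
        field_simp
        ring

theorem c_i {d n : ℕ} {K₃ X lam L η c l : ℝ} (hη : η = K₃ * X * lam * L ^ (d + 4))
    (hK₃ : 0 ≤ K₃) (hX : 0 ≤ X) (hc : 0 < c) (hl : 0 < lam) (hl2 : lam / 2 ≤ l)
    (hL : 0 ≤ L) (hn : 1 / (n : ℝ) ≤ 2 / c * lam * L)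
    (h : (2 * K₃ * (4 / c) ^ d) * X * L ^ (2 * d + 4) ≤ 1) : η * (1 / ((n : ℝ) * l)) ^ d ≤ l := by
  have h1 := n_inv hc hl hl2 hL hn
  have hl0 : 0 < l := by linarith
  calc η * (1 / ((n : ℝ) * l)) ^ d ≤ η * (4 / c * L) ^ d := by
        have : 0 ≤ η := by rw [hη]; positivity
        gcongr
    _ = ((2 * K₃ * (4 / c) ^ d) * X * L ^ (2 * d + 4)) * (lam / 2) := by
        rw [hη, mul_pow, show 2 * d + 4 = (d + 4) + d by ring, pow_add L (d + 4) d]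
        ring
    _ ≤ 1 * (lam / 2) := by gcongr
    _ ≤ l := by linarith

theorem c_j {d n : ℕ} {K₃ σ G lam L η C l : ℝ} (hη : η = K₃ * (σ ^ 2 * G) * lam * L ^ (d + 4))
    (hd : 3 ≤ d)
    (hK₃ : 0 ≤ K₃) (hG : 0 ≤ G) (hC : 0 ≤ C) (hl : 0 < lam) (hl2 : lam / 2 ≤ l)
    (hL : 1 ≤ L) (hn : growth d n ≤ G) (hn2 : 1 + Real.log n ≤ 2 * L) (h : (2 ^ (d + 1) * C * K₃) * σ ^ 2 * G ^ 2 * L ^ (d + 5) ≤
      lam ^ (((d : ℝ) - 4) / 2)) :
    C * growth d n * (1 + Real.log n) * η ≤ l ^ (((d : ℝ) - 2) / 2) := by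
  refine le_trans ?_ (pw_half hl hl2 hd)
  rw [le_div_iff₀ (by positivity)]
  have hη0 : 0 ≤ η := by rw [hη]; positivity
  calc C * growth d n * (1 + Real.log n) * η * 2 ^ d ≤ C * G * (2 * L) * η * 2 ^ d := by gcongr
    _ = ((2 ^ (d + 1) * C * K₃) * σ ^ 2 * G ^ 2 * L ^ (d + 5)) * lam := by
        rw [hη]
        ring
    _ ≤ lam ^ (((d : ℝ) - 4) / 2) * lam := by gcongr

theorem c_t {d n : ℕ} {lam L l c τ ct : ℝ} (hd : 3 ≤ d) (hc : 0 < c) (hc1 : c ≤ 1)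
    (hl : 0 < lam)
    (hl2 : lam / 2 ≤ l) (hL : 1 ≤ L) (hn1 : 1 ≤ n) (hn : 1 / (n : ℝ) ≤ 2 / c * lam * L)
    {lg : ℝ} (hlg : 1 + lg ≤ 3 * L) (hlg0 : 0 ≤ 1 + lg) (hτ : τ ^ 2 = ct / L ^ d)
    (hct : ct = c ^ d / (3 * 4 ^ d)) :
    τ ^ 2 * (1 / (n : ℝ)) ^ (((d : ℝ) - 2) / 2) * (1 + lg) ≤ c * l ^ (((d : ℝ) - 2) / 2) := by
  have hd' : (3 : ℝ) ≤ d := by exact_mod_cast hd
  have hP := pw_half hl hl2 hd
  set P : ℝ := lam ^ (((d : ℝ) - 4) / 2) * lam with hPdef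
  have hP0 : 0 ≤ P := by positivity
  have hn0 : (0 : ℝ) < n := by exact_mod_cast hn1
  have h2c : 1 ≤ 2 / c * L := by
    have : 1 ≤ 2 / c := by
      rw [le_div_iff₀ hc]
      linarith
    nlinarith
  have h1 : (1 / (n : ℝ)) ^ (((d : ℝ) - 2) / 2) ≤ (2 / c * L) ^ (d - 1) * P := by
    calc (1 / (n : ℝ)) ^ (((d : ℝ) - 2) / 2) ≤ ((2 / c * L) * lam) ^ (((d : ℝ) - 2) / 2) := by
          refine Real.rpow_le_rpow (by positivity) (hn.trans (le_of_eq (by ring))) (by linarith)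
      _ = (2 / c * L) ^ (((d : ℝ) - 2) / 2) * P := by
          rw [Real.mul_rpow (by linarith) hl.le, pw_mul hl]
      _ ≤ (2 / c * L) ^ (d - 1) * P := by
          refine mul_le_mul_of_nonneg_right ?_ hP0
          rw [← Real.rpow_natCast]
          refine Real.rpow_le_rpow_of_exponent_le h2c ?_
          rw [Nat.cast_sub (by omega)]
          push_cast
          linarith
  have hL0 : 0 < L := by linarith
  have hct0 : 0 < ct := by rw [hct]; positivity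
  calc τ ^ 2 * (1 / (n : ℝ)) ^ (((d : ℝ) - 2) / 2) * (1 + lg)
      ≤ (ct / L ^ d) * ((2 / c * L) ^ (d - 1) * P) * (3 * L) := by
        rw [hτ]
        gcongr
    _ = c / 2 * (2 ^ d / 4 ^ d) * P := by
        have e1 : L ^ d = L ^ (d - 1) * L := by
          rw [← pow_succ]
          congr 1
          omega
        have e2 : (2 : ℝ) ^ d = 2 ^ (d - 1) * 2 := by
          rw [← pow_succ]
          congr 1
          omega
        have e3 : c ^ d = c ^ (d - 1) * c := by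
          rw [← pow_succ]
          congr 1
          omega
        rw [hct, mul_pow, div_pow, e1, e2, e3]
        field_simp
    _ ≤ c * (P / 2 ^ d) := by
        have e4 : (4 : ℝ) ^ d = 2 ^ d * 2 ^ d := by
          rw [← mul_pow]
          norm_num
        have h0 : (0 : ℝ) < 2 ^ d := by positivity
        rw [e4]
        have e5 : (2 : ℝ) ^ d / (2 ^ d * 2 ^ d) = 1 / 2 ^ d := by
          field_simp
        rw [e5]
        have h3 : 0 ≤ c * (P / 2 ^ d) := by positivity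
        calc c / 2 * (1 / 2 ^ d) * P = (c * (P / 2 ^ d)) / 2 := by ring
          _ ≤ c * (P / 2 ^ d) := by linarith
    _ ≤ c * l ^ (((d : ℝ) - 2) / 2) := by gcongr

/-- the size of the cluster -/
theorem c_size {d : ℕ} {l η c₁ c₂ A T Kq : ℝ} (hl : 0 < l) (hη : 0 < η) (hc₁ : 0 < c₁)
    (hc₂ : 0 < c₂) (hA : 0 < A) (hT : c₁ / η ≤ T)
    (hKq : Kq = A / (Real.sqrt T ^ (d + 1) * Real.sqrt l)) :
    c₂ * c₁ ^ (d + 1) / A ^ 2 * (Real.sqrt l / η) ^ d ≤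
      c₂ * l ^ (((d : ℝ) - 2) / 2) * η / Kq ^ 2 := by
  have hT0 : 0 < T := lt_of_lt_of_le (by positivity) hT
  have e1 : Kq ^ 2 = A ^ 2 / (T ^ (d + 1) * l) := by
    rw [hKq, div_pow, mul_pow, Real.sq_sqrt hl.le, ← pow_mul, mul_comm (d + 1) 2, pow_mul,
      Real.sq_sqrt hT0.le]
  have e2 : Real.sqrt l ^ d = l ^ (((d : ℝ) - 2) / 2) * l := by
    rw [Real.sqrt_eq_rpow, ← Real.rpow_natCast, ← Real.rpow_mul hl.le]
    nth_rw 3 [← Real.rpow_one l]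
    rw [← Real.rpow_add hl]
    congr 1
    ring
  set P : ℝ := l ^ (((d : ℝ) - 2) / 2) with hP
  have hP0 : 0 < P := by positivity
  rw [e1, div_pow, e2]
  have h1 : (c₁ / η) ^ (d + 1) ≤ T ^ (d + 1) := by gcongr
  calc c₂ * c₁ ^ (d + 1) / A ^ 2 * (P * l / η ^ d) =
        c₂ * P * l * η / A ^ 2 * (c₁ / η) ^ (d + 1) := by
        rw [div_pow, pow_succ η d]
        field_simp
    _ ≤ c₂ * P * l * η / A ^ 2 * T ^ (d + 1) := by gcongr
    _ = c₂ * P * η / (A ^ 2 / (T ^ (d + 1) * l)) := by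
        field_simp

/-- the number of the sites -/
theorem c_n {d : ℕ} {K₃ K X lam L η c₃ l e : ℝ} (hη : η = K₃ * X * lam * L ^ (d + 4))
    (hd : 1 ≤ d) (hK₃ : 1 ≤ K₃) (hX : 0 < X) (hc : 0 < c₃) (hc1 : c₃ ≤ 1) (hl : 0 < lam)
    (hlam1 : lam ≤ 1) (hl2 : lam / 2 ≤ l) (hl3 : l ≤ lam) (hL : 1 ≤ L)
    (hK : 4 * K₃ / c₃ ≤ K) (h : (4 * K₃ / c₃) * X * L ^ (d + 4) ≤ 1)
    (he : 1 / η ≤ e) (he1 : 1 ≤ e) :
    ∃ n : ℕ, 1 ≤ n ∧ (n : ℝ) ≤ c₃ * (Real.sqrt l / η) ^ d ∧ (n : ℝ) ≤ e ^ d ∧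
      (K * X * Real.sqrt lam * L ^ (d + 4)) ^ (-(d : ℝ)) ≤ n := by
  have hl0 : 0 < l := by linarith
  have hη0 : 0 < η := by rw [hη]; positivity
  have hsl0 : 0 < Real.sqrt lam := Real.sqrt_pos.2 hl
  have hsl : Real.sqrt lam * Real.sqrt lam = lam := Real.mul_self_sqrt hl.le
  have hsl1 : Real.sqrt lam ≤ 1 := Real.sqrt_le_one.2 hlam1
  have hs1 : Real.sqrt lam / 2 ≤ Real.sqrt l := by
    refine Real.le_sqrt_of_sq_le ?_
    rw [div_pow, sq, hsl]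
    linarith
  have hs2 : Real.sqrt l ≤ 1 := Real.sqrt_le_one.2 (by linarith)
  set Y : ℝ := X * Real.sqrt lam * L ^ (d + 4) with hY
  have hY0 : 0 < Y := by positivity
  have hη' : η = K₃ * Y * Real.sqrt lam := by
    calc η = K₃ * X * (Real.sqrt lam * Real.sqrt lam) * L ^ (d + 4) := by rw [hη, hsl]
      _ = K₃ * Y * Real.sqrt lam := by
        rw [hY]
        ring
  have h1 : 1 / (2 * K₃ * Y) ≤ Real.sqrt l / η := by
    calc 1 / (2 * K₃ * Y) = (Real.sqrt lam / 2) / η := by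
          rw [hη']
          field_simp
      _ ≤ Real.sqrt l / η := by gcongr
  have h2 : 4 * K₃ / c₃ * Y ≤ 1 := by
    calc 4 * K₃ / c₃ * Y = (4 * K₃ / c₃ * X * L ^ (d + 4)) * Real.sqrt lam := by
          rw [hY]
          ring
      _ ≤ 1 * 1 := by gcongr
      _ = 1 := one_mul 1
  have h3 : 2 / c₃ ≤ 1 / (2 * K₃ * Y) := by
    rw [div_le_div_iff₀ hc (by positivity)]
    have h4 : 4 * K₃ / c₃ * Y = 2 * (2 * K₃ * Y) / c₃ := by ring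
    rw [h4, div_le_one hc] at h2
    linarith
  set Q : ℝ := Real.sqrt l / η with hQ
  have hQ2 : 2 / c₃ ≤ Q := h3.trans h1
  have hc2 : 2 ≤ 2 / c₃ := by
    rw [le_div_iff₀ hc]
    linarith
  have hQ1 : 1 ≤ Q := by linarith
  have hQd : Q ≤ Q ^ d := le_self_pow₀ hQ1 (by omega)
  have hx2 : 2 ≤ c₃ * Q ^ d := by
    calc 2 = c₃ * (2 / c₃) := by field_simp
      _ ≤ c₃ * Q ^ d := by
        have := hQ2.trans hQd
        gcongr
  have hf1 : (⌊c₃ * Q ^ d⌋₊ : ℝ) ≤ c₃ * Q ^ d := Nat.floor_le (by linarith)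
  have hf2 : c₃ * Q ^ d < ⌊c₃ * Q ^ d⌋₊ + 1 := Nat.lt_floor_add_one _
  have hf3 : c₃ / 2 * Q ^ d ≤ (⌊c₃ * Q ^ d⌋₊ : ℝ) := by linarith
  refine ⟨⌊c₃ * Q ^ d⌋₊, ?_, hf1, ?_, ?_⟩
  · have h5 : (1 : ℝ) ≤ (⌊c₃ * Q ^ d⌋₊ : ℝ) := by linarith
    exact_mod_cast h5
  · refine hf1.trans ?_
    have h6 : Q ≤ e := by
      calc Q ≤ 1 / η := by
            rw [hQ]
            gcongr
        _ ≤ e := he
    calc c₃ * Q ^ d ≤ 1 * e ^ d := by gcongr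
      _ = e ^ d := one_mul _
  · refine le_trans ?_ hf3
    have e1 : K * X * Real.sqrt lam * L ^ (d + 4) = K * Y := by
      rw [hY]
      ring
    have hK0 : 0 < K := lt_of_lt_of_le (by positivity) hK
    rw [e1, Real.rpow_neg (by positivity), Real.rpow_natCast, ← inv_pow]
    have h7 : (K * Y)⁻¹ ≤ c₃ / 2 * Q := by
      calc (K * Y)⁻¹ ≤ (4 * K₃ / c₃ * Y)⁻¹ := by
            refine inv_anti₀ (by positivity) ?_
            gcongr
        _ = c₃ / 2 * (1 / (2 * K₃ * Y)) := by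
            field_simp
            ring
        _ ≤ c₃ / 2 * Q := by gcongr
    calc ((K * Y)⁻¹) ^ d ≤ (c₃ / 2 * Q) ^ d := by gcongr
      _ = (c₃ / 2) ^ d * Q ^ d := mul_pow _ _ _
      _ ≤ c₃ / 2 * Q ^ d := by
          gcongr
          exact pow_le_of_le_one (by positivity) (by linarith) (by omega)

/-- the sup norm in the form bound -/
theorem c_f1 {d : ℕ} {K₃ Kε X lam L η ct C : ℝ} (hη : η = K₃ * X * lam * L ^ (d + 4))
    (hX : 0 ≤ X) (hl : 0 < lam) (hL : 1 ≤ L) (hct : 0 < ct) (hK : C * Kε ≤ ct * K₃)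
    (hK₃ : 0 ≤ K₃) :
    C * (Kε * L * X) * lam ≤ ct / L ^ d * η := by
  have hL0 : 0 < L := by linarith
  calc C * (Kε * L * X) * lam = (C * Kε) * (X * lam * L) := by ring
    _ ≤ (ct * K₃) * (X * lam * L) := by gcongr
    _ ≤ (ct * K₃) * (X * lam * L ^ 4) := by
        have : L ≤ L ^ 4 := le_self_pow₀ hL (by norm_num)
        gcongr
    _ = ct / L ^ d * η := by
        rw [hη, pow_add]
        field_simp

theorem c_f2 {d : ℕ} {K₃ σ G lam L η ct C τ r Q : ℝ}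
    (hη : η = K₃ * (σ ^ 2 * G) * lam * L ^ (d + 4))
    (hG : 0 ≤ G) (hl : 0 < lam) (hL : 1 ≤ L) (hct : 0 < ct) (hC : 0 ≤ C) (hr : 0 ≤ r)
    (hτ0 : 0 ≤ τ) (hτ : τ ^ 2 = ct / L ^ d) (hr2 : r ^ 2 ≤ Q * (σ ^ 2 * G * L) ^ 2)
    (hK₃ : 1 ≤ K₃) (hK : C ^ 2 * Q ≤ ct * K₃) (hQ : 0 ≤ Q) :
    C * r * lam ≤ τ * η := by
  have hL0 : 0 < L := by linarith
  have hη0 : 0 ≤ η := by rw [hη]; positivity
  refine le_of_sq_le_sq ?_ (by positivity)
  calc (C * r * lam) ^ 2 = C ^ 2 * r ^ 2 * lam ^ 2 := by ring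
    _ ≤ C ^ 2 * (Q * (σ ^ 2 * G * L) ^ 2) * lam ^ 2 := by gcongr
    _ = (C ^ 2 * Q) * ((σ ^ 2 * G) ^ 2 * lam ^ 2 * L ^ 2) := by ring
    _ ≤ (ct * K₃) * ((σ ^ 2 * G) ^ 2 * lam ^ 2 * L ^ 2) := by gcongr
    _ ≤ (ct * K₃ ^ 2) * ((σ ^ 2 * G) ^ 2 * lam ^ 2 * L ^ (d + 8)) := by
        have h1 : K₃ ≤ K₃ ^ 2 := le_self_pow₀ hK₃ (by norm_num)
        have h2 : L ^ 2 ≤ L ^ (d + 8) := pow_le_pow_right₀ hL (by omega)
        gcongr
    _ = (τ * η) ^ 2 := by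
        have e1 : L ^ (d + 8) * L ^ d = (L ^ (d + 4)) ^ 2 := by
          rw [← pow_mul, ← pow_add]
          congr 1
          ring
        have e2 : (τ * η) ^ 2 = ct / L ^ d * (K₃ ^ 2 * (σ ^ 2 * G) ^ 2 * lam ^ 2 *
            (L ^ (d + 4)) ^ 2) := by
          rw [mul_pow, hτ, hη]
          ring
        rw [e2, ← e1]
        field_simp

theorem c_k {d k : ℕ} {K₃ σ G lam L η ct CK CS m B r2 : ℝ}
    (hη : η = K₃ * (σ ^ 2 * G) * lam * L ^ (d + 4)) (hσ : σ ≠ 0)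
    (hG : 0 < G) (hl : 0 < lam) (hL : 1 ≤ L) (hct : 0 < ct) (hCK : 0 ≤ CK) (hCS : 0 ≤ CS)
    (hm : 0 ≤ m) (hk : (k : ℝ) ≤ 2 * (m * L)) (hr2 : r2 = 2 * (m * L)) (hK₃ : 1 ≤ K₃)
    (hB : B ≤ CS * (40 * d) ^ d * (G * lam) * (3 * L)) (hB0 : 0 ≤ B)
    {τ2 : ℝ} (hτ2 : τ2 = ct / L ^ d / 16)
    (hK : 600 * CK * m ^ 2 * CS * (40 * d) ^ d ≤ ct * K₃) :
    CK * k * r2 * σ ^ 2 * B / (η * τ2) ≤ 1 / 3 := by
  have hL0 : 0 < L := by linarith
  have hσ2 : 0 < σ ^ 2 := by positivity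
  have hη0 : 0 < η := by rw [hη]; positivity
  have hτ0 : 0 < τ2 := by rw [hτ2]; positivity
  rw [div_le_iff₀ (by positivity)]
  have e1 : η * τ2 = ct * K₃ * (σ ^ 2 * G * lam * L ^ 4) / 16 := by
    rw [hη, hτ2, pow_add]
    field_simp
  rw [e1]
  calc CK * k * r2 * σ ^ 2 * B ≤
        CK * (2 * (m * L)) * (2 * (m * L)) * σ ^ 2 * (CS * (40 * d) ^ d * (G * lam) * (3 * L)) := by
        rw [hr2]
        gcongr
    _ = (12 * CK * m ^ 2 * CS * (40 * d) ^ d) * (σ ^ 2 * G * lam * L ^ 3) := by ring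
    _ ≤ (12 * CK * m ^ 2 * CS * (40 * d) ^ d) * (σ ^ 2 * G * lam * L ^ 4) := by
        have : L ^ 3 ≤ L ^ 4 := pow_le_pow_right₀ hL (by norm_num)
        gcongr
    _ ≤ (ct * K₃ / 50) * (σ ^ 2 * G * lam * L ^ 4) := by
        gcongr
        linarith
    _ ≤ 1 / 3 * (ct * K₃ * (σ ^ 2 * G * lam * L ^ 4) / 16) := by
        have : 0 ≤ ct * K₃ * (σ ^ 2 * G * lam * L ^ 4) := by positivity
        linarith

end Pool.Agent.LE.IR.H54
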