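import Pool.Agent.Helper54_LIR.CPEc

/-!
# CPE, part d: more inequalities
-/

set_option autoImplicit false

open MeasureTheory ProbabilityTheory Function Filter

open scoped ENNReal BigOperators Topology NNReal

noncomputable section

namespace Pool.Agent.LE.IR.H54

open Pool.Agent.Anderson hiding box mem_box card_box
open Pool.Agent.Loc Pool.Agent.Mob Pool.Agent.Helper54.Bal
  Pool.Agent.Helper96.EXP Pool.Agent.BED
open Pool.Agent.LE.MN Pool.Agent.LE.CL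

theorem c_r {d : ℕ} {m L CF σ G ε μ D P lam Kε : ℝ} (hm : 0 ≤ m) (hL : 0 ≤ L) (hCF : 0 ≤ CF)
    (hKε : 0 ≤ Kε) (hG : 0 ≤ G) (hP : P ≤ G) (hD : D ≤ 5 ^ d * (P * lam ^ 2))
    (hε : ε ^ 2 = Kε * L * (σ ^ 2 * G)) (hμ : 0 ≤ μ) (hl : 0 ≤ lam) (hμl : μ * lam ≤ 1200) :
    m * L * (CF * σ ^ 2 * ε ^ 2 * μ ^ 2 * D) ≤
      (m * CF * Kε * 1200 ^ 2 * 5 ^ d) * (σ ^ 2 * G * L) ^ 2 := by
  calc m * L * (CF * σ ^ 2 * ε ^ 2 * μ ^ 2 * D) ≤
        m * L * (CF * σ ^ 2 * ε ^ 2 * μ ^ 2 * (5 ^ d * (G * lam ^ 2))) := by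
        have : D ≤ 5 ^ d * (G * lam ^ 2) := hD.trans (by gcongr)
        gcongr
    _ = (m * CF * Kε * 5 ^ d * (σ ^ 2 * G * L) ^ 2) * (μ * lam) ^ 2 := by
        rw [hε]
        ring
    _ ≤ (m * CF * Kε * 5 ^ d * (σ ^ 2 * G * L) ^ 2) * 1200 ^ 2 := by
        gcongr
    _ = (m * CF * Kε * 1200 ^ 2 * 5 ^ d) * (σ ^ 2 * G * L) ^ 2 := by ring

theorem c_r1 {d : ℕ} {m L CF σ G μ D P lam : ℝ} (hm : 0 ≤ m) (hL : 0 ≤ L) (hCF : 0 ≤ CF)
    (hG : 0 ≤ G) (hP : P ≤ G) (hD : D ≤ 5 ^ d * (P * lam ^ 2))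
    (hμ : 0 ≤ μ) (hl : 0 ≤ lam) (hμl : μ * lam ≤ 1200) :
    m * L * (CF * σ ^ 2 * μ ^ 2 * D) ≤
      (m * CF * 1200 ^ 2 * 5 ^ d) * (σ ^ 2 * G) * L := by
  calc m * L * (CF * σ ^ 2 * μ ^ 2 * D) ≤
        m * L * (CF * σ ^ 2 * μ ^ 2 * (5 ^ d * (G * lam ^ 2))) := by
        have : D ≤ 5 ^ d * (G * lam ^ 2) := hD.trans (by gcongr)
        gcongr
    _ = (m * CF * 5 ^ d * (σ ^ 2 * G) * L) * (μ * lam) ^ 2 := by
        ring
    _ ≤ (m * CF * 5 ^ d * (σ ^ 2 * G) * L) * 1200 ^ 2 := by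
        gcongr
    _ = (m * CF * 1200 ^ 2 * 5 ^ d) * (σ ^ 2 * G) * L := by ring

/-- the basic numbers -/
theorem basic {d : ℕ} {K t lam L σ : ℝ} (hd : 3 ≤ d) (hK : 100 ≤ K) (hσ : σ ≠ 0)
    (hσc : |σ| ≤ 1 / 4) (ht : K ≤ t) (hL : L = Real.log (1 / |σ|) + Real.log t)
    (h1 : 50 / t ≤ lam) (h2 : lam ≤ 100 / t)
    (hs : K * σ ^ 2 * growth d t ^ 2 * L ^ (2 * d + 10) ≤ lam ^ (((d : ℝ) - 4) / 2)) :
    1 ≤ L ∧ 1 ≤ growth d t ∧ lam ^ (((d : ℝ) - 4) / 2) ≤ growth d t ∧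
      K * (σ ^ 2 * growth d t) * L ^ (2 * d + 10) ≤ 1 ∧ t / |σ| = Real.exp L ∧
      |σ| / t = Real.exp (-L) ∧ K ≤ Real.exp L ∧ t ≤ Real.exp L ∧ 1 / |σ| ≤ Real.exp L ∧
      Real.log t ≤ L := by
  have hσ0 : 0 < |σ| := abs_pos.2 hσ
  have ht100 : 100 ≤ t := hK.trans ht
  have ht0 : 0 < t := by linarith
  have hG1 : 1 ≤ growth d t := one_le_growth d (by linarith)
  have hP := pw_le hd ht100 h1 h2
  have hs1 : 1 ≤ 1 / |σ| := by
    rw [le_div_iff₀ hσ0]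
    linarith
  have hls : 0 ≤ Real.log (1 / |σ|) := Real.log_nonneg hs1
  have hlt : 1 ≤ Real.log t := by
    rw [Real.le_log_iff_exp_le ht0]
    have := Real.exp_one_lt_d9
    linarith
  have hexp : Real.exp L = t / |σ| := by
    rw [hL, Real.exp_add, Real.exp_log (by positivity), Real.exp_log ht0]
    ring
  have hts : t ≤ t / |σ| := by
    rw [le_div_iff₀ hσ0]
    nlinarith
  refine ⟨by linarith, hG1, hP, ?_, hexp.symm, ?_, ?_, ?_, ?_, by linarith⟩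
  · have h3 : K * σ ^ 2 * growth d t ^ 2 * L ^ (2 * d + 10) ≤ growth d t := hs.trans hP
    have h4 : growth d t * (K * (σ ^ 2 * growth d t) * L ^ (2 * d + 10)) ≤ growth d t * 1 := by
      calc growth d t * (K * (σ ^ 2 * growth d t) * L ^ (2 * d + 10)) =
            K * σ ^ 2 * growth d t ^ 2 * L ^ (2 * d + 10) := by ring
        _ ≤ growth d t * 1 := by rw [mul_one]; exact h3
    exact le_of_mul_le_mul_left h4 (by linarith)
  · rw [Real.exp_neg, hexp, inv_div]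
  · rw [hexp]
    linarith
  · rw [hexp]
    exact hts
  · rw [hexp]
    gcongr
    linarith

theorem inv_eta {d : ℕ} {t lam L σ G K₃ η : ℝ} (hη : η = K₃ * (σ ^ 2 * G) * lam * L ^ (d + 4))
    (hσ : σ ≠ 0) (ht : 1 ≤ t) (hexp : t / |σ| = Real.exp L) (h1 : 50 / t ≤ lam) (hL : 1 ≤ L)
    (hG : 1 ≤ G) (hK₃ : 1 ≤ K₃) : 1 / η ≤ Real.exp (2 * L) := by
  have hσ0 : 0 < |σ| := abs_pos.2 hσ
  have hσ2 : 0 < σ ^ 2 := by positivity
  have ht0 : 0 < t := by linarith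
  have hl0 : 0 < lam := lt_of_lt_of_le (by positivity) h1
  have hη0 : 0 < η := by rw [hη]; positivity
  have h2 : Real.exp (2 * L) = t ^ 2 / σ ^ 2 := by
    rw [← sq_abs σ, ← div_pow, hexp, ← Real.exp_nat_mul]
    push_cast
    rfl
  rw [h2, div_le_div_iff₀ hη0 hσ2]
  have h3 : 1 ≤ t * lam := by
    rw [div_le_iff₀ ht0] at h1
    linarith
  have h4 : (1 : ℝ) ≤ L ^ (d + 4) := one_le_pow₀ hL
  have h5 : σ ^ 2 * lam ≤ η := by
    rw [hη]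
    calc σ ^ 2 * lam = 1 * (σ ^ 2 * 1) * lam * 1 := by ring
      _ ≤ K₃ * (σ ^ 2 * G) * lam * L ^ (d + 4) := by gcongr
  calc 1 * σ ^ 2 ≤ t * (t * lam) * σ ^ 2 := by
        gcongr
        nlinarith
    _ = t ^ 2 * (σ ^ 2 * lam) := by ring
    _ ≤ t ^ 2 * η := by gcongr

/-- the scales of the cluster -/
theorem scales {d : ℕ} {C₁ L η : ℝ} (hd : 3 ≤ d) (hC₁ : 1 ≤ C₁) (hL : 1 ≤ L) (hη : 0 < η)
    (hη1 : η ≤ 1) (hinv : 1 / η ≤ Real.exp (2 * L)) (hK : 72 * d * C₁ + 14 ≤ Real.exp L) :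
    ∃ R₁ J R : ℕ, R = J * R₁ ∧ 1 ≤ R₁ ∧ 1 ≤ J ∧ 1 ≤ R ∧ C₁ * L ≤ η * R₁ ∧ (J : ℝ) ≤ 9 * d * L ∧
      (2 * R + 7 : ℝ) ≤ Real.exp (4 * L) ∧ (2 * R + 1) ^ d < 2 ^ J := by
  have hd' : (3 : ℝ) ≤ d := by exact_mod_cast hd
  set R₁ : ℕ := ⌈C₁ * L / η⌉₊ with hR₁
  set J : ℕ := ⌈8 * d * L⌉₊ with hJ
  have hCL : 1 ≤ C₁ * L := by nlinarith
  have hinv1 : 1 ≤ 1 / η := by
    rw [le_div_iff₀ hη]
    linarith
  have hR₁l : C₁ * L / η ≤ R₁ := Nat.le_ceil _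
  have hR₁u : (R₁ : ℝ) ≤ 2 * (C₁ * L) * (1 / η) := by
    have h1 : (R₁ : ℝ) < C₁ * L / η + 1 := Nat.ceil_lt_add_one (by positivity)
    have h2 : 1 ≤ C₁ * L * (1 / η) := by nlinarith
    have h3 : C₁ * L / η = C₁ * L * (1 / η) := by ring
    rw [h3] at h1
    linarith
  have hJl : 8 * d * L ≤ J := Nat.le_ceil _
  have hdL : 3 ≤ (d : ℝ) * L := by nlinarith
  have hJu : (J : ℝ) ≤ 9 * d * L := by
    have h1 : (J : ℝ) < 8 * d * L + 1 := Nat.ceil_lt_add_one (by positivity)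
    linarith
  have hJ1 : 1 ≤ J := by
    have h1 : (0 : ℝ) < J := by linarith
    exact_mod_cast h1
  have hR₁1 : 1 ≤ R₁ := by
    have h1 : (0 : ℝ) < R₁ := by
      have : 0 < C₁ * L / η := by positivity
      linarith
    exact_mod_cast h1
  have hR1 : 1 ≤ J * R₁ := Nat.mul_pos hJ1 hR₁1
  have hRu : (2 * ((J * R₁ : ℕ) : ℝ) + 7 : ℝ) ≤ Real.exp (4 * L) := by
    have h1 : ((J * R₁ : ℕ) : ℝ) ≤ (9 * d * L) * (2 * (C₁ * L) * (1 / η)) := by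
      push_cast
      gcongr
    have h2 : 36 * d * C₁ * L ^ 2 + 7 ≤ Real.exp (2 * L) := by
      have h3 : L ^ 2 / 2 ≤ Real.exp L := by
        have := Real.pow_div_factorial_le_exp L (by linarith) 2
        simpa [Nat.factorial] using this
      have h4 : Real.exp (2 * L) = Real.exp L * Real.exp L := by
        rw [← Real.exp_add]
        congr 1
        ring
      have h5 : 1 ≤ L ^ 2 := one_le_pow₀ hL
      rw [h4]
      calc 36 * d * C₁ * L ^ 2 + 7 ≤ L ^ 2 / 2 * (72 * d * C₁ + 14) := by nlinarith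
        _ ≤ Real.exp L * Real.exp L := by gcongr
    calc (2 * ((J * R₁ : ℕ) : ℝ) + 7 : ℝ) ≤ 2 * ((9 * d * L) * (2 * (C₁ * L) * (1 / η))) +
          7 * (1 / η) := by linarith
      _ = (36 * d * C₁ * L ^ 2 + 7) * (1 / η) := by ring
      _ ≤ Real.exp (2 * L) * Real.exp (2 * L) := by gcongr
      _ = Real.exp (4 * L) := by
        rw [← Real.exp_add]
        ring_nf
  refine ⟨R₁, J, J * R₁, rfl, hR₁1, hJ1, hR1, ?_, hJu, hRu, ?_⟩
  · rw [div_le_iff₀ hη] at hR₁l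
    linarith
  · have h6 : ((2 * ((J * R₁ : ℕ) : ℝ) + 1) ^ d) < 2 ^ J := by
      calc (2 * ((J * R₁ : ℕ) : ℝ) + 1) ^ d ≤ (Real.exp (4 * L)) ^ d := by
            gcongr
            linarith
        _ = Real.exp (d * (4 * L)) := by rw [← Real.exp_nat_mul]
        _ < Real.exp (J * Real.log 2) := by
            refine Real.exp_lt_exp.2 ?_
            have h7 := Real.log_two_gt_d9
            have h8 : (8 * d * L) * 0.69 ≤ J * Real.log 2 := by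
              gcongr
              linarith
            nlinarith
        _ = 2 ^ J := by
            rw [Real.exp_nat_mul, Real.exp_log (by norm_num)]
    exact_mod_cast h6

end Pool.Agent.LE.IR.H54
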