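import Pool.Agent.Helper54_LIR.CPEd

/-!
# CPE, part e: the constants
-/

set_option autoImplicit false

open MeasureTheory ProbabilityTheory Function Filter

open scoped ENNReal BigOperators Topology NNReal

noncomputable section

namespace Pool.Agent.LE.IR.H54

open Pool.Agent.Anderson hiding box mem_box card_box
open Pool.Agent.Loc Pool.Agent.Mob Pool.Agent.Helper54.Bal
  Pool.Agent.Helper96.EXP Pool.Agent.BED
open Pool.Agent.LE.MN Pool.Agent.LE.CL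

/-- the constants -/
structure Cst (d : ℕ) (CF CK CB CS AT cT CT c₁ cE c₂ CE A₀ Kε m K₀ ct Q K₃ a₀ C₁ c₃ K : ℝ) :
    Prop where
  hm : m = d * K₀ + A₀ + 2
  ha₀ : a₀ = 10 * d + A₀ + 3
  hC₁ : C₁ = CE * (a₀ + 6)
  hct : ct = cE ^ d / (3 * 4 ^ d)
  hQ : Q = m * CF * Kε * 1200 ^ 2 * 5 ^ d
  hctK : ct * K₃ = 1 + CB * Kε + CB ^ 2 * Q + 600 * CK * m ^ 2 * CS * (40 * d) ^ d
  hct0 : 0 < ct
  hct1 : ct ≤ 1
  hQ0 : 0 < Q
  hm0 : 1 ≤ m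
  hK₃1 : 1 ≤ K₃
  hC₁1 : 1 ≤ C₁
  hc₃0 : 0 < c₃
  hc₃1 : c₃ ≤ 1
  hc₃2 : c₃ ≤ c₂ * c₁ ^ (d + 1) / AT ^ 2
  ha₀0 : 0 ≤ a₀
  hK100 : 100 ≤ K
  k1 : m * CF * 1200 ^ 2 * 5 ^ d ≤ K
  k2 : Kε / cE ^ 2 ≤ K
  k3 : CB ^ 2 * Kε / ct ≤ K
  k4 : 3 * K₃ / cE ≤ K
  k5 : 2 * K₃ * (4 / cE) ^ d ≤ K
  k6 : 2 ^ (d + 1) * CE * K₃ ≤ K
  k7 : 2 * CT * K₃ / c₁ ≤ K
  k8 : 4 * K₃ / c₃ ≤ K
  k9 : 72 * d * C₁ + 14 ≤ K
  k10 : CT ≤ K
  k11 : CE + CS + 576 ≤ K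
  k12 : (2 : ℝ) ^ (d + 4) * 3 ^ d ≤ K
  k13 : 400 / cE ^ 2 ≤ K
  k14 : 100 / cT + 4000 * d ≤ K
  k15 : 7 * CE ≤ K
  k16 : 9 * (d : ℝ) ≤ K
  r1 : CB * Kε ≤ ct * K₃
  r2 : CB ^ 2 * Q ≤ ct * K₃
  r3 : 600 * CK * m ^ 2 * CS * (40 * d) ^ d ≤ ct * K₃

/-- every term of a sum of nonnegative reals is at most the sum -/
theorem cpe_sum_aux {x1 x2 x3 x4 x5 x6 x7 x8 x9 x10 x11 x12 x13 x14 x15 x16 : ℝ}
    (h1 : 0 ≤ x1) (h2 : 0 ≤ x2) (h3 : 0 ≤ x3) (h4 : 0 ≤ x4) (h5 : 0 ≤ x5) (h6 : 0 ≤ x6)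
    (h7 : 0 ≤ x7) (h8 : 0 ≤ x8) (h9 : 0 ≤ x9) (h10 : 0 ≤ x10) (h11 : 0 ≤ x11) (h12 : 0 ≤ x12)
    (h13 : 0 ≤ x13) (h14 : 0 ≤ x14) (h15 : 0 ≤ x15) (h16 : 0 ≤ x16) {S : ℝ}
    (hS : S = 100 + x1 + x2 + x3 + x4 + x5 + x6 + x7 + x8 + x9 + x10 + x11 + x12 + x13 + x14 + x15 + x16) :
    100 ≤ S ∧ x1 ≤ S ∧ x2 ≤ S ∧ x3 ≤ S ∧ x4 ≤ S ∧ x5 ≤ S ∧ x6 ≤ S ∧ x7 ≤ S ∧
    x8 ≤ S ∧ x9 ≤ S ∧ x10 ≤ S ∧ x11 ≤ S ∧ x12 ≤ S ∧ x13 ≤ S ∧ x14 ≤ S ∧ x15 ≤ S ∧ x16 ≤ S := by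
  subst hS
  have p0 : (0 : ℝ) ≤ 100 := by norm_num
  have p1 := add_nonneg p0 h1
  have p2 := add_nonneg p1 h2
  have p3 := add_nonneg p2 h3
  have p4 := add_nonneg p3 h4
  have p5 := add_nonneg p4 h5
  have p6 := add_nonneg p5 h6
  have p7 := add_nonneg p6 h7
  have p8 := add_nonneg p7 h8
  have p9 := add_nonneg p8 h9
  have p10 := add_nonneg p9 h10
  have p11 := add_nonneg p10 h11
  have p12 := add_nonneg p11 h12
  have p13 := add_nonneg p12 h13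
  have p14 := add_nonneg p13 h14
  have p15 := add_nonneg p14 h15
  have u15 := le_add_of_nonneg_right (a := 100 + x1 + x2 + x3 + x4 + x5 + x6 + x7 + x8 + x9 + x10 + x11 + x12 + x13 + x14 + x15) h16
  have u14 := (le_add_of_nonneg_right (a := 100 + x1 + x2 + x3 + x4 + x5 + x6 + x7 + x8 + x9 + x10 + x11 + x12 + x13 + x14) h15).trans u15
  have u13 := (le_add_of_nonneg_right (a := 100 + x1 + x2 + x3 + x4 + x5 + x6 + x7 + x8 + x9 + x10 + x11 + x12 + x13) h14).trans u14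
  have u12 := (le_add_of_nonneg_right (a := 100 + x1 + x2 + x3 + x4 + x5 + x6 + x7 + x8 + x9 + x10 + x11 + x12) h13).trans u13
  have u11 := (le_add_of_nonneg_right (a := 100 + x1 + x2 + x3 + x4 + x5 + x6 + x7 + x8 + x9 + x10 + x11) h12).trans u12
  have u10 := (le_add_of_nonneg_right (a := 100 + x1 + x2 + x3 + x4 + x5 + x6 + x7 + x8 + x9 + x10) h11).trans u11
  have u9 := (le_add_of_nonneg_right (a := 100 + x1 + x2 + x3 + x4 + x5 + x6 + x7 + x8 + x9) h10).trans u10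
  have u8 := (le_add_of_nonneg_right (a := 100 + x1 + x2 + x3 + x4 + x5 + x6 + x7 + x8) h9).trans u9
  have u7 := (le_add_of_nonneg_right (a := 100 + x1 + x2 + x3 + x4 + x5 + x6 + x7) h8).trans u8
  have u6 := (le_add_of_nonneg_right (a := 100 + x1 + x2 + x3 + x4 + x5 + x6) h7).trans u7
  have u5 := (le_add_of_nonneg_right (a := 100 + x1 + x2 + x3 + x4 + x5) h6).trans u6
  have u4 := (le_add_of_nonneg_right (a := 100 + x1 + x2 + x3 + x4) h5).trans u5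
  have u3 := (le_add_of_nonneg_right (a := 100 + x1 + x2 + x3) h4).trans u4
  have u2 := (le_add_of_nonneg_right (a := 100 + x1 + x2) h3).trans u3
  have u1 := (le_add_of_nonneg_right (a := 100 + x1) h2).trans u2
  have u0 := (le_add_of_nonneg_right (a := (100 : ℝ)) h1).trans u1
  exact ⟨u0, (le_add_of_nonneg_left p0).trans u1, (le_add_of_nonneg_left p1).trans u2, (le_add_of_nonneg_left p2).trans u3,
    (le_add_of_nonneg_left p3).trans u4, (le_add_of_nonneg_left p4).trans u5, (le_add_of_nonneg_left p5).trans u6, (le_add_of_nonneg_left p6).trans u7,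
    (le_add_of_nonneg_left p7).trans u8, (le_add_of_nonneg_left p8).trans u9, (le_add_of_nonneg_left p9).trans u10, (le_add_of_nonneg_left p10).trans u11,
    (le_add_of_nonneg_left p11).trans u12, (le_add_of_nonneg_left p12).trans u13, (le_add_of_nonneg_left p13).trans u14, (le_add_of_nonneg_left p14).trans u15,
    le_add_of_nonneg_left p15⟩

theorem exists_cst {d : ℕ} {CF CK CB CS AT cT CT c₁ cE c₂ CE A₀ Kε K₀ : ℝ} (hd' : (3 : ℝ) ≤ d)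
    (hCF : 1 ≤ CF) (hCK : 1 ≤ CK) (hCB : 1 ≤ CB) (hCS : 1 ≤ CS) (hAT : 1 ≤ AT) (hcT : 0 < cT)
    (hCT : 1 ≤ CT) (hc₁ : 0 < c₁) (hcE : 0 < cE) (hcE1 : cE ≤ 1) (hc₂ : 0 < c₂) (hCE : 1 ≤ CE)
    (hA₀ : 1 ≤ A₀) (hKε : 1 ≤ Kε) (hK₀ : 0 ≤ K₀) :
    ∃ m ct Q K₃ a₀ C₁ c₃ K : ℝ, Cst d CF CK CB CS AT cT CT c₁ cE c₂ CE A₀ Kε m K₀ ct Q K₃ a₀ C₁
      c₃ K := by
  set m : ℝ := d * K₀ + A₀ + 2 with hm
  have hm0 : 1 ≤ m := by
    have : 0 ≤ (d : ℝ) * K₀ := by positivity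
    linarith
  set ct : ℝ := cE ^ d / (3 * 4 ^ d) with hct
  have hct0 : 0 < ct := by positivity
  have hct1 : ct ≤ 1 := by
    rw [hct, div_le_one (by positivity)]
    have h1 : cE ^ d ≤ 1 := pow_le_one₀ hcE.le hcE1
    have h2 : (1 : ℝ) ≤ 4 ^ d := one_le_pow₀ (by norm_num)
    linarith
  set Q : ℝ := m * CF * Kε * 1200 ^ 2 * 5 ^ d with hQ
  have hQ0 : 0 < Q := by positivity
  set K₃ : ℝ := (1 + CB * Kε + CB ^ 2 * Q + 600 * CK * m ^ 2 * CS * (40 * d) ^ d) / ct with hK₃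
  have hctK : ct * K₃ = 1 + CB * Kε + CB ^ 2 * Q + 600 * CK * m ^ 2 * CS * (40 * d) ^ d := by
    rw [hK₃]
    field_simp
  have q1 : 0 ≤ CB * Kε := by positivity
  have q2 : 0 ≤ CB ^ 2 * Q := by positivity
  have q3 : 0 ≤ 600 * CK * m ^ 2 * CS * (40 * (d : ℝ)) ^ d := by positivity
  have hK₃1 : 1 ≤ K₃ := by
    rw [hK₃, le_div_iff₀ hct0]
    linarith
  have hK₃0 : 0 < K₃ := by linarith
  set a₀ : ℝ := 10 * d + A₀ + 3 with ha₀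
  set C₁ : ℝ := CE * (a₀ + 6) with hC₁
  have hC₁1 : 1 ≤ C₁ := by
    rw [hC₁]
    nlinarith
  set c₃ : ℝ := min (c₂ * c₁ ^ (d + 1) / AT ^ 2) 1 with hc₃
  have hc₃0 : 0 < c₃ := lt_min (by positivity) one_pos
  have hc₃1 : c₃ ≤ 1 := min_le_right _ _
  have hc₃2 : c₃ ≤ c₂ * c₁ ^ (d + 1) / AT ^ 2 := min_le_left _ _
  have r1 : 0 ≤ m * CF * 1200 ^ 2 * 5 ^ d := by positivity
  have r2 : 0 ≤ Kε / cE ^ 2 := by positivity
  have r3 : 0 ≤ CB ^ 2 * Kε / ct := by positivity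
  have r4 : 0 ≤ 3 * K₃ / cE := by positivity
  have r5 : 0 ≤ 2 * K₃ * (4 / cE) ^ d := by positivity
  have r6 : 0 ≤ 2 ^ (d + 1) * CE * K₃ := by positivity
  have r7 : 0 ≤ 2 * CT * K₃ / c₁ := by positivity
  have r8 : 0 ≤ 4 * K₃ / c₃ := by positivity
  have r9 : 0 ≤ 72 * d * C₁ + 14 := by positivity
  have r10 : 0 ≤ CT := by positivity
  have r11 : 0 ≤ CE + CS + 576 := by positivity
  have r12 : (0 : ℝ) ≤ (2 : ℝ) ^ (d + 4) * 3 ^ d := by positivity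
  have r13 : 0 ≤ 400 / cE ^ 2 := by positivity
  have r14 : 0 ≤ 100 / cT + 4000 * d := by positivity
  have r15 : 0 ≤ 7 * CE := by positivity
  have r16 : 0 ≤ 9 * (d : ℝ) := by positivity
  obtain ⟨s0, s1, s2, s3, s4, s5, s6, s7, s8, s9, s10, s11, s12, s13, s14, s15, s16⟩ :=
    cpe_sum_aux r1 r2 r3 r4 r5 r6 r7 r8 r9 r10 r11 r12 r13 r14 r15 r16 rfl
  exact ⟨m, ct, Q, K₃, a₀, C₁, c₃, _, hm, ha₀, hC₁, hct, hQ, hctK, hct0, hct1, hQ0, hm0, hK₃1, hC₁1,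
    hc₃0, hc₃1, hc₃2, by positivity, s0, s1, s2, s3, s4, s5, s6, s7, s8, s9, s10, s11, s12, s13, s14,
    s15, s16, by linarith only [q1, q2, q3, hctK], by linarith only [q1, q2, q3, hctK],
    by linarith only [q1, q2, q3, hctK]⟩

end Pool.Agent.LE.IR.H54
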