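import Pool.Agent.Helper54_LIR.CPEe

/-!
# CPE, part f: the numbers
-/

set_option autoImplicit false

open MeasureTheory ProbabilityTheory Function Filter

open scoped ENNReal BigOperators Topology NNReal

noncomputable section

namespace Pool.Agent.LE.IR.H54

open Pool.Agent.Anderson hiding box mem_box card_box
open Pool.Agent.Loc Pool.Agent.Mob Pool.Agent.Helper54.Bal
  Pool.Agent.Helper96.EXP Pool.Agent.BED
open Pool.Agent.LE.MN Pool.Agent.LE.CL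

/-- the basic numbers -/
structure NumB (d M' : ℕ) (K K₀ A₀ σ t μ ε₀ p lam L G P Kε cE cT : ℝ) : Prop where
  hL1 : 1 ≤ L
  hG1 : 1 ≤ G
  hP0 : 0 ≤ P
  hPG : P ≤ G
  hS1 : K * (σ ^ 2 * G) * L ^ (2 * d + 10) ≤ 1
  hstar : K * σ ^ 2 * G ^ 2 * L ^ (2 * d + 10) ≤ P
  hKe : K ≤ Real.exp L
  hte : t ≤ Real.exp L
  hse : 1 / |σ| ≤ Real.exp L
  hexp : t / |σ| = Real.exp L
  hlogt : Real.log t ≤ L
  ht100 : 100 ≤ t
  hl0 : 0 < lam
  hl1 : 50 / t ≤ lam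
  hμ0 : 0 < μ
  hμl : μ * lam ≤ 1200
  hμl2 : 500 ≤ lam * μ
  hμt : μ ≤ 12 * t
  hlcE : lam ≤ cE ^ 2 / 4
  hlcT : lam ≤ cT
  hl40 : 40 * d * lam ≤ 1
  hlam1 : lam ≤ 1
  hX0 : 0 < σ ^ 2 * G
  hM1 : Real.exp (K₀ * L) ≤ M'
  hM2 : (M' : ℝ) ≤ 2 * Real.exp (K₀ * L)
  hMe : Real.exp (60 * L) ≤ M'
  hM0 : (1 : ℝ) ≤ M'
  hp : 0 ≤ p
  hpA : p ≤ Real.exp (-(A₀ * L))
  hε₀2 : ε₀ ^ 2 ≤ Kε * L * (σ ^ 2 * G)

theorem numB {d M' : ℕ} {CF CK CB CS AT cT CT c₁ cE c₂ CE A₀ Kε m K₀ ct Q K₃ a₀ C₁ c₃ K : ℝ}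
    (hcst : Cst d CF CK CB CS AT cT CT c₁ cE c₂ CE A₀ Kε m K₀ ct Q K₃ a₀ C₁ c₃ K) (hd : 3 ≤ d)
    (hK₀ : 60 ≤ K₀) (hcE : 0 < cE) (hcT : 0 < cT)
    {σ t μ ε₀ p lam L : ℝ} (hσ : σ ≠ 0) (hσc : |σ| ≤ 1 / 4) (ht : K ≤ t)
    (hL : L = Real.log (1 / |σ|) + Real.log t) (hμ1 : 10 * t ≤ μ) (hμ2 : μ ≤ 12 * t)
    (hl1 : 50 / t ≤ lam) (hl2 : lam ≤ 100 / t)
    (hε₀2 : ε₀ ^ 2 ≤ Kε * L * σ ^ 2 * growth d t)
    (hstar : K * σ ^ 2 * growth d t ^ 2 * L ^ (2 * d + 10) ≤ lam ^ (((d : ℝ) - 4) / 2))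
    (hM1 : (t / |σ|) ^ K₀ ≤ M') (hM2 : M' ≤ 2 * (t / |σ|) ^ K₀) (hp : 0 ≤ p)
    (hpA : p ≤ (|σ| / t) ^ A₀) :
    NumB d M' K K₀ A₀ σ t μ ε₀ p lam L (growth d t) (lam ^ (((d : ℝ) - 4) / 2)) Kε cE cT := by
  have hK100 := hcst.hK100
  have hd' : (3 : ℝ) ≤ d := by exact_mod_cast hd
  obtain ⟨hL1, hG1, hPG, hS1, hexp, hexp2, hKe, hte, hse, hlogt⟩ :=
    basic hd hK100 hσ hσc ht hL hl1 hl2 hstar
  have hσ0 : 0 < |σ| := abs_pos.2 hσ
  have hσ2 : 0 < σ ^ 2 := by positivity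
  have hK0 : 0 ≤ K := by linarith
  have ht100 : 100 ≤ t := hK100.trans ht
  have ht0 : 0 < t := by linarith
  have hl0 : 0 < lam := lt_of_lt_of_le (by positivity) hl1
  have hG0 : 0 < growth d t := by linarith
  have hL0 : 0 < L := by linarith
  have hμ0 : 0 < μ := by linarith
  have hμl : μ * lam ≤ 1200 := by
    calc μ * lam ≤ (12 * t) * (100 / t) := by gcongr
      _ = 1200 := by
        field_simp
        norm_num
  have hμl2 : 500 ≤ lam * μ := by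
    calc (500 : ℝ) = (50 / t) * (10 * t) := by
          field_simp
          norm_num
      _ ≤ lam * μ := by gcongr
  rw [hexp] at hM1 hM2
  rw [hexp2] at hpA
  rw [exp_rpow] at hM1 hM2 hpA
  have hpA' : p ≤ Real.exp (-(A₀ * L)) := hpA.trans (le_of_eq (by ring_nf))
  have hMe : Real.exp (60 * L) ≤ M' := by
    refine le_trans (Real.exp_le_exp.2 ?_) hM1
    gcongr
  have hM1' : (1 : ℝ) ≤ M' := (Real.one_le_exp (by positivity)).trans hMe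
  have hl100 : lam ≤ 100 / K := hl2.trans (by gcongr)
  have hlcE : lam ≤ cE ^ 2 / 4 := by
    have k13 := hcst.k13
    refine hl100.trans ?_
    rw [div_le_iff₀ (by linarith)]
    rw [div_le_iff₀ (by positivity)] at k13
    linarith
  have k14 := hcst.k14
  have hlcT : lam ≤ cT := by
    refine hl100.trans ?_
    have h1 : 100 / cT ≤ K := by
      have : 0 ≤ 4000 * (d : ℝ) := by positivity
      linarith
    rw [div_le_iff₀ (by linarith)]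
    rw [div_le_iff₀ (by positivity)] at h1
    linarith
  have hl1' : 40 * d * lam ≤ 1 := by
    have h1 : 4000 * (d : ℝ) ≤ K := by
      have : 0 ≤ 100 / cT := by positivity
      linarith
    calc 40 * d * lam ≤ 40 * d * (100 / K) := by gcongr
      _ = 4000 * d / K := by ring
      _ ≤ 1 := by
        rw [div_le_one (by linarith)]
        exact h1
  have hlam1 : lam ≤ 1 := by nlinarith
  exact ⟨hL1, hG1, by positivity, hPG, hS1, hstar, hKe, hte, hse, hexp, hlogt, ht100, hl0, hl1, hμ0,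
    hμl, hμl2, hμ2, hlcE, hlcT, hl1', hlam1, by positivity, hM1, hM2, hMe, hM1', hp, hpA',
    hε₀2.trans (le_of_eq (by ring))⟩

/-- the cut of the momenta -/
theorem exists_cut {M' : ℕ} {t lam L : ℝ} (ht : 100 ≤ t) (hl0 : 0 < lam) (hlam1 : lam ≤ 1)
    (hl1 : 50 / t ≤ lam) (hte : t ≤ Real.exp L) (hM : Real.exp (2 * L) ≤ M')
    (hM1 : (1 : ℝ) ≤ M') :
    2 ≤ Real.sqrt lam * M' ∧ ∃ J : ℕ, (J : ℝ) ≤ Real.sqrt lam * M' ∧
      lam * (M' : ℝ) ^ 2 ≤ 4 * (J : ℝ) ^ 2 ∧ (J : ℝ) ^ 2 ≤ lam * (M' : ℝ) ^ 2 ∧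
        (J : ℝ) ≤ M' := by
  have ht0 : 0 < t := by linarith
  have hsl : Real.sqrt lam * Real.sqrt lam = lam := Real.mul_self_sqrt hl0.le
  have hsl0 : 0 < Real.sqrt lam := Real.sqrt_pos.2 hl0
  have hsM : 2 ≤ Real.sqrt lam * M' := by
    have h1 : 1 / t ≤ lam := by
      refine le_trans ?_ hl1
      gcongr
      norm_num
    have h3 : t * t ≤ (M' : ℝ) := by
      refine le_trans ?_ hM
      rw [two_mul, Real.exp_add]
      gcongr
    refine le_of_sq_le_sq ?_ (by positivity)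
    rw [mul_pow, sq (Real.sqrt lam), hsl]
    calc (2 : ℝ) ^ 2 ≤ (1 / t) * (t * t) * 1 := by
          field_simp
          linarith
      _ ≤ lam * M' * M' := by gcongr
      _ = lam * (M' : ℝ) ^ 2 := by ring
  refine ⟨hsM, ?_⟩
  have h1 : (⌊Real.sqrt lam * M'⌋₊ : ℝ) ≤ Real.sqrt lam * M' := Nat.floor_le (by positivity)
  have h2 : Real.sqrt lam * M' < ⌊Real.sqrt lam * M'⌋₊ + 1 := Nat.lt_floor_add_one _
  have h3 : lam * (M' : ℝ) ^ 2 = (Real.sqrt lam * M') ^ 2 := by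
    rw [mul_pow, sq (Real.sqrt lam), hsl]
  refine ⟨⌊Real.sqrt lam * M'⌋₊, h1, ?_, ?_, ?_⟩
  · rw [h3]
    have h5 : Real.sqrt lam * M' ≤ 2 * (⌊Real.sqrt lam * M'⌋₊ : ℝ) := by linarith
    calc (Real.sqrt lam * M') ^ 2 ≤ (2 * (⌊Real.sqrt lam * M'⌋₊ : ℝ)) ^ 2 :=
          pow_le_pow_left₀ (by positivity) h5 2
      _ = 4 * (⌊Real.sqrt lam * M'⌋₊ : ℝ) ^ 2 := by ring
  · rw [h3]
    gcongr
  · refine h1.trans ?_
    have h4 : Real.sqrt lam ≤ 1 := Real.sqrt_le_one.2 hlam1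
    nlinarith

/-- the numbers of the torus -/
theorem v_small {d M' : ℕ} {σ t μ L G Kε ε : ℝ} (hσ : σ ≠ 0) (hd : 3 ≤ d) (hL : 1 ≤ L)
    (hG : 1 ≤ G) (hKε : 1 ≤ Kε) (hμ0 : 0 < μ) (hμ : μ ≤ 12 * t) (ht : 0 < t)
    (hte : t ≤ Real.exp L) (h576 : 576 ≤ Real.exp L) (hM : Real.exp (60 * L) ≤ M')
    (hM1 : (1 : ℝ) ≤ M') (hε : ε ^ 2 = Kε * L * (σ ^ 2 * G)) :
    4 * σ ^ 2 * μ ^ 2 < ε ^ 2 * (M' : ℝ) ^ d := by
  have hσ2 : 0 < σ ^ 2 := by positivity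
  rw [hε]
  have h1 : (M' : ℝ) ≤ (M' : ℝ) ^ d := le_self_pow₀ hM1 (by omega)
  have h2 : 576 * (t * t) < M' := by
    calc 576 * (t * t) ≤ Real.exp L * (Real.exp L * Real.exp L) := by gcongr
      _ = Real.exp (3 * L) := by
        rw [← Real.exp_add, ← Real.exp_add]
        congr 1
        ring
      _ < Real.exp (60 * L) := Real.exp_lt_exp.2 (by linarith)
      _ ≤ M' := hM
  have h3 : 1 ≤ Kε * L * G := by
    have : 1 ≤ Kε * L := by nlinarith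
    nlinarith
  calc 4 * σ ^ 2 * μ ^ 2 ≤ 4 * σ ^ 2 * (12 * t) ^ 2 := by gcongr
    _ = σ ^ 2 * (576 * (t * t)) := by ring
    _ < σ ^ 2 * M' := by gcongr
    _ ≤ σ ^ 2 * (M' : ℝ) ^ d := by gcongr
    _ = 1 * (σ ^ 2 * (M' : ℝ) ^ d) := by ring
    _ ≤ (Kε * L * G) * (σ ^ 2 * (M' : ℝ) ^ d) := by gcongr
    _ = Kε * L * (σ ^ 2 * G) * (M' : ℝ) ^ d := by ring

/-- the energy -/
theorem l_bounds {lam μ w l : ℝ} (hl0 : 0 < lam) (hμ0 : 0 < μ) (hμl2 : 500 ≤ lam * μ)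
    (hw : |w - 1| ≤ 1 / 10) (hl : l = lam - 1 / (μ * w)) :
    9 / 10 ≤ w ∧ w ≤ 11 / 10 ∧ l ≤ lam ∧ lam / 2 ≤ l := by
  have hw1 : 9 / 10 ≤ w := by
    have := (abs_le.1 hw).1
    linarith
  have hw2 : w ≤ 11 / 10 := by
    have := (abs_le.1 hw).2
    linarith
  have hw0 : 0 < w := by linarith
  have h0 : 0 ≤ 1 / (μ * w) := by positivity
  have h1 : 1 / (μ * w) ≤ lam / 2 := by
    rw [div_le_div_iff₀ (by positivity) (by norm_num)]
    have h2 : lam * (μ * w) = (lam * μ) * w := by ring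
    rw [h2]
    nlinarith
  exact ⟨hw1, hw2, by linarith, by linarith⟩

/-- the numbers of the resolution -/
theorem eta_bounds {d : ℕ} {K₃ X lam L η cE K : ℝ} (hη : η = K₃ * X * lam * L ^ (d + 4))
    (hK₃ : 0 < K₃) (hX : 0 < X) (hl : 0 < lam) (hlam1 : lam ≤ 1) (hL : 1 ≤ L) (hcE : 0 < cE)
    (hcE1 : cE ≤ 1) (hK : 3 * K₃ / cE ≤ K) (hK0 : 0 ≤ K) (h : K * X * L ^ (2 * d + 10) ≤ 1) :
    0 < η ∧ η ≤ cE ∧ η ≤ lam / 2 ∧ η ≤ 1 := by
  have h1 := absorb (j := d + 4) hK hX.le hL (by omega) hK0 h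
  have hηl : η ≤ cE / 3 * lam := by
    calc η = (3 * K₃ / cE * X * L ^ (d + 4)) * (cE / 3 * lam) := by
          rw [hη]
          field_simp
      _ ≤ 1 * (cE / 3 * lam) := by gcongr
      _ = cE / 3 * lam := one_mul _
  have hη0 : 0 < η := by rw [hη]; positivity
  refine ⟨hη0, by nlinarith, by nlinarith, by nlinarith⟩

theorem log_eta {η L : ℝ} (hη0 : 0 < η) (hη1 : η ≤ 1) (hinv : 1 / η ≤ Real.exp (2 * L)) :
    Real.log (1 / η) ≤ 2 * L ∧ 0 ≤ Real.log (1 / η) := by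
  constructor
  · calc Real.log (1 / η) ≤ Real.log (Real.exp (2 * L)) := Real.log_le_log (by positivity) hinv
      _ = 2 * L := Real.log_exp _
  · exact Real.log_nonneg (by
      rw [le_div_iff₀ hη0]
      linarith)

theorem ceil_bounds {m L : ℝ} (hm : 1 ≤ m) (hL : 1 ≤ L) :
    ∃ k : ℕ, 1 ≤ k ∧ m * L ≤ k ∧ (k : ℝ) ≤ 2 * (m * L) := by
  have h0 : 1 ≤ m * L := by nlinarith
  have h1 : m * L ≤ (⌈m * L⌉₊ : ℝ) := Nat.le_ceil _
  have h2 : (⌈m * L⌉₊ : ℝ) < m * L + 1 := Nat.ceil_lt_add_one (by positivity)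
  refine ⟨⌈m * L⌉₊, ?_, h1, by linarith⟩
  have h3 : (1 : ℝ) ≤ (⌈m * L⌉₊ : ℝ) := h0.trans h1
  exact_mod_cast h3

theorem log_ns {t lam L : ℝ} {n : ℕ} (ht : 100 ≤ t) (hl0 : 0 < lam) (hl1 : 50 / t ≤ lam)
    (hlogt : Real.log t ≤ L) (hn1 : 1 ≤ n) (hn : (n : ℝ) ≤ 1 / lam) :
    (n : ℝ) ≤ t ∧ 1 + Real.log (1 / lam) ≤ L ∧ Real.log n ≤ L := by
  have ht0 : 0 < t := by linarith
  have hil : 1 / lam ≤ t := by
    rw [div_le_iff₀ hl0]
    rw [div_le_iff₀ ht0] at hl1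
    linarith
  have hn0 : (0 : ℝ) < n := by exact_mod_cast hn1
  refine ⟨hn.trans hil, ?_, (Real.log_le_log hn0 (hn.trans hil)).trans hlogt⟩
  have h1 : Real.log (1 / lam) ≤ Real.log (t / 3) := by
    refine Real.log_le_log (by positivity) ?_
    rw [div_le_div_iff₀ hl0 (by norm_num)]
    rw [div_le_iff₀ ht0] at hl1
    linarith
  rw [Real.log_div ht0.ne' (by norm_num)] at h1
  have h2 : 1 ≤ Real.log 3 := by
    rw [Real.le_log_iff_exp_le (by norm_num)]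
    have := Real.exp_one_lt_d9
    linarith
  linarith

/-- the probability of large values of the Green function -/
theorem gr_prob {d R : ℕ} {σ A₀ L a₀ : ℝ} (hL : 1 ≤ L)
    (hse : 1 / |σ| ≤ Real.exp L) (h24 : 24 ≤ Real.exp L) (ha₀ : a₀ = 10 * d + A₀ + 3)
    (hRu : (2 * R + 7 : ℝ) ≤ Real.exp (4 * L)) :
    (2 * (R : ℝ) + 3) ^ (2 * d) * (6 * (1 / |σ|) / Real.exp (a₀ * L)) ≤
      Real.exp (-(A₀ * L)) / 4 := by
  have h1 : (2 * (R : ℝ) + 3) ^ (2 * d) ≤ Real.exp (8 * d * L) := by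
    calc (2 * (R : ℝ) + 3) ^ (2 * d) ≤ (Real.exp (4 * L)) ^ (2 * d) := by
          gcongr
          linarith
      _ = Real.exp (8 * d * L) := by
          rw [← Real.exp_nat_mul]
          congr 1
          push_cast
          ring
  calc (2 * (R : ℝ) + 3) ^ (2 * d) * (6 * (1 / |σ|) / Real.exp (a₀ * L)) ≤
        Real.exp (8 * d * L) * (Real.exp L / 4 * Real.exp L / Real.exp (a₀ * L)) := by
        gcongr
        linarith
    _ = Real.exp (8 * d * L + L + L - a₀ * L) / 4 := by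
        rw [Real.exp_sub, Real.exp_add, Real.exp_add]
        ring
    _ ≤ Real.exp (-(A₀ * L)) / 4 := by
        have h3 : 8 * d * L + L + L - a₀ * L ≤ -(A₀ * L) := by
          rw [ha₀]
          have : 0 ≤ (d : ℝ) * L := by positivity
          nlinarith
        have h4 := Real.exp_le_exp.2 h3
        linarith

end Pool.Agent.LE.IR.H54
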