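import Pool.Agent.Helper54_LIR.CPEf

/-!
# CPE, part g: the events of the torus
-/

set_option autoImplicit false

open MeasureTheory ProbabilityTheory Function Filter

open scoped ENNReal BigOperators Topology NNReal

noncomputable section

namespace Pool.Agent.LE.IR.H54

open Pool.Agent.Anderson hiding box mem_box card_box
open Pool.Agent.Loc Pool.Agent.Mob Pool.Agent.Helper54.Bal
  Pool.Agent.Helper96.EXP Pool.Agent.BED
open Pool.Agent.LE.MN Pool.Agent.LE.CL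

/-- the probability part: flatness, the low frequency part, the Khintchine inequality -/
theorem ev_prob {d M' : ℕ} [NeZero M']
    {CF CK CB CS AT cT CT c₁ cE c₂ CE A₀ Kε m K₀ ct Q K₃ a₀ C₁ c₃ K : ℝ}
    (hcst : Cst d CF CK CB CS AT cT CT c₁ cE c₂ CE A₀ Kε m K₀ ct Q K₃ a₀ C₁ c₃ K) (hd : 3 ≤ d)
    (hCF : 1 ≤ CF) (hCK : 1 ≤ CK) (hCS : 1 ≤ CS) (hCE : 1 ≤ CE) (hA₀ : 1 ≤ A₀) (hKε : 1 ≤ Kε)
    (hcE : 0 < cE) (hcE1 : cE ≤ 1 / 50)
    (hflo : ∀ (M J : ℕ) [NeZero M] (v : ℝ≥0) (z μ ε p r q : ℝ),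
    0 < μ → 0 < ε → ε ≤ 1 / 50 → 0 < v → 0 ≤ p → 0 < r → r ≤ ε →
    gau d M v {V | ¬ FlatE ε z μ V} ≤ ENNReal.ofReal p →
    q = p + 2 * (M : ℝ) ^ d *
      Real.exp (-(r ^ 2 / (CF * v * ε ^ 2 * μ ^ 2 * ((low d M J).card / (M : ℝ) ^ d)))) →
    q ≤ 1 / 4 → 4 * v * μ ^ 2 < ε ^ 2 * (M : ℝ) ^ d →
      ∃ w : ℝ, |w - 1| ≤ 3 * ε ∧
        gau d M v {V | ¬ ∀ x, |lpf J (fun y => om z μ V y - w - gv (1 / μ) V y) x| ≤ r} ≤
          ENNReal.ofReal q)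
    (hkhl : ∀ (M J : ℕ) [NeZero M] (v : ℝ≥0) (w h lam l η τ r B : ℝ)
    (k : ℕ), 1 / 2 ≤ w → w ≤ 2 → 0 < h → h ≤ lam → lam ≤ 1200 * h →
    (J : ℝ) ^ 2 ≤ lam * (M : ℝ) ^ 2 → 0 < η → 0 < τ → 0 ≤ r → 1 ≤ k →
    pm (fun p => if p ∈ low d M J then (mt l η p)⁻¹ else 0) ≤ B →
      gau d M v {V | ¬ KE J (gv h V) w (h - 2 * lam * w) l η τ} ≤
        ENNReal.ofReal (2 * (M : ℝ) ^ d * Real.exp (-(r ^ 2 / 2)) +
          (2 * (J : ℝ) + 1) ^ d * (CK * k * r ^ 2 * v * B / (η * τ ^ 2)) ^ k))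
    (hsms : ∀ (M : ℕ) [NeZero M] (l η κ : ℝ), 0 < η → η ≤ l →
    4 * l ≤ κ → κ ≤ 1 → CS / η ≤ M →
      (η * (κ / l) ^ d ≤ l →
        pm (fun p : Tor d M => if ds p ≤ κ then (mt l η p ^ 2)⁻¹ else 0) ≤
          CS * l ^ (((d : ℝ) - 2) / 2) / η) ∧
      pm (fun p : Tor d M => if ds p ≤ κ then (mt l η p)⁻¹ else 0) ≤
        CS * κ ^ (((d : ℝ) - 2) / 2) * (1 + Real.log (1 / η)))
    {v : ℝ≥0} {σ t z μ ε₀ p lam L G P η τ ε : ℝ} (hσ : σ ≠ 0) (hv : (v : ℝ) = σ ^ 2)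
    (hn : NumB d M' K K₀ A₀ σ t μ ε₀ p lam L G P Kε cE cT)
    (hP : P = lam ^ (((d : ℝ) - 4) / 2)) {Js : ℕ} (hJs1 : (Js : ℝ) ≤ Real.sqrt lam * M')
    (hJ2 : 2 ≤ Real.sqrt lam * M')
    (hJs3 : (Js : ℝ) ^ 2 ≤ lam * (M' : ℝ) ^ 2) (hJsM : (Js : ℝ) ≤ M')
    (hflat : gau d M' v {V | ¬ FlatE ε z μ V} ≤ ENNReal.ofReal p)
    (hε : 0 < ε) (hεcE : ε ≤ cE) (hε2 : ε ^ 2 = Kε * L * (σ ^ 2 * G))
    (hη : η = K₃ * (σ ^ 2 * G) * lam * L ^ (d + 4)) (hη0 : 0 < η) (hηl : η ≤ lam / 2)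
    (hη1 : η ≤ 1) (hinv : 1 / η ≤ Real.exp (2 * L)) (hτ : 0 < τ) (hτ2 : τ ^ 2 = ct / L ^ d) :
    ∃ w r : ℝ, |w - 1| ≤ 3 * ε ∧ 0 ≤ r ∧ r ^ 2 ≤ Q * (σ ^ 2 * G * L) ^ 2 ∧
      ∀ l : ℝ, l = lam - 1 / (μ * w) →
        gau d M' v {V | ¬ (FlatE ε z μ V ∧
          (∀ x, |lpf (2 * Js) (fun y => om z μ V y - w - gv (1 / μ) V y) x| ≤ r) ∧
          KE Js (gv (1 / μ) V) w (1 / μ - 2 * lam * w) l η (τ / 4))} ≤
            ENNReal.ofReal (p + (p + Real.exp (-(A₀ * L)) / 4) + Real.exp (-(A₀ * L)) / 4) := by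
  have hσ2 : 0 < σ ^ 2 := by positivity
  have hL1 := hn.hL1
  have hL0 : 0 < L := by linarith only [hL1]
  have hG0 : 0 < G := by linarith only [hn.hG1]
  have hK100 := hcst.hK100
  have hK0 : 0 ≤ K := by linarith only [hK100]
  have hm1 := hcst.hm0
  have hm0 : 0 < m := by linarith only [hm1]
  have hl0 := hn.hl0
  have hμ0 := hn.hμ0
  have hKe := hn.hKe
  have hd1 : 1 ≤ d := by omega
  have hd' : (3 : ℝ) ≤ d := by exact_mod_cast hd
  have k11 := hcst.k11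
  have heL : 576 ≤ Real.exp L := by linarith only [k11, hKe, hCE, hCS]
  have heL2 : Real.exp L ≤ Real.exp (2 * L) := Real.exp_le_exp.2 (by linarith only [hL1])
  have hD := dens_low (d := d) (M := M') (J := Js) hl0 hJs1 (by linarith only [hJ2])
  rw [← hP] at hD
  set D : ℝ := ((low d M' (2 * Js)).card : ℝ) / (M' : ℝ) ^ d with hDdef
  have hv0 : 0 < v := by
    have : (0 : ℝ) < v := by rw [hv]; exact hσ2
    exact_mod_cast this
  have hA5 : 5 ≤ Real.exp (A₀ * L) := by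
    have h1 : L ≤ A₀ * L := by nlinarith only [hA₀, hL0]
    have h2 := Real.exp_le_exp.2 h1
    linarith only [h2, heL]
  have h2d : (2 : ℝ) ^ (d + 4) * 3 ^ d ≤ Real.exp (2 * L) := by
    linarith only [hcst.k12, hKe, heL2]
  have h2d3 : (2 : ℝ) ^ (d + 3) ≤ Real.exp (2 * L) := by
    refine le_trans ?_ h2d
    have h1 : (1 : ℝ) ≤ 3 ^ d := one_le_pow₀ (by norm_num)
    have h2 : (2 : ℝ) ^ (d + 3) ≤ 2 ^ (d + 4) := pow_le_pow_right₀ (by norm_num) (by omega)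
    have h3 : (0 : ℝ) ≤ 2 ^ (d + 4) := by positivity
    nlinarith only [h1, h2, h3]
  have hrc : m * L * (CF * v * μ ^ 2 * ((low d M' (2 * Js)).card / (M' : ℝ) ^ d)) ≤ 1 := by
    rw [hv]
    have h1 := c_r1 (d := d) (m := m) (L := L) (CF := CF) (σ := σ) (G := G) (μ := μ) (D := D)
      (P := P) (lam := lam) hm0.le hL0.le (by linarith only [hCF]) hG0.le hn.hPG hD hμ0.le hl0.le
      hn.hμl
    have h2 := absorb (j := 1) hcst.k1 hn.hX0.le hL1 (by omega) hK0 hn.hS1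
    rw [pow_one] at h2
    exact h1.trans h2
  have ht0 : 0 < t := by linarith only [hn.ht100]
  have hv2 : 4 * v * μ ^ 2 < ε ^ 2 * (M' : ℝ) ^ d := by
    rw [hv]
    exact v_small hσ hd hL1 hn.hG1 hKε hμ0 hn.hμt ht0 hn.hte heL hn.hMe hn.hM0 hε2
  obtain ⟨w, r, hw, hr0, hr2, hwP⟩ := flo_app hCF hflo M' (2 * Js) v z μ ε p L m K₀ A₀ hμ0 hε
    (hεcE.trans hcE1) hv0 hn.hp hL0 hcst.hm hn.hM2 h2d3 hA5 hm0 hn.hpA hflat hrc hv2
  have hr2' : r ^ 2 ≤ Q * (σ ^ 2 * G * L) ^ 2 := by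
    rw [hr2, hv, hcst.hQ]
    exact c_r hm0.le hL0.le (by linarith only [hCF]) (by linarith only [hKε]) hG0.le hn.hPG hD
      hε2 hμ0.le hl0.le hn.hμl
  refine ⟨w, r, hw, hr0, hr2', fun l hl => ?_⟩
  have hw10 : |w - 1| ≤ 1 / 10 := by linarith only [hw, hεcE, hcE1]
  obtain ⟨hw1, hw2, hl_le, hl_ge⟩ := l_bounds hl0 hμ0 hn.hμl2 hw10 hl
  obtain ⟨hlogη, hlogη0⟩ := log_eta hη0 hη1 hinv
  obtain ⟨kk, hkk0, hkk1, hkk2⟩ := ceil_bounds hm1 hL1
  set B : ℝ := CS * (40 * d * lam) ^ (((d : ℝ) - 2) / 2) * (1 + Real.log (1 / η)) with hB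
  have hB0 : 0 ≤ B := by positivity
  have hPlam : 0 ≤ P := hn.hP0
  have hBle : B ≤ CS * (40 * d) ^ d * (G * lam) * (3 * L) := by
    rw [hB, Real.mul_rpow (by positivity) hl0.le, pw_mul hl0, ← hP]
    have h1 : (40 * (d : ℝ)) ^ (((d : ℝ) - 2) / 2) ≤ (40 * (d : ℝ)) ^ d := by
      rw [← Real.rpow_natCast]
      exact Real.rpow_le_rpow_of_exponent_le (by linarith only [hd']) (by linarith only [hd'])
    have h2 : 1 + Real.log (1 / η) ≤ 3 * L := by linarith only [hlogη, hL1]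
    have h3 := hn.hPG
    calc CS * ((40 * (d : ℝ)) ^ (((d : ℝ) - 2) / 2) * (P * lam)) * (1 + Real.log (1 / η)) ≤
          CS * ((40 * (d : ℝ)) ^ d * (G * lam)) * (3 * L) := by gcongr
      _ = CS * (40 * d) ^ d * (G * lam) * (3 * L) := by ring
  have hCSM : CS / η ≤ M' := by
    calc CS / η = CS * (1 / η) := by ring
      _ ≤ Real.exp L * Real.exp (2 * L) := by
          gcongr
          linarith only [k11, hKe, hCE]
      _ = Real.exp (3 * L) := by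
          rw [← Real.exp_add]
          congr 1
          ring
      _ ≤ Real.exp (60 * L) := Real.exp_le_exp.2 (by linarith only [hL0])
      _ ≤ M' := hn.hMe
  have hpm : pm (fun q : Tor d M' => if q ∈ low d M' Js then (mt l η q)⁻¹ else 0) ≤ B := by
    refine pm_low_le hη0 hJs3 ?_
    refine (hsms M' l η (40 * d * lam) hη0 (by linarith only [hηl, hl_ge]) ?_ hn.hl40 hCSM).2
    nlinarith only [hl_le, hd', hl0]
  have hsq : Real.sqrt (2 * (m * L)) ^ 2 = 2 * (m * L) := Real.sq_sqrt (by positivity)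
  have hkhl' : gau d M' v {V | ¬ KE Js (gv (1 / μ) V) w (1 / μ - 2 * lam * w) l η (τ / 4)} ≤
      ENNReal.ofReal (Real.exp (-(A₀ * L)) / 4) := by
    have hμl := hn.hμl
    have hμl2 := hn.hμl2
    have h1 := hkhl M' Js v w (1 / μ) lam l η (τ / 4) (Real.sqrt (2 * (m * L))) B kk
      (by linarith only [hw1]) (by linarith only [hw2]) (by positivity)
      (by rw [div_le_iff₀ hμ0]; linarith only [hμl2])
      (by rw [mul_one_div, le_div_iff₀ hμ0]; linarith only [hμl]) hJs3 hη0 (by positivity)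
      (Real.sqrt_nonneg _) hkk0 hpm
    refine h1.trans (ENNReal.ofReal_le_ofReal ?_)
    refine khl_num hcst.hm hn.hM2 h2d hsq hkk1 ?_ ?_ hJsM hn.hM0
    · positivity
    · have h2 := c_k (d := d) (k := kk) (K₃ := K₃) (σ := σ) (G := G) (lam := lam) (L := L)
        (η := η) (ct := ct) (CK := CK) (CS := CS) (m := m) (B := B)
        (r2 := Real.sqrt (2 * (m * L)) ^ 2) (τ2 := (τ / 4) ^ 2) hη hσ hG0 hl0 hL1 hcst.hct0
        (by linarith only [hCK]) (by linarith only [hCS]) hm0.le hkk2 hsq hcst.hK₃1 hBle hB0 (by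
          rw [div_pow, hτ2]
          norm_num) hcst.r3
      rw [hv]
      refine h2.trans ?_
      rw [Real.exp_neg]
      rw [one_div]
      refine inv_anti₀ (Real.exp_pos _) ?_
      have := Real.exp_one_lt_d9
      linarith only [this]
  have hA0 : 0 < Real.exp (-(A₀ * L)) := Real.exp_pos _
  have hp := hn.hp
  exact gau3 (v := v) (fun V : Tor d M' → ℝ => FlatE ε z μ V)
    (fun V => ∀ x, |lpf (2 * Js) (fun y => om z μ V y - w - gv (1 / μ) V y) x| ≤ r)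
    (fun V => KE Js (gv (1 / μ) V) w (1 / μ - 2 * lam * w) l η (τ / 4)) hp
    (by positivity) (by positivity) hflat hwP hkhl'

end Pool.Agent.LE.IR.H54
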