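import Pool.Agent.LE.StmtsJ
import Pool.Agent.Helper93_LSF.Main
import Pool.Agent.Helper54_BED.LA

/-!
# The intermediate region: comparison of the effective edges
-/

set_option autoImplicit false

open MeasureTheory ProbabilityTheory Function Filter

open scoped ENNReal BigOperators Topology NNReal Matrix

noncomputable section

namespace Pool.Agent.LE.IR.H54

open Pool.Agent.Anderson Pool.Agent.Loc Pool.Agent.Mob Pool.Agent.Helper54.Bal Pool.Agent.BED
  Pool.Agent.LE.H93W Pool.Agent.LE.H93Z Pool.Agent.LE.H93F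

/-- two effective edges of the same potential -/
theorem flat_cmp {d M : ℕ} [NeZero M] {ε z μ ε' z' μ' : ℝ} {V : Tor d M → ℝ}
    (h : FlatE ε z μ V) (h' : FlatE ε' z' μ' V) (hμ : 0 < μ) (hμμ : μ ≤ μ') (hε : ε ≤ 1 / 50)
    (hε' : ε' ≤ 1 / 50) : |z - z'| ≤ 11 / 10 / μ := by
  obtain ⟨-, hA, hf⟩ := h
  obtain ⟨-, hA', hg⟩ := h'
  set f : Tor d M → ℝ := DD z V with hfdef
  set g : Tor d M → ℝ := DD z' V with hgdef
  have hμ'0 : 0 < μ' := by linarith
  have e1 : AM z V *ᵥ f = 1 := AM_DD hA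
  have e2 : AM z' V *ᵥ g = 1 := AM_DD hA'
  have e3 : ∀ x, (AM z V *ᵥ g) x = 1 - (z' - z) * g x := by
    intro x
    have h1 := congrFun e2 x
    rw [AM_mulVec] at h1 ⊢
    simp only [Pi.one_apply] at h1
    linear_combination h1
  have e4 := sum_mul_mulVec_comm (A := AM z V) (AM_symm z V) f g
  have e5 : (z' - z) * ∑ x, f x * g x = ∑ x, f x - ∑ x, g x := by
    have h1 : ∑ x, f x * (AM z V *ᵥ g) x = ∑ x, f x - (z' - z) * ∑ x, f x * g x := by
      rw [Finset.mul_sum, ← Finset.sum_sub_distrib]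
      refine Finset.sum_congr rfl fun x _ => ?_
      rw [e3]
      ring
    have h2 : ∑ x, g x * (AM z V *ᵥ f) x = ∑ x, g x := by
      refine Finset.sum_congr rfl fun x _ => ?_
      rw [e1]
      simp
    have h3 : ∑ x, f x * (AM z V *ᵥ g) x = ∑ x, g x * (AM z V *ᵥ f) x := by
      first
        | exact e4
        | (rw [e4]; refine Finset.sum_congr rfl fun x _ => ?_; ring)
    linarith
  set N : ℝ := (Fintype.card (Tor d M) : ℝ) with hN
  have hN0 : 0 < N := by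
    rw [hN]
    exact_mod_cast Fintype.card_pos
  have hf1 : ∀ x, 49 / 50 * μ ≤ f x ∧ f x ≤ 51 / 50 * μ := by
    intro x
    have h1 := abs_le.1 (hf x)
    have h2 : ε * μ ≤ 1 / 50 * μ := by gcongr
    constructor <;> linarith [h1.1, h1.2]
  have hg1 : ∀ x, 49 / 50 * μ' ≤ g x ∧ g x ≤ 51 / 50 * μ' := by
    intro x
    have h1 := abs_le.1 (hg x)
    have h2 : ε' * μ' ≤ 1 / 50 * μ' := by gcongr
    constructor <;> linarith [h1.1, h1.2]
  have hS : N * ((49 / 50 * μ) * (49 / 50 * μ')) ≤ ∑ x, f x * g x := by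
    have h1 : ∑ _x : Tor d M, (49 / 50 * μ) * (49 / 50 * μ') ≤ ∑ x, f x * g x := by
      refine Finset.sum_le_sum fun x _ => ?_
      have h2 := (hf1 x).1
      have h3 := (hg1 x).1
      have h4 : 0 < 49 / 50 * μ := by positivity
      have h5 : 0 < 49 / 50 * μ' := by positivity
      exact mul_le_mul h2 h3 h5.le (h4.le.trans h2)
    rwa [Finset.sum_const, Finset.card_univ, nsmul_eq_mul] at h1
  have hD : |∑ x, f x - ∑ x, g x| ≤ N * (51 / 50 * μ') := by
    rw [← Finset.sum_sub_distrib]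
    refine (Finset.abs_sum_le_sum_abs _ _).trans ?_
    have h1 : ∑ x, |f x - g x| ≤ ∑ _x : Tor d M, (51 / 50 * μ') := by
      refine Finset.sum_le_sum fun x _ => ?_
      have h2 := hf1 x
      have h3 := hg1 x
      rw [abs_le]
      constructor <;> linarith [h2.1, h2.2, h3.1, h3.2]
    rwa [Finset.sum_const, Finset.card_univ, nsmul_eq_mul] at h1
  have h1 : |z - z'| * (N * ((49 / 50 * μ) * (49 / 50 * μ'))) ≤ N * (51 / 50 * μ') := by
    calc |z - z'| * (N * ((49 / 50 * μ) * (49 / 50 * μ'))) ≤ |z - z'| * ∑ x, f x * g x := by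
          gcongr
      _ = |(z' - z) * ∑ x, f x * g x| := by
          have h6 : 0 ≤ ∑ x, f x * g x := le_trans (by positivity) hS
          rw [abs_mul, abs_of_nonneg h6, abs_sub_comm]
      _ ≤ N * (51 / 50 * μ') := by rw [e5]; exact hD
  rw [le_div_iff₀ hμ]
  have h2 : |z - z'| * μ * (N * μ' * (49 / 50) ^ 2) ≤ (51 / 50) * (N * μ') := by
    calc |z - z'| * μ * (N * μ' * (49 / 50) ^ 2) =
          |z - z'| * (N * ((49 / 50 * μ) * (49 / 50 * μ'))) := by ring
      _ ≤ N * (51 / 50 * μ') := h1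
      _ = (51 / 50) * (N * μ') := by ring
  have h3 : 0 < N * μ' := by positivity
  have h4 : |z - z'| * μ * (49 / 50) ^ 2 ≤ 51 / 50 := by
    refine le_of_mul_le_mul_right ?_ h3
    calc |z - z'| * μ * (49 / 50) ^ 2 * (N * μ') =
          |z - z'| * μ * (N * μ' * (49 / 50) ^ 2) := by ring
      _ ≤ _ := h2
  norm_num at h4 ⊢
  linarith

/-- the asymptotics above the effective edge, on a general torus -/
def AsyStmt : Prop :=
  ∀ d : ℕ, 3 ≤ d → ∃ (e c C : ℝ) (N : ℕ), 0 < e ∧ e ≤ 1 / 50 ∧ 0 < c ∧ 1 ≤ C ∧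
    ∀ (M' : ℕ) (v : ℝ≥0) (σ t z μ p : ℝ), σ ≠ 0 → |σ| ≤ 1 → (v : ℝ) = σ ^ 2 → 1 / |σ| ≤ t →
      C ≤ t → |z| ≤ 2 * d + 1 → 9 * (1 / e * t) ≤ μ → 1 / e * t + 3 ≤ M' →
      (∀ _ : NeZero M', gau d M' v {V | ¬ FlatE e z μ V} ≤ ENNReal.ofReal p) → 0 ≤ p →
      p ≤ 1 / (1 / e * t) ^ N → ∀ E g : ℝ, z + 1 / t ≤ E → E ≤ z + c → LyaAt d σ E g →
        1 / 2 * Real.sqrt (E - z) ≤ g ∧ g ≤ 3 / 2 * Real.sqrt (E - z)

theorem asy (sgx : SgxStmt) (sms : Pool.Agent.LE.SmsStmt) (cdp : CdpStmt) (upx : UpxStmt) :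
    AsyStmt := by
  intro d hd3
  have hd : 1 ≤ d := by omega
  obtain ⟨ε, hεdef⟩ : ∃ ε : ℝ, ε = 1 / 2 := ⟨_, rfl⟩
  have hε : 0 < ε := by rw [hεdef]; norm_num
  obtain ⟨CP, hCP, hcdp'⟩ := cdp d hd
  obtain ⟨e, hedef⟩ : ∃ e : ℝ, e = min (min (ε / 4) (ε / (CP + 4))) (min (1 / 50) (1 / CP)) :=
    ⟨_, rfl⟩
  have he0 : 0 < e := by rw [hedef]; positivity
  have he4 : 4 * e ≤ ε := by
    have : e ≤ ε / 4 := by rw [hedef]; exact (min_le_left _ _).trans (min_le_left _ _)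
    linarith
  have heC : e * (CP + 4) ≤ ε := by
    have : e ≤ ε / (CP + 4) := by rw [hedef]; exact (min_le_left _ _).trans (min_le_right _ _)
    rwa [le_div_iff₀ (by positivity)] at this
  have he50 : e ≤ 1 / 50 := by
    rw [hedef]; exact (min_le_right _ _).trans (min_le_left _ _)
  have heCP : CP * e ≤ 1 := by
    have : e ≤ 1 / CP := by rw [hedef]; exact (min_le_right _ _).trans (min_le_right _ _)
    rw [le_div_iff₀ (by positivity)] at this
    linarith
  obtain ⟨A, p₀, hA, hp₀, hsms⟩ := sms d e hd he0 (by linarith)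
  obtain ⟨C2, hC2, hcdp⟩ := hcdp' e he0 he50 heCP
  obtain ⟨A2, CU, hA2, hCU, hupx⟩ := upx d hd
  obtain ⟨N, hN⟩ := exists_nat_ge A2
  have hA20 : 0 ≤ A2 := by linarith only [hA2]
  have hloge : 0 ≤ Real.log (1 / e) := Real.log_nonneg (by
    rw [le_div_iff₀ he0]; linarith)
  have hlog2e : 0 ≤ Real.log (2 / e) := Real.log_nonneg (by
    rw [le_div_iff₀ he0]; linarith)
  obtain ⟨b1, hb1⟩ : ∃ x : ℝ, x = 16 * (Real.log (2 / e) + 1) := ⟨_, rfl⟩
  obtain ⟨b2, hb2⟩ : ∃ x : ℝ, x = A * (4 + Real.log (2 / e)) := ⟨_, rfl⟩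
  obtain ⟨b3, hb3⟩ : ∃ x : ℝ, x = C2 * (4 + Real.log (1 / e)) := ⟨_, rfl⟩
  obtain ⟨b4, hb4⟩ : ∃ x : ℝ, x = 2 * (N + 5 : ℝ) * (Real.log (1 / e) + 1) := ⟨_, rfl⟩
  have hb10 : 0 ≤ b1 := by rw [hb1]; positivity
  have hb20 : 0 ≤ b2 := by rw [hb2]; positivity
  have hb30 : 0 ≤ b3 := by rw [hb3]; positivity
  have hb40 : 0 ≤ b4 := by rw [hb4]; positivity
  obtain ⟨T₀, hT₀, hlogT⟩ := log_le_sqrt (b1 + b2 + b3 + b4 + 480 + 40 * C2)
  have hT₀0 : 0 < T₀ := by linarith
  obtain ⟨CC, hCC⟩ : ∃ x : ℝ, x = 50 + 1 / e + T₀ + 2 * CU + 1 / p₀ := ⟨_, rfl⟩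
  have hie : 0 < 1 / e := by positivity
  have hip : 0 < 1 / p₀ := by positivity
  refine ⟨e, e, CC, N + 5, he0, he50, he0, by rw [hCC]; linarith, ?_⟩
  intro M' v σ t z μ p hσ hσ1 hv hσt hCt hz1 hμT hM hflat hp0 hp E g hE hE2 hg
  rw [hCC] at hCt
  have ht50 : 50 ≤ t := by linarith
  have ht0 : 0 < t := by linarith
  have htT : T₀ ≤ t := by linarith
  have htU : 2 * CU ≤ t := by linarith
  have hte : 1 / e ≤ t := by linarith
  have htp : 1 / p₀ ≤ t := by linarith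
  have h1te : 1 / t ≤ e := by
    rw [div_le_iff₀ ht0]
    rw [div_le_iff₀ he0] at hte
    linarith
  have hlogt : 0 ≤ Real.log t := Real.log_nonneg (by linarith)
  have hbig2 := hlogT t htT
  have hsq0 := Real.sqrt_nonneg t
  have hb : ∀ b : ℝ, b ≤ b1 + b2 + b3 + b4 + 480 + 40 * C2 → b * (1 + Real.log t) ≤ Real.sqrt t :=
    fun b hb => (mul_le_mul_of_nonneg_right hb (by linarith)).trans hbig2
  have hC20 : 0 ≤ 40 * C2 := by linarith
  have r1 : 16 * (Real.log (2 / e) + Real.log t) ≤ Real.sqrt t := by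
    refine le_trans ?_ (hb b1 (by linarith only [hb20, hb30, hb40, hC20]))
    rw [hb1, mul_assoc]
    exact mul_le_mul_of_nonneg_left (aux1 hlog2e hlogt) (by norm_num)
  have r2 : A * (1 + Real.log (2 / e) + 3 * Real.log t) ≤ Real.sqrt t := by
    refine le_trans ?_ (hb b2 (by linarith only [hb10, hb30, hb40, hC20]))
    rw [hb2, mul_assoc]
    refine mul_le_mul_of_nonneg_left ?_ (by linarith only [hA])
    have := aux2 hlog2e hlogt
    linarith only [this]
  have r3 : C2 * (4 + Real.log (1 / e) + 3 * Real.log t) ≤ Real.sqrt t := by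
    refine le_trans ?_ (hb b3 (by linarith only [hb10, hb20, hb40, hC20]))
    rw [hb3, mul_assoc]
    exact mul_le_mul_of_nonneg_left (aux2 hloge hlogt) (by linarith only [hC2])
  have r4 : 2 * (N + 5 : ℝ) * (Real.log (1 / e) + Real.log t) ≤ Real.sqrt t := by
    refine le_trans ?_ (hb b4 (by linarith only [hb10, hb20, hb30, hC20]))
    rw [hb4, mul_assoc (2 * (N + 5 : ℝ))]
    exact mul_le_mul_of_nonneg_left (aux1 hloge hlogt) (by positivity)
  have r5 : 40 * (12 + Real.log t) ≤ Real.sqrt t := by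
    refine le_trans ?_ (hb 480 (by linarith only [hb10, hb20, hb30, hb40, hC20]))
    linarith only [hlogt]
  have r6 : 40 * (C2 * (1 + Real.log t)) ≤ Real.sqrt t := by
    refine le_trans (le_of_eq ?_) (hb (40 * C2) (by linarith only [hb10, hb20, hb30, hb40]))
    ring
  obtain ⟨T, hT⟩ : ∃ T : ℝ, T = 1 / e * t := ⟨_, rfl⟩
  have hTt : t ≤ T := by
    have h7 : (1 : ℝ) ≤ 1 / e := by
      rw [le_div_iff₀ he0]; linarith
    rw [hT]
    nlinarith
  have hT1 : 1 ≤ T := by linarith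
  have hz3 : z ≤ 2 * d + 1 := (le_abs_self z).trans hz1
  have hμ0 : 0 < μ := lt_of_lt_of_le (by positivity) hμT
  have hpp0 : p ≤ p₀ := by
    refine hp.trans ?_
    rw [← hT]
    have h1 : 1 / T ^ (N + 5) ≤ 1 / T ^ 1 :=
      one_div_le_one_div_of_le (by positivity) (pow_le_pow_right₀ hT1 (by omega))
    refine h1.trans ?_
    rw [pow_one, div_le_iff₀ (by linarith)]
    rw [div_le_iff₀ hp₀] at htp
    nlinarith
  have hM0 : (0 : ℝ) < M' := lt_of_lt_of_le (by positivity) hM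
  have hne : NeZero M' := ⟨by
    rintro rfl
    simp at hM0⟩
  have hflatF : gau d M' v {V | ¬ Flat z μ V} ≤ ENNReal.ofReal p := by
    refine (measure_mono ?_).trans (hflat hne)
    intro V hV hcon
    refine hV ⟨hcon.1, hcon.2.1, fun x => (hcon.2.2 x).trans ?_⟩
    have := mul_le_mul_of_nonneg_right he50 hμ0.le
    linarith
  have h1t0 : 0 < 1 / t := by positivity
  have hlam : 0 < E - z := by linarith only [hE, h1t0]
  have hs := Real.sqrt_nonneg (E - z)
  have hp' : p ≤ 1 / (1 / e * t) ^ (N + 5) := hp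
  constructor
  · have hlow := lowZ sgx hd he0 he50 hA hsms hσ hσ1 hv hμ0 hz3 hflatF hpp0
      hσt (by linarith) h1te hM r1 r2 hE hg
    refine le_trans ?_ hlow
    rw [min_eq_left (by linarith only [hE2]), ← mul_assoc]
    refine mul_le_mul_of_nonneg_right ?_ hs
    have := aux4 he0 he4
    rw [hεdef] at this
    linarith
  · have hE3 : E ≤ z + 1 / 2 := by linarith only [hE2, he50]
    have h0 := upZ hd he0 he50 hCP hC2 hN hA20 hCU hcdp hupx hσ hσ1 hv hz3 hz1 hμT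
      hflat hσt (by linarith) hM hp0 hp' htU r3 r4 r5 r6 hE hE3 hg
    refine h0.trans ?_
    rw [← mul_assoc]
    refine mul_le_mul_of_nonneg_right ?_ hs
    have := aux5 he0 he50 heCP heC
    rw [hεdef] at this
    linarith

end Pool.Agent.LE.IR.H54
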