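import Pool.Agent.Helper54_LIR.INTa
import Pool.Agent.Helper54_LIR.CPEf

/-!
# The intermediate region: inequalities
-/

set_option autoImplicit false

open MeasureTheory ProbabilityTheory Function Filter

open scoped ENNReal BigOperators Topology NNReal Matrix

noncomputable section

namespace Pool.Agent.LE.IR.H54

open Pool.Agent.Anderson Pool.Agent.Loc Pool.Agent.Mob Pool.Agent.Helper54.Bal Pool.Agent.BED
  Pool.Agent.LE.H93W Pool.Agent.LE.H93Z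

theorem close1_asy {d : ℕ} {σ a b u c c' : ℝ}
    (hA : ∀ E g : ℝ, a + u ≤ E → E ≤ a + c → LyaAt d σ E g →
      1 / 2 * Real.sqrt (E - a) ≤ g ∧ g ≤ 3 / 2 * Real.sqrt (E - a))
    (hB : ∀ E g : ℝ, b + u ≤ E → E ≤ b + c' → LyaAt d σ E g →
      1 / 2 * Real.sqrt (E - b) ≤ g ∧ g ≤ 3 / 2 * Real.sqrt (E - b))
    (hu : 0 < u) (hc : |a - b| + u ≤ c) (hc' : u ≤ c')
    (hex : ∀ E, ∃ g, LyaAt d σ E g) : b - a ≤ 8 * u := by
  by_contra hcon
  push Not at hcon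
  obtain ⟨g, hg⟩ := hex (b + u)
  have h1 := (hB (b + u) g le_rfl (by linarith) hg).2
  have h2 := neg_abs_le (a - b)
  have h3 := (hA (b + u) g (by linarith) (by linarith) hg).1
  have e1 : b + u - b = u := by ring
  rw [e1] at h1
  have hs : 0 < Real.sqrt u := Real.sqrt_pos.2 hu
  have h5 : 3 * Real.sqrt u < Real.sqrt (b + u - a) := by
    have e2 : 3 * Real.sqrt u = Real.sqrt (9 * u) := by
      rw [Real.sqrt_mul (by norm_num)]
      congr 1
      rw [show (9 : ℝ) = 3 ^ 2 by norm_num, Real.sqrt_sq (by norm_num)]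
    rw [e2]
    exact Real.sqrt_lt_sqrt (by positivity) (by linarith)
  linarith

theorem close_asy {d : ℕ} {σ a b u c c' : ℝ}
    (hA : ∀ E g : ℝ, a + u ≤ E → E ≤ a + c → LyaAt d σ E g →
      1 / 2 * Real.sqrt (E - a) ≤ g ∧ g ≤ 3 / 2 * Real.sqrt (E - a))
    (hB : ∀ E g : ℝ, b + u ≤ E → E ≤ b + c' → LyaAt d σ E g →
      1 / 2 * Real.sqrt (E - b) ≤ g ∧ g ≤ 3 / 2 * Real.sqrt (E - b))
    (hu : 0 < u) (hc : |a - b| + u ≤ c) (hc' : |a - b| + u ≤ c')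
    (hex : ∀ E, ∃ g, LyaAt d σ E g) : |a - b| ≤ 8 * u := by
  have h0 := abs_nonneg (a - b)
  rw [abs_le]
  constructor
  · have := close1_asy hA hB hu hc (by linarith) hex
    linarith
  · have := close1_asy hB hA hu (by rw [abs_sub_comm]; exact hc') (by linarith) hex
    linarith

theorem growth_le_self (d : ℕ) {s : ℝ} (hs : 1 ≤ s) : growth d s ≤ s := by
  unfold growth
  split_ifs
  · rw [Real.sqrt_le_left (by linarith)]
    nlinarith
  · have := Real.log_le_sub_one_of_pos (show 0 < s by linarith)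
    linarith
  · exact hs

theorem pwD {d : ℕ} {D : ℝ} (hd : 3 ≤ d) (hD : 0 < D) (hD1 : D ≤ 1) :
    D ^ (((d : ℝ) - 4) / 2) ≤ growth d (1 / D) := by
  have h1 : 1 ≤ 1 / D := by
    rw [le_div_iff₀ hD]
    linarith
  refine le_trans (le_of_eq ?_) (Pool.Agent.BED.H15.growth_ge hd h1).2
  rw [← Real.rpow_add (by positivity), one_div, Real.inv_rpow hD.le, ← Real.rpow_neg hD.le]
  congr 1
  ring

theorem pw_cmp {d : ℕ} {D lam : ℝ} (hd : 3 ≤ d) (hD : 0 < D) (h1 : D / 2 ≤ lam)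
    (h2 : lam ≤ 2 * D) :
    D ^ (((d : ℝ) - 4) / 2) / 2 ^ d ≤ lam ^ (((d : ℝ) - 4) / 2) := by
  have hl : 0 < lam := by linarith
  have hdR : (3 : ℝ) ≤ d := by exact_mod_cast hd
  by_cases h4 : 4 ≤ d
  · have h4' : (4 : ℝ) ≤ d := by exact_mod_cast h4
    have h3 : (D / 2) ^ (((d : ℝ) - 4) / 2) ≤ lam ^ (((d : ℝ) - 4) / 2) :=
      Real.rpow_le_rpow (by positivity) h1 (by linarith)
    refine le_trans ?_ h3
    rw [Real.div_rpow hD.le (by norm_num)]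
    have h5 : (2 : ℝ) ^ (((d : ℝ) - 4) / 2) ≤ 2 ^ d := by
      rw [← Real.rpow_natCast]
      exact Real.rpow_le_rpow_of_exponent_le (by norm_num) (by linarith)
    gcongr
  · have h3 : d = 3 := by omega
    subst h3
    have h3 : (2 * D) ^ ((((3 : ℕ) : ℝ) - 4) / 2) ≤ lam ^ ((((3 : ℕ) : ℝ) - 4) / 2) :=
      Real.rpow_le_rpow_of_nonpos hl h2 (by norm_num)
    refine le_trans ?_ h3
    rw [Real.mul_rpow (by norm_num) hD.le, div_eq_inv_mul]
    have h5 : ((2 : ℝ) ^ 3)⁻¹ ≤ 2 ^ ((((3 : ℕ) : ℝ) - 4) / 2) := by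
      rw [← Real.rpow_natCast, ← Real.rpow_neg (by norm_num)]
      exact Real.rpow_le_rpow_of_exponent_le (by norm_num) (by norm_num)
    gcongr

/-- the size of the torus -/
theorem exists_torus {x K₀ : ℝ} (hx : 1 ≤ x) (hK₀ : 1 ≤ K₀) :
    ∃ M : ℕ, x ^ K₀ ≤ M ∧ (M : ℝ) ≤ 2 * x ^ K₀ ∧ x ≤ M := by
  have h1 : x ≤ x ^ K₀ := by
    conv_lhs => rw [← Real.rpow_one x]
    exact Real.rpow_le_rpow_of_exponent_le hx hK₀
  have h2 : x ^ K₀ ≤ (⌈x ^ K₀⌉₊ : ℝ) := Nat.le_ceil _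
  have h3 : (⌈x ^ K₀⌉₊ : ℝ) < x ^ K₀ + 1 := Nat.ceil_lt_add_one (by linarith)
  exact ⟨⌈x ^ K₀⌉₊, h2, by linarith, h1.trans h2⟩

/-- the probability of flatness -/
theorem p_bound {d M : ℕ} {C0 c0 K₀ L₁ L₂ y q T : ℝ} (hC0 : 0 < C0) 
    (hM : (M : ℝ) ≤ 2 * Real.exp (K₀ * L₁)) (hT : 1 ≤ T) (hTL : Real.log T ≤ L₂)
    (hC : C0 * 2 ^ d ≤ Real.exp L₂) (hy : q + 2 * L₂ + d * (K₀ * L₁) ≤ c0 / y) :
    C0 * (1 + Real.log T) * (M : ℝ) ^ d * Real.exp (-c0 / y) ≤ Real.exp (-q) := by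
  have ht0 : 0 < T := by linarith
  have h1 : 1 + Real.log T ≤ Real.exp L₂ := by
    have := Real.add_one_le_exp L₂
    linarith
  have h0 : 0 ≤ 1 + Real.log T := by
    have := Real.log_nonneg hT
    linarith
  have h2 : (M : ℝ) ^ d ≤ 2 ^ d * Real.exp (d * (K₀ * L₁)) := by
    calc (M : ℝ) ^ d ≤ (2 * Real.exp (K₀ * L₁)) ^ d := by gcongr
      _ = 2 ^ d * Real.exp (d * (K₀ * L₁)) := by rw [mul_pow, ← Real.exp_nat_mul]
  have h3 : Real.exp (-c0 / y) ≤ Real.exp (-(q + 2 * L₂ + d * (K₀ * L₁))) := by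
    refine Real.exp_le_exp.2 ?_
    rw [neg_div]
    linarith
  calc C0 * (1 + Real.log T) * (M : ℝ) ^ d * Real.exp (-c0 / y)
      ≤ C0 * Real.exp L₂ * (2 ^ d * Real.exp (d * (K₀ * L₁))) *
        Real.exp (-(q + 2 * L₂ + d * (K₀ * L₁))) := by gcongr
    _ = (C0 * 2 ^ d) * (Real.exp L₂ * Real.exp (d * (K₀ * L₁)) *
        Real.exp (-(q + 2 * L₂ + d * (K₀ * L₁)))) := by ring
    _ ≤ Real.exp L₂ * (Real.exp L₂ * Real.exp (d * (K₀ * L₁)) *
        Real.exp (-(q + 2 * L₂ + d * (K₀ * L₁)))) := by gcongr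
    _ = Real.exp (-q) := by
        rw [← Real.exp_add, ← Real.exp_add, ← Real.exp_add]
        congr 1
        ring

theorem log75 : Real.log 75 ≤ 5 := by
  rw [Real.log_le_iff_le_exp (by norm_num)]
  have h1 := Real.exp_one_gt_d9
  have h2 : Real.exp 5 = Real.exp 1 ^ 5 := by
    rw [← Real.exp_nat_mul]
    norm_num
  rw [h2]
  have h3 : (2.7 : ℝ) ^ 5 ≤ Real.exp 1 ^ 5 := by
    gcongr
    linarith
  refine le_trans ?_ h3
  norm_num

/-- `|σ| log (1 / |σ|)` is small -/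
theorem sig_log {δ : ℝ} (hδ : 0 < δ) {s : ℝ} (hs : 0 < s) (h : s ≤ (δ / 2) ^ 2) :
    s * Real.log (1 / s) ≤ δ := by
  have h0 : 0 < Real.sqrt s := Real.sqrt_pos.2 hs
  have hss : Real.sqrt s * Real.sqrt s = s := Real.mul_self_sqrt hs.le
  have h1 : Real.log (1 / s) ≤ 2 * (1 / Real.sqrt s - 1) := by
    have h2 : (1 / s : ℝ) = (1 / Real.sqrt s) ^ 2 := by
      rw [div_pow, one_pow, sq, hss]
    rw [h2, Real.log_pow]
    have h3 := Real.log_le_sub_one_of_pos (show 0 < 1 / Real.sqrt s by positivity)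
    push_cast
    linarith
  have h2 : Real.sqrt s ≤ δ / 2 := by
    rw [Real.sqrt_le_left (by positivity)]
    exact h
  calc s * Real.log (1 / s) ≤ s * (2 * (1 / Real.sqrt s)) := by
        refine mul_le_mul_of_nonneg_left ?_ hs.le
        linarith
    _ = 2 * (s / Real.sqrt s) := by ring
    _ = 2 * Real.sqrt s := by
        congr 1
        rw [div_eq_iff h0.ne', hss]
    _ ≤ δ := by linarith

end Pool.Agent.LE.IR.H54
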