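import Pool.Agent.Helper54_LIR.INTb

/-!
# The intermediate region: the bound in terms of the distance from the edge
-/

set_option autoImplicit false

open MeasureTheory ProbabilityTheory Function Filter

open scoped ENNReal BigOperators Topology NNReal Matrix

noncomputable section

namespace Pool.Agent.LE.IR.H54

open Pool.Agent.Anderson Pool.Agent.Loc Pool.Agent.Mob Pool.Agent.Helper54.Bal Pool.Agent.BED
  Pool.Agent.LE.H93W Pool.Agent.LE.H93Z

/-- the intermediate region; `W` is the width of the window at the effective edge `Es`, `D` the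
distance of the energy from the effective edge -/
def IntStmt : Prop :=
  ∀ d : ℕ, 3 ≤ d → ∀ c₁ C₁ : ℝ, 0 < c₁ → 1 ≤ C₁ → ∃ c C : ℝ, 0 < c ∧ c ≤ 1 / 4 ∧ 1 ≤ C ∧
    ∀ σ Es W D E g L : ℝ, σ ≠ 0 → |σ| ≤ c → |Es - 2 * d| ≤ C₁ * |σ| →
    (∀ E g : ℝ, Es + W ≤ E → E ≤ Es + c₁ → LyaAt d σ E g →
      1 / 2 * Real.sqrt (E - Es) ≤ g ∧ g ≤ 3 / 2 * Real.sqrt (E - Es)) →
    D = Es - E → W ≤ c * D → 0 < D → D ≤ c → L = Real.log (1 / |σ|) + Real.log (1 / D) →
    C * σ ^ 2 * growth d (1 / D) ^ 2 * L ^ (2 * d + 10) ≤ D ^ (((d : ℝ) - 4) / 2) →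
    LyaAt d σ E g → g ≤ C * σ ^ 2 * growth d (1 / D) * Real.sqrt D * L ^ (d + 6)

/-- the numbers of the intermediate region -/
structure NumD (d : ℕ) (c0 C0 e K K₀ Kε δ₀ σ D L g C : ℝ) : Prop where
  hσ1 : |σ| ≤ 1 / 4
  hD1 : D ≤ 1 / 4
  hL2 : 2 ≤ L
  hexp : Real.exp L = 1 / (|σ| * D)
  hg1 : 1 ≤ g
  hS1 : C * (σ ^ 2 * g) * L ^ (2 * d + 10) ≤ 1
  hcL : C0 * 2 ^ d ≤ Real.exp L
  hLe : Real.log (1000 / e) ≤ L

theorem numD {d : ℕ} {c0 C0 e K K₀ Kε δ₀ σ D L C c : ℝ} (hd : 3 ≤ d) (hσ : σ ≠ 0) (hσc : |σ| ≤ c)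
    (hD : 0 < D) (hDc : D ≤ c) (hL : L = Real.log (1 / |σ|) + Real.log (1 / D)) (hc : 0 < c)
    (hc4 : c ≤ 1 / 4) (he : 0 < e) (hce : c ≤ e / 1000) (hcC : c * (C0 * 2 ^ d + 1) ≤ 1)
    (hC0 : 0 < C0)
    (hs : C * σ ^ 2 * growth d (1 / D) ^ 2 * L ^ (2 * d + 10) ≤ D ^ (((d : ℝ) - 4) / 2)) :
    NumD d c0 C0 e K K₀ Kε δ₀ σ D L (growth d (1 / D)) C := by
  have hσ0 : 0 < |σ| := abs_pos.2 hσ
  have hσ4 : |σ| ≤ 1 / 4 := hσc.trans hc4
  have hD4 : D ≤ 1 / 4 := hDc.trans hc4
  have h1D : 1 ≤ 1 / D := by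
    rw [le_div_iff₀ hD]
    linarith
  have hexp : Real.exp L = 1 / (|σ| * D) := by
    rw [hL, Real.exp_add, Real.exp_log (by positivity), Real.exp_log (by positivity)]
    rw [one_div_mul_one_div]
  have h1 : (1 : ℝ) ≤ Real.log 4 := by
    rw [Real.le_log_iff_exp_le (by norm_num)]
    have := Real.exp_one_lt_d9
    linarith
  have h2 : Real.log 4 ≤ Real.log (1 / |σ|) := by
    refine Real.log_le_log (by norm_num) ?_
    rw [le_div_iff₀ hσ0]
    linarith
  have h3 : Real.log 4 ≤ Real.log (1 / D) := by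
    refine Real.log_le_log (by norm_num) ?_
    rw [le_div_iff₀ hD]
    linarith
  have hg1 : 1 ≤ growth d (1 / D) := one_le_growth d h1D
  have hP := pwD hd hD (by linarith)
  refine ⟨hσ4, hD4, by linarith, hexp, hg1, ?_, ?_, ?_⟩
  · have h4 := hs.trans hP
    have h5 : growth d (1 / D) * (C * (σ ^ 2 * growth d (1 / D)) * L ^ (2 * d + 10)) ≤
        growth d (1 / D) * 1 := by
      calc growth d (1 / D) * (C * (σ ^ 2 * growth d (1 / D)) * L ^ (2 * d + 10)) =
            C * σ ^ 2 * growth d (1 / D) ^ 2 * L ^ (2 * d + 10) := by ring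
        _ ≤ growth d (1 / D) * 1 := by rw [mul_one]; exact h4
    exact le_of_mul_le_mul_left h5 (by linarith)
  · rw [hexp, le_div_iff₀ (by positivity)]
    have h6 : |σ| * D ≤ c * 1 := by
      gcongr
      linarith
    have h7 : 0 ≤ C0 * 2 ^ d := by positivity
    have h8 : c * (C0 * 2 ^ d) ≤ 1 := by nlinarith
    calc C0 * 2 ^ d * (|σ| * D) ≤ C0 * 2 ^ d * (c * 1) := by gcongr
      _ ≤ 1 := by linarith
  · have h6 : Real.log (1000 / e) ≤ Real.log (1 / D) := by
      refine Real.log_le_log (by positivity) ?_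
      rw [div_le_div_iff₀ he hD]
      have := hDc.trans hce
      linarith
    linarith

/-- the scale `T = max (1000 / D) (1 / |σ|) / e` -/
theorem scaleT {d : ℕ} {e σ D L δ₀ C tq : ℝ} (hσ : σ ≠ 0) (hD : 0 < D) (hσ4 : |σ| ≤ 1 / 4)
    (hD4 : D ≤ 1 / 4) (he : 0 < e) (he50 : e ≤ 1 / 50)
    (hL : L = Real.log (1 / |σ|) + Real.log (1 / D)) (hL1 : 1 ≤ L)
    (hLe : Real.log (1000 / e) ≤ L) (hδ : 0 < δ₀) (hσδ : |σ| ≤ (e * δ₀ / 2 / 2) ^ 2)
    (hC : 1000 / e / δ₀ ≤ C)
    (hS1 : C * (σ ^ 2 * growth d (1 / D)) * L ^ (2 * d + 10) ≤ 1)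
    (htq : tq = max (1000 / D) (1 / |σ|)) (hDe : D ≤ e) (hσe : |σ| ≤ e / 1000) :
    1 ≤ tq ∧ 1 / tq ≤ D / 1000 ∧ 1 / |σ| ≤ tq ∧ 1 ≤ 1 / e * tq ∧ Real.log (1 / e * tq) ≤ 2 * L ∧
      1 / e * tq + 3 ≤ 75 / D / |σ| ∧ 1000 / D ≤ 1 / e * tq ∧
      0 < σ ^ 2 * growth d (1 / e * tq) ∧ σ ^ 2 * growth d (1 / e * tq) * L ≤ δ₀ := by
  have hσ0 : 0 < |σ| := abs_pos.2 hσ
  have hσ2 : 0 < σ ^ 2 := by positivity
  have h1D : 1 ≤ 1 / D := by
    rw [le_div_iff₀ hD]
    linarith
  have h1σ : 1 ≤ 1 / |σ| := by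
    rw [le_div_iff₀ hσ0]
    linarith
  have h1000 : 1 ≤ 1000 / D := by
    rw [le_div_iff₀ hD]
    linarith
  have ha : 1000 / D ≤ tq := by rw [htq]; exact le_max_left _ _
  have hb : 1 / |σ| ≤ tq := by rw [htq]; exact le_max_right _ _
  have htq1 : 1 ≤ tq := h1000.trans ha
  have htq0 : 0 < tq := by linarith
  have hie : 1 ≤ 1 / e := by
    rw [le_div_iff₀ he]
    linarith
  have hab : tq ≤ 1000 / D * (1 / |σ|) := by
    rw [htq]
    refine max_le ?_ ?_
    · exact le_mul_of_one_le_right (by positivity) h1σ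
    · exact le_mul_of_one_le_left (by positivity) h1000
  have hT1 : 1 ≤ 1 / e * tq := by nlinarith
  have hgT : growth d (1 / e * tq) ≤ 1 / e * growth d tq := growth_mul d hie htq1
  have hgT1 := one_le_growth d hT1
  refine ⟨htq1, ?_, hb, hT1, ?_, ?_, ?_, by positivity, ?_⟩
  · rw [div_le_div_iff₀ htq0 (by norm_num)]
    rw [div_le_iff₀ hD] at ha
    linarith
  · have h1 : 1 / e * tq ≤ 1000 / e * (1 / |σ| * (1 / D)) := by
      calc 1 / e * tq ≤ 1 / e * (1000 / D * (1 / |σ|)) := by gcongr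
        _ = 1000 / e * (1 / |σ| * (1 / D)) := by ring
    have h2 := Real.log_le_log (by linarith) h1
    have h3 : Real.log (1000 / e * (1 / |σ| * (1 / D))) =
        Real.log (1000 / e) + (Real.log (1 / |σ|) + Real.log (1 / D)) := by
      rw [Real.log_mul (by positivity) (by positivity),
        Real.log_mul (by positivity) (by positivity)]
    linarith
  · have h1 : 75 / D / |σ| = 75 / (D * |σ|) := by rw [div_div]
    rw [h1, le_div_iff₀ (by positivity)]
    have h2 : tq * (D * |σ|) ≤ 1000 * |σ| + D := by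
      rw [htq]
      rcases max_choice (1000 / D) (1 / |σ|) with h | h
      · rw [h]
        have : 1000 / D * (D * |σ|) = 1000 * |σ| := by field_simp
        linarith
      · rw [h]
        have : 1 / |σ| * (D * |σ|) = D := by field_simp
        rw [this]
        linarith
    have h3 : 1 / e * (1000 * |σ| + D) ≤ 2 := by
      rw [one_div, inv_mul_le_iff₀ he]
      linarith
    calc (1 / e * tq + 3) * (D * |σ|) = 1 / e * (tq * (D * |σ|)) + 3 * (D * |σ|) := by ring
      _ ≤ 1 / e * (1000 * |σ| + D) + 3 * (1 / 4 * (1 / 4)) := by gcongr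
      _ ≤ 75 := by linarith
  · refine ha.trans ?_
    exact le_mul_of_one_le_left (by positivity) hie
  · rcases max_choice (1000 / D) (1 / |σ|) with h | h
    · have h1 : growth d tq ≤ 1000 * growth d (1 / D) := by
        rw [htq, h, show (1000 / D : ℝ) = 1000 * (1 / D) by ring]
        exact growth_mul d (by norm_num) h1D
      have h2 := absorb (j := 1) hC (by have := one_le_growth d h1D; positivity) hL1 (by omega)
        (le_trans (by positivity) hC) hS1
      rw [pow_one] at h2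
      calc σ ^ 2 * growth d (1 / e * tq) * L ≤ σ ^ 2 * (1 / e * (1000 * growth d (1 / D))) * L := by
            have := hgT.trans (mul_le_mul_of_nonneg_left h1 (by positivity : 0 ≤ 1 / e))
            gcongr
        _ = (1000 / e / δ₀ * (σ ^ 2 * growth d (1 / D)) * L) * δ₀ := by field_simp
        _ ≤ 1 * δ₀ := by gcongr
        _ = δ₀ := one_mul _
    · have h1 : growth d tq ≤ 1 / |σ| := by
        rw [htq, h]
        exact growth_le_self d h1σ
      have h2 : L ≤ 2 * Real.log (1 / |σ|) := by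
        have h3 : Real.log (1 / D) ≤ Real.log (1 / |σ|) := by
          refine Real.log_le_log (by positivity) ?_
          have h4 : 1000 / D ≤ 1 / |σ| := by
            rw [← h]
            exact le_max_left _ _
          refine le_trans ?_ h4
          gcongr
          norm_num
        linarith
      have h3 := sig_log (δ := e * δ₀ / 2) (by positivity) hσ0 hσδ
      calc σ ^ 2 * growth d (1 / e * tq) * L ≤
            σ ^ 2 * (1 / e * (1 / |σ|)) * (2 * Real.log (1 / |σ|)) := by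
            have := hgT.trans (mul_le_mul_of_nonneg_left h1 (by positivity : 0 ≤ 1 / e))
            gcongr
        _ = 2 / e * (|σ| * Real.log (1 / |σ|)) := by
            rw [← sq_abs]
            field_simp
        _ ≤ 2 / e * (e * δ₀ / 2) := by gcongr
        _ = δ₀ := by field_simp

end Pool.Agent.LE.IR.H54
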